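import Pool.Agent.Work.MP_39acf6_an.H80Defs

/-!
# The case of five variables (MP_39acf6_an, lower bound)
-/

set_option autoImplicit false
set_option linter.unusedSectionVars false
set_option linter.unusedVariables false

namespace SignPat

open Finset

variable {ι : Type*} [Fintype ι] [DecidableEq ι]

/-- cubic monomial -/
abbrev T3 (i j l : ι) : ι → ℤ := E i + E j + E l

theorem pred_T3 {i j l k : ι} (h : 0 ≤ (T3 i j l - E k) k) : k = i ∨ k = j ∨ k = l := by
  by_contra hcon
  push Not at hcon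
  obtain ⟨h1, h2, h3⟩ := hcon
  simp [h1, h2, h3] at h

theorem T3_sub1 (i j l : ι) : T3 i j l - E i = E j + E l := by
  simp only [T3]; abel

theorem T3_sub2 (i j l : ι) : T3 i j l - E j = E i + E l := by
  simp only [T3]; abel

theorem T3_sub3 (i j l : ι) : T3 i j l - E l = E i + E j := by
  simp only [T3]; abel

theorem T3_mem_up_nn {S : Finset ι} {M : Finset (ι → ℤ)} (hM : ∀ m ∈ M, ∀ j, 0 ≤ m j)
    {i j l : ι} (h : T3 i j l ∈ up S M) : E j + E l ∈ M ∨ E i + E l ∈ M ∨ E i + E j ∈ M := by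
  obtain ⟨k, -, hk⟩ := mem_up.1 h
  rcases pred_T3 (hM _ hk k) with rfl | rfl | rfl
  · left; rwa [T3_sub1] at hk
  · right; left; rwa [T3_sub2] at hk
  · right; right; rwa [T3_sub3] at hk

/-- the configuration with the slice `w` equal to `K_{2,2}` -/
structure Cfg (S : Finset ι) (P M : Finset (ι → ℤ)) (a b c e w : ι) : Prop where
  mem : ∀ k, k ∈ S ↔ k = a ∨ k = b ∨ k = c ∨ k = e ∨ k = w
  card : S.card = 5
  hab : a ≠ b
  hac : a ≠ c
  hae : a ≠ e
  haw : a ≠ w
  hbc : b ≠ c
  hbe : b ≠ e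
  hbw : b ≠ w
  hce : c ≠ e
  hcw : c ≠ w
  hew : e ≠ w
  Mac : E a + E c ∈ M
  Mae : E a + E e ∈ M
  Mbc : E b + E c ∈ M
  Mbe : E b + E e ∈ M
  Paa : E a + E a ∈ P
  Pab : E a + E b ∈ P
  Pbb : E b + E b ∈ P
  Pcc : E c + E c ∈ P
  Pce : E c + E e ∈ P
  Pee : E e + E e ∈ P
  Mnn : ∀ m ∈ M, ∀ j, 0 ≤ m j
  flatP : ∀ x ∈ P, ∀ j, j ∉ S → x j = 0
  disj : Disjoint P M
  priv : ∀ p ∈ P, ∃ k ∈ S, p + E k ∈ up S M
  degP : ∀ x ∈ P, ∑ k ∈ S, x k = 2
  degM : ∀ x ∈ M, ∑ k ∈ S, x k = 2
  hN : (cost S P M).card ≤ 13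
  hs : ∀ i ∈ S, 8 ≤ ((cost S P M).filter (fun c => c i ≤ 0)).card
  hw8 : ((cost S P M).filter (fun c => c w ≤ 0)).card ≤ 8

namespace Cfg

variable {S : Finset ι} {P M : Finset (ι → ℤ)} {a b c e w : ι}

theorem swap1 (h : Cfg S P M a b c e w) : Cfg S P M b a c e w where
  mem k := by rw [h.mem]; tauto
  card := h.card
  hab := h.hab.symm
  hac := h.hbc
  hae := h.hbe
  haw := h.hbw
  hbc := h.hac
  hbe := h.hae
  hbw := h.haw
  hce := h.hce
  hcw := h.hcw
  hew := h.hew
  Mac := h.Mbc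
  Mae := h.Mbe
  Mbc := h.Mac
  Mbe := h.Mae
  Paa := h.Pbb
  Pab := by rw [add_comm]; exact h.Pab
  Pbb := h.Paa
  Pcc := h.Pcc
  Pce := h.Pce
  Pee := h.Pee
  Mnn := h.Mnn
  flatP := h.flatP
  disj := h.disj
  priv := h.priv
  degP := h.degP
  degM := h.degM
  hN := h.hN
  hs := h.hs
  hw8 := h.hw8

theorem swap2 (h : Cfg S P M a b c e w) : Cfg S P M c e a b w where
  mem k := by rw [h.mem]; tauto
  card := h.card
  hab := h.hce
  hac := h.hac.symm
  hae := h.hbc.symm
  haw := h.hcw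
  hbc := h.hae.symm
  hbe := h.hbe.symm
  hbw := h.hew
  hce := h.hab
  hcw := h.haw
  hew := h.hbw
  Mac := by rw [add_comm]; exact h.Mac
  Mae := by rw [add_comm]; exact h.Mbc
  Mbc := by rw [add_comm]; exact h.Mae
  Mbe := by rw [add_comm]; exact h.Mbe
  Paa := h.Pcc
  Pab := h.Pce
  Pbb := h.Pee
  Pcc := h.Paa
  Pce := h.Pab
  Pee := h.Pbb
  Mnn := h.Mnn
  flatP := h.flatP
  disj := h.disj
  priv := h.priv
  degP := h.degP
  degM := h.degM
  hN := h.hN
  hs := h.hs
  hw8 := h.hw8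

theorem notMem_of_P (h : Cfg S P M a b c e w) {x : ι → ℤ} (hx : x ∈ P) : x ∉ M :=
  fun hM => Finset.disjoint_left.1 h.disj hx hM

theorem up_nn (h : Cfg S P M a b c e w) {x : ι → ℤ} (hx : x ∈ up S M) (j : ι) : 0 ≤ x j := by
  obtain ⟨k, -, hk⟩ := mem_up.1 hx
  have h1 := h.Mnn _ hk j
  have h2 : 0 ≤ E k j := by
    simp only [E, Pi.single_apply]; split_ifs <;> norm_num
  simp only [Pi.sub_apply] at h1
  linarith

theorem sum_E (S : Finset ι) {k : ι} (hk : k ∈ S) : ∑ x ∈ S, E k x = 1 := by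
  simp only [E, Pi.single_apply]
  rw [Finset.sum_ite_eq' S k]
  simp [hk]

theorem memS (h : Cfg S P M a b c e w) : a ∈ S ∧ b ∈ S ∧ c ∈ S ∧ e ∈ S ∧ w ∈ S := by
  refine ⟨?_, ?_, ?_, ?_, ?_⟩ <;> rw [h.mem] <;> simp

theorem sum_add_E (S : Finset ι) {x : ι → ℤ} {k : ι} (hk : k ∈ S) :
    ∑ j ∈ S, (x + E k) j = ∑ j ∈ S, x j + 1 := by
  simp only [Pi.add_apply, Finset.sum_add_distrib]
  rw [← sum_E S hk]

theorem up_deg {A : Finset (ι → ℤ)} {n : ℤ} (hA : ∀ x ∈ A, ∑ k ∈ S, x k = n) {x : ι → ℤ}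
    (hx : x ∈ up S A) : ∑ k ∈ S, x k = n + 1 := by
  obtain ⟨k, hkS, hk⟩ := mem_up.1 hx
  have h1 := hA _ hk
  have h2 := sum_add_E S (x := x - E k) hkS
  rw [sub_add_cancel] at h2
  rw [h2, h1]

theorem T3_sum {i j l : ι} (hi : i ∈ S) (hj : j ∈ S) (hl : l ∈ S) :
    ∑ k ∈ S, T3 i j l k = 3 := by
  simp only [T3, Pi.add_apply, Finset.sum_add_distrib]
  have h1 := sum_E S hi
  have h2 := sum_E S hj
  have h3 := sum_E S hl
  simp only [E] at h1 h2 h3 ⊢
  rw [h1, h2, h3]; norm_num

/-- criterion for a cubic monomial to be a sink -/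
theorem T3_mem_cost (h : Cfg S P M a b c e w) {i j l : ι} (hi : i ∈ S) (hj : j ∈ S) (hl : l ∈ S)
    (hP : E j + E l ∈ P ∨ E i + E l ∈ P ∨ E i + E j ∈ P)
    (h1 : E j + E l ∉ M) (h2 : E i + E l ∉ M) (h3 : E i + E j ∉ M) :
    T3 i j l ∈ cost S P M := by
  unfold cost sinks
  rw [mem_union, mem_sdiff]
  left
  constructor
  · rw [mem_up]
    rcases hP with hP | hP | hP
    · exact ⟨i, hi, by rwa [T3_sub1]⟩
    · exact ⟨j, hj, by rwa [T3_sub2]⟩
    · exact ⟨l, hl, by rwa [T3_sub3]⟩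
  · intro hm
    rcases T3_mem_up_nn h.Mnn hm with h' | h' | h'
    · exact h1 h'
    · exact h2 h'
    · exact h3 h'

/-- a weight function which separates the monomials -/
def ph (a b c e w : ι) (x : ι → ℤ) : ℤ :=
  x a + 10 * x b + 100 * x c + 1000 * x e + 10000 * x w

theorem ph_add (x y : ι → ℤ) : ph a b c e w (x + y) = ph a b c e w x + ph a b c e w y := by
  simp only [ph, Pi.add_apply]; ring

theorem ph_a (h : Cfg S P M a b c e w) : ph a b c e w (E a) = 1 := by
  simp [ph, E, h.hab.symm, h.hac.symm, h.hae.symm, h.haw.symm]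

theorem ph_b (h : Cfg S P M a b c e w) : ph a b c e w (E b) = 10 := by
  simp [ph, E, h.hab, h.hbc.symm, h.hbe.symm, h.hbw.symm]

theorem ph_c (h : Cfg S P M a b c e w) : ph a b c e w (E c) = 100 := by
  simp [ph, E, h.hac, h.hbc, h.hce.symm, h.hcw.symm]

theorem ph_e (h : Cfg S P M a b c e w) : ph a b c e w (E e) = 1000 := by
  simp [ph, E, h.hae, h.hbe, h.hce, h.hew.symm]

theorem ph_w (h : Cfg S P M a b c e w) : ph a b c e w (E w) = 10000 := by
  simp [ph, E, h.haw, h.hbw, h.hcw, h.hew]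

/-- the eight cubes -/
def LL (a b c e : ι) : Finset (ι → ℤ) :=
  {T3 a a a, T3 a a b, T3 a b b, T3 b b b, T3 c c c, T3 c c e, T3 c e e, T3 e e e}

theorem card_LL (h : Cfg S P M a b c e w) : 8 ≤ (LL a b c e).card := by
  have h1 : ({3, 12, 21, 30, 300, 1200, 2100, 3000} : Finset ℤ) ⊆
      (LL a b c e).image (ph a b c e w) := by
    intro x hx
    simp only [mem_insert, mem_singleton] at hx
    rw [mem_image]
    rcases hx with rfl | rfl | rfl | rfl | rfl | rfl | rfl | rfl
    · exact ⟨T3 a a a, by simp [LL], by rw [ph_add, ph_add, h.ph_a]; norm_num⟩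
    · exact ⟨T3 a a b, by simp [LL], by rw [ph_add, ph_add, h.ph_a, h.ph_b]; norm_num⟩
    · exact ⟨T3 a b b, by simp [LL], by rw [ph_add, ph_add, h.ph_a, h.ph_b]; norm_num⟩
    · exact ⟨T3 b b b, by simp [LL], by rw [ph_add, ph_add, h.ph_b]; norm_num⟩
    · exact ⟨T3 c c c, by simp [LL], by rw [ph_add, ph_add, h.ph_c]; norm_num⟩
    · exact ⟨T3 c c e, by simp [LL], by rw [ph_add, ph_add, h.ph_c, h.ph_e]; norm_num⟩
    · exact ⟨T3 c e e, by simp [LL], by rw [ph_add, ph_add, h.ph_c, h.ph_e]; norm_num⟩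
    · exact ⟨T3 e e e, by simp [LL], by rw [ph_add, ph_add, h.ph_e]; norm_num⟩
  have h2 := (Finset.card_le_card h1).trans Finset.card_image_le
  exact h2

theorem aaa (h : Cfg S P M a b c e w) : T3 a a a ∈ cost S P M :=
  h.T3_mem_cost h.memS.1 h.memS.1 h.memS.1 (Or.inl h.Paa) (h.notMem_of_P h.Paa)
    (h.notMem_of_P h.Paa) (h.notMem_of_P h.Paa)

theorem aab (h : Cfg S P M a b c e w) : T3 a a b ∈ cost S P M :=
  h.T3_mem_cost h.memS.1 h.memS.1 h.memS.2.1 (Or.inl h.Pab) (h.notMem_of_P h.Pab)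
    (h.notMem_of_P h.Pab) (h.notMem_of_P h.Paa)

theorem abb (h : Cfg S P M a b c e w) : T3 a b b ∈ cost S P M :=
  h.T3_mem_cost h.memS.1 h.memS.2.1 h.memS.2.1 (Or.inl h.Pbb) (h.notMem_of_P h.Pbb)
    (h.notMem_of_P h.Pab) (h.notMem_of_P h.Pab)

theorem LL_sub (h : Cfg S P M a b c e w) :
    LL a b c e ⊆ (cost S P M).filter (fun c => c w ≤ 0) := by
  intro x hx
  rw [mem_filter]
  have haw := h.haw
  have hbw := h.hbw
  have hcw := h.hcw
  have hew := h.hew
  simp only [LL, mem_insert, mem_singleton] at hx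
  rcases hx with rfl | rfl | rfl | rfl | rfl | rfl | rfl | rfl
  · exact ⟨h.aaa, by simp [h.haw.symm]⟩
  · exact ⟨h.aab, by simp [h.haw.symm, h.hbw.symm]⟩
  · exact ⟨h.abb, by simp [h.haw.symm, h.hbw.symm]⟩
  · exact ⟨h.swap1.aaa, by simp [h.hbw.symm]⟩
  · exact ⟨h.swap2.aaa, by simp [h.hcw.symm]⟩
  · exact ⟨h.swap2.aab, by simp [h.hcw.symm, h.hew.symm]⟩
  · exact ⟨h.swap2.abb, by simp [h.hcw.symm, h.hew.symm]⟩
  · exact ⟨h.swap2.swap1.aaa, by simp [h.hew.symm]⟩

theorem LL_eq (h : Cfg S P M a b c e w) :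
    LL a b c e = (cost S P M).filter (fun c => c w ≤ 0) :=
  Finset.eq_of_subset_of_card_le h.LL_sub (h.hw8.trans h.card_LL)

/-- the cost elements with `x w ≤ 0` -/
theorem low (h : Cfg S P M a b c e w) {x : ι → ℤ} (hx : x ∈ cost S P M) (hw : x w ≤ 0) :
    (∀ j, 0 ≤ x j) ∧ ∑ k ∈ S, x k = 3 := by
  have h1 : x ∈ LL a b c e := by
    rw [h.LL_eq, mem_filter]
    exact ⟨hx, hw⟩
  obtain ⟨ha, hb, hc, he, hw'⟩ := h.memS
  have key : ∀ i j l : ι, i ∈ S → j ∈ S → l ∈ S →
      (∀ k, 0 ≤ T3 i j l k) ∧ ∑ k ∈ S, T3 i j l k = 3 := by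
    intro i j l hi hj hl
    refine ⟨fun k => ?_, T3_sum hi hj hl⟩
    simp only [T3, E, Pi.add_apply, Pi.single_apply]
    split_ifs <;> norm_num
  simp only [LL, mem_insert, mem_singleton] at h1
  rcases h1 with rfl | rfl | rfl | rfl | rfl | rfl | rfl | rfl
  · exact key _ _ _ ha ha ha
  · exact key _ _ _ ha ha hb
  · exact key _ _ _ ha hb hb
  · exact key _ _ _ hb hb hb
  · exact key _ _ _ hc hc hc
  · exact key _ _ _ hc hc he
  · exact key _ _ _ hc he he
  · exact key _ _ _ he he he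

theorem plus_le (h : Cfg S P M a b c e w) {i : ι} (hi : i ∈ S) {X : Finset (ι → ℤ)}
    (hX : X ⊆ cost S P M) (hXi : ∀ x ∈ X, 1 ≤ x i) : X.card ≤ 5 := by
  have h1 := h.hs i hi
  have h2 : X ∪ (cost S P M).filter (fun c => c i ≤ 0) ⊆ cost S P M :=
    union_subset hX (filter_subset _ _)
  have h3 : Disjoint X ((cost S P M).filter (fun c => c i ≤ 0)) := by
    rw [Finset.disjoint_left]
    intro x hx hx'
    rw [mem_filter] at hx'
    have := hXi x hx
    omega
  have h4 := Finset.card_le_card h2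
  rw [Finset.card_union_of_disjoint h3] at h4
  have := h.hN
  omega

/-- at most two cost elements contain `a` and `w` -/
theorem aw_le (h : Cfg S P M a b c e w) {X : Finset (ι → ℤ)}
    (hX : X ⊆ cost S P M) (hXw : ∀ x ∈ X, 1 ≤ x w) (hXa : ∀ x ∈ X, 1 ≤ x a) : X.card ≤ 2 := by
  set L : Finset (ι → ℤ) := {T3 a a a, T3 a a b, T3 a b b} with hL
  have h1 : ({3, 12, 21} : Finset ℤ) ⊆ L.image (ph a b c e w) := by
    intro x hx
    simp only [mem_insert, mem_singleton] at hx
    rw [mem_image]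
    rcases hx with rfl | rfl | rfl
    · exact ⟨T3 a a a, by simp [hL], by rw [ph_add, ph_add, h.ph_a]; norm_num⟩
    · exact ⟨T3 a a b, by simp [hL], by rw [ph_add, ph_add, h.ph_a, h.ph_b]; norm_num⟩
    · exact ⟨T3 a b b, by simp [hL], by rw [ph_add, ph_add, h.ph_a, h.ph_b]; norm_num⟩
  have h2 : 3 ≤ L.card := (Finset.card_le_card h1).trans Finset.card_image_le
  have hLw : ∀ x ∈ L, x w = 0 ∧ 1 ≤ x a := by
    intro x hx
    simp only [hL, mem_insert, mem_singleton] at hx
    rcases hx with rfl | rfl | rfl <;>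
      simp [h.haw.symm, h.hbw.symm, h.hab]
  have hLC : L ⊆ cost S P M := by
    intro x hx
    simp only [hL, mem_insert, mem_singleton] at hx
    rcases hx with rfl | rfl | rfl
    · exact h.aaa
    · exact h.aab
    · exact h.abb
  have h3 : Disjoint X L := by
    rw [Finset.disjoint_left]
    intro x hx hx'
    have h4 := hXw x hx
    have h5 := (hLw x hx').1
    omega
  have h6 := h.plus_le h.memS.1 (X := X ∪ L) (union_subset hX hLC) (by
    intro x hx
    rw [mem_union] at hx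
    rcases hx with hx | hx
    · exact hXa x hx
    · exact (hLw x hx).2)
  rw [Finset.card_union_of_disjoint h3] at h6
  omega

/-- at most two cost elements contain `i` and `w` -/
theorem iw_le (h : Cfg S P M a b c e w) {i : ι} (hi : i ∈ S) (hiw : i ≠ w) {X : Finset (ι → ℤ)}
    (hX : X ⊆ cost S P M) (hXw : ∀ x ∈ X, 1 ≤ x w) (hXi : ∀ x ∈ X, 1 ≤ x i) : X.card ≤ 2 := by
  rcases (h.mem i).1 hi with rfl | rfl | rfl | rfl | rfl
  · exact h.aw_le hX hXw hXi
  · exact h.swap1.aw_le hX hXw hXi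
  · exact h.swap2.aw_le hX hXw hXi
  · exact h.swap2.swap1.aw_le hX hXw hXi
  · exact absurd rfl hiw

theorem star_card (S : Finset ι) (q : ι → ℤ) : (S.image (fun k => q + E k)).card = S.card := by
  apply Finset.card_image_of_injective
  intro i j hij
  simp only [add_right_inj] at hij
  have := congrFun hij i
  by_contra hne
  simp [E, hne] at this

theorem unc_deg (h : Cfg S P M a b c e w) {q : ι → ℤ} (hq : q ∈ unc S P M) :
    ∑ k ∈ S, q k = 3 := by
  unfold unc at hq
  rw [mem_sdiff] at hq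
  have := up_deg h.degM hq.1
  linarith

theorem unc_star (h : Cfg S P M a b c e w) {q : ι → ℤ} (hq : q ∈ unc S P M) {k : ι}
    (hk : k ∈ S) : q + E k ∈ cost S P M ∧ 1 ≤ (q + E k) w := by
  have h1 : q + E k ∈ cost S P M := by
    unfold cost
    rw [mem_union]
    right
    exact add_mem_up hq hk
  refine ⟨h1, ?_⟩
  by_contra hcon
  have h2 := (h.low h1 (by omega)).2
  rw [sum_add_E S hk, h.unc_deg hq] at h2
  omega

theorem unc1 (h : Cfg S P M a b c e w) {q : ι → ℤ} (hq : q ∈ unc S P M) {i : ι} (hi : i ∈ S)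
    (hiw : i ≠ w) : q i ≤ 0 := by
  by_contra hcon
  have hcon : 1 ≤ q i := by omega
  have h1 : S.image (fun k => q + E k) ⊆ cost S P M := by
    intro x hx
    rw [mem_image] at hx
    obtain ⟨k, hk, rfl⟩ := hx
    exact (h.unc_star hq hk).1
  have h2 := h.iw_le hi hiw h1 (by
    intro x hx
    rw [mem_image] at hx
    obtain ⟨k, hk, rfl⟩ := hx
    exact (h.unc_star hq hk).2) (by
    intro x hx
    rw [mem_image] at hx
    obtain ⟨k, hk, rfl⟩ := hx
    have : 0 ≤ E k i := by
      simp only [E, Pi.single_apply]; split_ifs <;> norm_num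
    simp only [Pi.add_apply]
    omega)
  rw [star_card, h.card] at h2
  omega

/-- if `2 e_j + e_w` is not a cost element then `e_j + e_w ∈ M` -/
theorem jw_mem (h : Cfg S P M a b c e w) {j : ι} (hj : j ∈ S) (hjw : j ≠ w)
    (hn : T3 j j w ∉ cost S P M) : E j + E w ∈ M := by
  have hjj : E j + E j ∈ P := by
    rcases (h.mem j).1 hj with rfl | rfl | rfl | rfl | rfl
    · exact h.Paa
    · exact h.Pbb
    · exact h.Pcc
    · exact h.Pee
    · exact absurd rfl hjw
  by_contra hcon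
  exact hn (h.T3_mem_cost hj hj h.memS.2.2.2.2 (Or.inr (Or.inr hjj)) hcon hcon
    (h.notMem_of_P hjj))

theorem unc_empty (h : Cfg S P M a b c e w) : unc S P M = ∅ := by
  rw [Finset.eq_empty_iff_forall_notMem]
  intro q hq
  obtain ⟨ha, hb, hc, he, hw⟩ := h.memS
  have h1 : S.image (fun k => q + E k) ⊆ cost S P M := by
    intro x hx
    rw [mem_image] at hx
    obtain ⟨k, hk, rfl⟩ := hx
    exact (h.unc_star hq hk).1
  have h1w : ∀ x ∈ S.image (fun k => q + E k), 1 ≤ x w := by
    intro x hx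
    rw [mem_image] at hx
    obtain ⟨k, hk, rfl⟩ := hx
    exact (h.unc_star hq hk).2
  have h1s : ∀ x ∈ S.image (fun k => q + E k), ∑ k ∈ S, x k = 4 := by
    intro x hx
    rw [mem_image] at hx
    obtain ⟨k, hk, rfl⟩ := hx
    rw [sum_add_E S hk, h.unc_deg hq]
    norm_num
  -- no cost element of degree three contains `w`
  have h2 : ∀ x ∈ cost S P M, ∑ k ∈ S, x k = 3 → x w ≤ 0 := by
    intro x hx hs
    by_contra hcon
    have hnx : x ∉ S.image (fun k => q + E k) := by
      intro hx'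
      have := h1s x hx'
      omega
    have h3 := h.plus_le hw (X := insert x (S.image (fun k => q + E k)))
      (insert_subset hx h1) (by
        intro y hy
        rw [mem_insert] at hy
        rcases hy with rfl | hy
        · omega
        · exact h1w y hy)
    rw [card_insert_of_notMem hnx, star_card, h.card] at h3
    omega
  have h3 : ∀ j ∈ S, j ≠ w → E j + E w ∈ M := by
    intro j hj hjw
    apply h.jw_mem hj hjw
    intro hcon
    have := h2 _ hcon (T3_sum hj hj hw)
    simp [hjw.symm] at this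
  have h4 : T3 a c w ∈ up S M := by
    rw [mem_up]
    exact ⟨w, hw, by rw [T3_sub3]; exact h.Mac⟩
  by_cases h5 : T3 a c w ∈ up S P
  · obtain ⟨k, hk, hk'⟩ := mem_up.1 h5
    have hka : k ≠ a := by
      rintro rfl
      rw [T3_sub1] at hk'
      exact h.notMem_of_P hk' (h3 c hc h.hcw)
    have hkc : k ≠ c := by
      rintro rfl
      rw [T3_sub2] at hk'
      exact h.notMem_of_P hk' (h3 a ha h.haw)
    have hkw : k ≠ w := by
      rintro rfl
      rw [T3_sub3] at hk'
      exact h.notMem_of_P hk' h.Mac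
    have h6 : T3 a c w - E k + E a ∈ cost S P M := by
      unfold cost sinks
      rw [mem_union, mem_sdiff]
      left
      refine ⟨add_mem_up hk' ha, fun hm => ?_⟩
      have := h.up_nn hm k
      simp [hka, hkc, hkw] at this
    have h7 := h2 _ h6 (by rw [sum_add_E S ha, h.degP _ hk']; norm_num)
    simp [h.haw.symm, h.hcw.symm, hkw.symm] at h7
  · have h6 : T3 a c w ∈ unc S P M := by
      unfold unc
      rw [mem_sdiff]
      exact ⟨h4, h5⟩
    have := h.unc1 h6 ha h.haw
    simp [h.hac, h.haw] at this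

theorem covered (h : Cfg S P M a b c e w) {x : ι → ℤ} (hx : x ∈ up S M) : x ∈ up S P := by
  by_contra hcon
  have : x ∈ unc S P M := by
    unfold unc
    rw [mem_sdiff]
    exact ⟨hx, hcon⟩
  rw [h.unc_empty] at this
  simp at this

/-- a negative element of `P` -/
theorem negP (h : Cfg S P M a b c e w) {p : ι → ℤ} (hp : p ∈ P) {s : ι} (hs : p s < 0) :
    s ∈ S ∧ s ≠ w ∧ (∀ k ∈ S, k ≠ s → p + E k ∈ cost S P M ∧ 1 ≤ (p + E k) w) ∧
      ∀ i ∈ S, i ≠ w → p i ≤ 0 := by
  have hsS : s ∈ S := by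
    by_contra hcon
    have := h.flatP p hp s hcon
    omega
  have h1 : ∀ k ∈ S, k ≠ s → p + E k ∈ cost S P M ∧ 1 ≤ (p + E k) w := by
    intro k hk hks
    have h2 : (p + E k) s < 0 := by
      simp [hks.symm]; exact hs
    have h3 : p + E k ∈ cost S P M := by
      unfold cost sinks
      rw [mem_union, mem_sdiff]
      left
      refine ⟨add_mem_up hp hk, fun hm => ?_⟩
      have := h.up_nn hm s
      omega
    refine ⟨h3, ?_⟩
    by_contra hcon
    have := (h.low h3 (by omega)).1 s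
    omega
  have hsw : s ≠ w := by
    rintro rfl
    have h2 := (h1 a h.memS.1 h.haw).2
    simp [h.haw.symm] at h2
    omega
  refine ⟨hsS, hsw, h1, ?_⟩
  intro i hi hiw
  by_contra hcon
  have his : i ≠ s := by
    rintro rfl; omega
  have h2 : (S.erase s).image (fun k => p + E k) ⊆ cost S P M := by
    intro x hx
    rw [mem_image] at hx
    obtain ⟨k, hk, rfl⟩ := hx
    exact (h1 k (mem_of_mem_erase hk) (ne_of_mem_erase hk)).1
  have h3 := h.iw_le hi hiw h2 (by
    intro x hx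
    rw [mem_image] at hx
    obtain ⟨k, hk, rfl⟩ := hx
    exact (h1 k (mem_of_mem_erase hk) (ne_of_mem_erase hk)).2) (by
    intro x hx
    rw [mem_image] at hx
    obtain ⟨k, hk, rfl⟩ := hx
    have : 0 ≤ E k i := by
      simp only [E, Pi.single_apply]; split_ifs <;> norm_num
    simp only [Pi.add_apply]
    omega)
  rw [star_card, Finset.card_erase_of_mem hsS, h.card] at h3
  omega

/-- no triangle of `M` through `w` -/
theorem no_tri (h : Cfg S P M a b c e w) {i j : ι} (hi : i ∈ S) (hj : j ∈ S) (hiw : i ≠ w)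
    (hjw : j ≠ w) (hij : i ≠ j) (h1 : E i + E j ∈ M) (h2 : E i + E w ∈ M) (h3 : E j + E w ∈ M) :
    False := by
  have hw := h.memS.2.2.2.2
  have h4 : T3 i j w ∈ up S M := mem_up.2 ⟨w, hw, by rw [T3_sub3]; exact h1⟩
  obtain ⟨k, hk, hk'⟩ := mem_up.1 (h.covered h4)
  have hki : k ≠ i := by
    rintro rfl
    rw [T3_sub1] at hk'
    exact h.notMem_of_P hk' h3
  have hkj : k ≠ j := by
    rintro rfl
    rw [T3_sub2] at hk'
    exact h.notMem_of_P hk' h2
  have hkw : k ≠ w := by
    rintro rfl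
    rw [T3_sub3] at hk'
    exact h.notMem_of_P hk' h1
  have h5 : (T3 i j w - E k) k < 0 := by
    simp [hki, hkj, hkw]
  have h6 := (h.negP hk' h5).2.2.2 i hi hiw
  simp [hij, hiw, hki.symm] at h6

theorem one_of (h : Cfg S P M a b c e w) {X : Finset (ι → ℤ)} (hX : X ⊆ cost S P M)
    (hXw : ∀ x ∈ X, 1 ≤ x w) (hXc : 4 ≤ X.card) (hXn : ∀ x ∈ X, ∃ s, x s < 0) :
    E a + E w ∈ M ∨ E b + E w ∈ M := by
  obtain ⟨ha, hb, hc, he, hw⟩ := h.memS
  by_contra hcon
  push Not at hcon
  have h1 : T3 a a w ∈ cost S P M := by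
    by_contra h'
    exact hcon.1 (h.jw_mem ha h.haw h')
  have h2 : T3 b b w ∈ cost S P M := by
    by_contra h'
    exact hcon.2 (h.jw_mem hb h.hbw h')
  have hne : T3 a a w ≠ T3 b b w := by
    intro h'
    have := congrFun h' a
    simp [h.hab, h.haw] at this
  have hT : ∀ i j l : ι, T3 i j l ∉ X := by
    intro i j l hx
    obtain ⟨s, hs⟩ := hXn _ hx
    have : 0 ≤ T3 i j l s := by
      simp only [T3, E, Pi.add_apply, Pi.single_apply]
      split_ifs <;> norm_num
    omega
  have h3 := h.plus_le hw (X := insert (T3 a a w) (insert (T3 b b w) X))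
    (insert_subset h1 (insert_subset h2 hX)) (by
      intro y hy
      rw [mem_insert, mem_insert] at hy
      rcases hy with rfl | rfl | hy
      · simp [h.haw.symm]
      · simp [h.hbw.symm]
      · exact hXw y hy)
  rw [card_insert_of_notMem, card_insert_of_notMem (hT _ _ _)] at h3
  · omega
  · rw [mem_insert]
    push Not
    exact ⟨hne, hT _ _ _⟩

theorem Pnn (h : Cfg S P M a b c e w) : ∀ p ∈ P, ∀ j, 0 ≤ p j := by
  intro p hp s
  by_contra hs
  push Not at hs
  obtain ⟨hsS, hsw, h1, h2⟩ := h.negP hp hs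
  have hX : (S.erase s).image (fun k => p + E k) ⊆ cost S P M := by
    intro x hx
    rw [mem_image] at hx
    obtain ⟨k, hk, rfl⟩ := hx
    exact (h1 k (mem_of_mem_erase hk) (ne_of_mem_erase hk)).1
  have hXw : ∀ x ∈ (S.erase s).image (fun k => p + E k), 1 ≤ x w := by
    intro x hx
    rw [mem_image] at hx
    obtain ⟨k, hk, rfl⟩ := hx
    exact (h1 k (mem_of_mem_erase hk) (ne_of_mem_erase hk)).2
  have hXc : 4 ≤ ((S.erase s).image (fun k => p + E k)).card := by
    rw [star_card, Finset.card_erase_of_mem hsS, h.card]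
  have hXn : ∀ x ∈ (S.erase s).image (fun k => p + E k), ∃ s, x s < 0 := by
    intro x hx
    rw [mem_image] at hx
    obtain ⟨k, hk, rfl⟩ := hx
    refine ⟨s, ?_⟩
    simp [(ne_of_mem_erase hk).symm]
    exact hs
  obtain ⟨ha, hb, hc, he, hw⟩ := h.memS
  rcases h.one_of hX hXw hXc hXn with h3 | h3 <;>
    rcases h.swap2.one_of hX hXw hXc hXn with h4 | h4
  · exact h.no_tri ha hc h.haw h.hcw h.hac h.Mac h3 h4
  · exact h.no_tri ha he h.haw h.hew h.hae h.Mae h3 h4
  · exact h.no_tri hb hc h.hbw h.hcw h.hbc h.Mbc h3 h4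
  · exact h.no_tri hb he h.hbw h.hew h.hbe h.Mbe h3 h4

theorem wwM (h : Cfg S P M a b c e w) : E w + E w ∉ M := by
  intro hm
  have h1 : T3 w w w ∈ up S M := mem_up.2 ⟨w, h.memS.2.2.2.2, by rw [T3_sub3]; exact hm⟩
  rcases T3_mem_up_nn h.Pnn (h.covered h1) with h2 | h2 | h2 <;> exact h.notMem_of_P h2 hm

theorem awP (h : Cfg S P M a b c e w) (haM : E a + E w ∉ M) (hbM : E b + E w ∉ M) :
    E a + E w ∉ P := by
  intro hP
  obtain ⟨ha, hb, hc, he, hw⟩ := h.memS
  have h1 : T3 a a w ∈ cost S P M :=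
    h.T3_mem_cost ha ha hw (Or.inl hP) haM haM (h.notMem_of_P h.Paa)
  have h2 : T3 a b w ∈ cost S P M :=
    h.T3_mem_cost ha hb hw (Or.inr (Or.inl hP)) hbM haM (h.notMem_of_P h.Pab)
  have h3 : T3 a w w ∈ cost S P M :=
    h.T3_mem_cost ha hw hw (Or.inr (Or.inl hP)) h.wwM haM haM
  have h4 := h.aw_le (X := {T3 a a w, T3 a b w, T3 a w w}) (by
    intro x hx
    simp only [mem_insert, mem_singleton] at hx
    rcases hx with rfl | rfl | rfl
    · exact h1
    · exact h2
    · exact h3) (by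
    intro x hx
    simp only [mem_insert, mem_singleton] at hx
    rcases hx with rfl | rfl | rfl <;> simp [h.haw.symm, h.hbw.symm]) (by
    intro x hx
    simp only [mem_insert, mem_singleton] at hx
    rcases hx with rfl | rfl | rfl <;> simp [h.haw, h.hab])
  have h5 : ({10002, 10011, 20001} : Finset ℤ) ⊆
      ({T3 a a w, T3 a b w, T3 a w w} : Finset (ι → ℤ)).image (ph a b c e w) := by
    intro x hx
    simp only [mem_insert, mem_singleton] at hx
    rw [mem_image]
    rcases hx with rfl | rfl | rfl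
    · exact ⟨T3 a a w, by simp, by rw [ph_add, ph_add, h.ph_a, h.ph_w]; norm_num⟩
    · exact ⟨T3 a b w, by simp, by rw [ph_add, ph_add, h.ph_a, h.ph_b, h.ph_w]; norm_num⟩
    · exact ⟨T3 a w w, by simp, by rw [ph_add, ph_add, h.ph_a, h.ph_w]; norm_num⟩
  have h6 : 3 ≤ ({T3 a a w, T3 a b w, T3 a w w} : Finset (ι → ℤ)).card :=
    (Finset.card_le_card h5).trans Finset.card_image_le
  omega

theorem final (h : Cfg S P M a b c e w) (haM : E a + E w ∉ M) (hbM : E b + E w ∉ M) : False := by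
  obtain ⟨ha, hb, hc, he, hw⟩ := h.memS
  have haP := h.awP haM hbM
  have hbP := h.swap1.awP hbM haM
  have hcP : E c + E w ∈ P := by
    have h1 : T3 a c w ∈ up S M := mem_up.2 ⟨w, hw, by rw [T3_sub3]; exact h.Mac⟩
    rcases T3_mem_up_nn h.Pnn (h.covered h1) with h2 | h2 | h2
    · exact h2
    · exact absurd h2 haP
    · exact absurd h.Mac (h.notMem_of_P h2)
  have heP : E e + E w ∈ P := by
    have h1 : T3 a e w ∈ up S M := mem_up.2 ⟨w, hw, by rw [T3_sub3]; exact h.Mae⟩
    rcases T3_mem_up_nn h.Pnn (h.covered h1) with h2 | h2 | h2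
    · exact h2
    · exact absurd h2 haP
    · exact absurd h.Mae (h.notMem_of_P h2)
  have h1 : T3 a a w ∈ cost S P M :=
    h.T3_mem_cost ha ha hw (Or.inr (Or.inr h.Paa)) haM haM (h.notMem_of_P h.Paa)
  have h2 : T3 a b w ∈ cost S P M :=
    h.T3_mem_cost ha hb hw (Or.inr (Or.inr h.Pab)) hbM haM (h.notMem_of_P h.Pab)
  have h3 : T3 b b w ∈ cost S P M :=
    h.T3_mem_cost hb hb hw (Or.inr (Or.inr h.Pbb)) hbM hbM (h.notMem_of_P h.Pbb)
  have h4 : T3 c c w ∈ cost S P M :=
    h.T3_mem_cost hc hc hw (Or.inl hcP) (h.notMem_of_P hcP) (h.notMem_of_P hcP)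
      (h.notMem_of_P h.Pcc)
  have h5 : T3 c e w ∈ cost S P M :=
    h.T3_mem_cost hc he hw (Or.inl heP) (h.notMem_of_P heP) (h.notMem_of_P hcP)
      (h.notMem_of_P h.Pce)
  have h6 : T3 e e w ∈ cost S P M :=
    h.T3_mem_cost he he hw (Or.inl heP) (h.notMem_of_P heP) (h.notMem_of_P heP)
      (h.notMem_of_P h.Pee)
  have h7 := h.plus_le hw
    (X := {T3 a a w, T3 a b w, T3 b b w, T3 c c w, T3 c e w, T3 e e w}) (by
    intro x hx
    simp only [mem_insert, mem_singleton] at hx
    rcases hx with rfl | rfl | rfl | rfl | rfl | rfl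
    · exact h1
    · exact h2
    · exact h3
    · exact h4
    · exact h5
    · exact h6) (by
    intro x hx
    simp only [mem_insert, mem_singleton] at hx
    rcases hx with rfl | rfl | rfl | rfl | rfl | rfl <;>
      simp [h.haw.symm, h.hbw.symm, h.hcw.symm, h.hew.symm])
  have h8 : ({10002, 10011, 10020, 10200, 11100, 12000} : Finset ℤ) ⊆
      ({T3 a a w, T3 a b w, T3 b b w, T3 c c w, T3 c e w, T3 e e w} :
        Finset (ι → ℤ)).image (ph a b c e w) := by
    intro x hx
    simp only [mem_insert, mem_singleton] at hx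
    rw [mem_image]
    rcases hx with rfl | rfl | rfl | rfl | rfl | rfl
    · exact ⟨T3 a a w, by simp, by rw [ph_add, ph_add, h.ph_a, h.ph_w]; norm_num⟩
    · exact ⟨T3 a b w, by simp, by rw [ph_add, ph_add, h.ph_a, h.ph_b, h.ph_w]; norm_num⟩
    · exact ⟨T3 b b w, by simp, by rw [ph_add, ph_add, h.ph_b, h.ph_w]; norm_num⟩
    · exact ⟨T3 c c w, by simp, by rw [ph_add, ph_add, h.ph_c, h.ph_w]; norm_num⟩
    · exact ⟨T3 c e w, by simp, by rw [ph_add, ph_add, h.ph_c, h.ph_e, h.ph_w]; norm_num⟩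
    · exact ⟨T3 e e w, by simp, by rw [ph_add, ph_add, h.ph_e, h.ph_w]; norm_num⟩
  have h9 := (Finset.card_le_card h8).trans Finset.card_image_le
  have h10 : ({10002, 10011, 10020, 10200, 11100, 12000} : Finset ℤ).card = 6 := by decide
  omega

theorem absurdity (h : Cfg S P M a b c e w) : False := by
  obtain ⟨ha, hb, hc, he, hw⟩ := h.memS
  by_cases h1 : E a + E w ∈ M
  · apply h.swap2.final
    · exact fun h2 => h.no_tri ha hc h.haw h.hcw h.hac h.Mac h1 h2
    · exact fun h2 => h.no_tri ha he h.haw h.hew h.hae h.Mae h1 h2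
  by_cases h2 : E b + E w ∈ M
  · apply h.swap2.final
    · exact fun h3 => h.no_tri hb hc h.hbw h.hcw h.hbc h.Mbc h2 h3
    · exact fun h3 => h.no_tri hb he h.hbw h.hew h.hbe h.Mbe h2 h3
  exact h.final h1 h2

end Cfg

theorem card_LL4 {a b c e : ι} (hab : a ≠ b) (hac : a ≠ c) (hae : a ≠ e) (hbc : b ≠ c)
    (hbe : b ≠ e) (hce : c ≠ e) : 8 ≤ (Cfg.LL a b c e).card := by
  set ps : (ι → ℤ) → ℤ := fun x => x a + 10 * x b + 100 * x c + 1000 * x e with hps
  have hadd : ∀ x y, ps (x + y) = ps x + ps y := by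
    intro x y
    simp only [hps, Pi.add_apply]; ring
  have pa : ps (E a) = 1 := by
    simp [hps, E, hab.symm, hac.symm, hae.symm]
  have pb : ps (E b) = 10 := by
    simp [hps, E, hab, hbc.symm, hbe.symm]
  have pc : ps (E c) = 100 := by
    simp [hps, E, hac, hbc, hce.symm]
  have pe : ps (E e) = 1000 := by
    simp [hps, E, hae, hbe, hce]
  have h1 : ({3, 12, 21, 30, 300, 1200, 2100, 3000} : Finset ℤ) ⊆
      (Cfg.LL a b c e).image ps := by
    intro x hx
    simp only [mem_insert, mem_singleton] at hx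
    rw [mem_image]
    rcases hx with rfl | rfl | rfl | rfl | rfl | rfl | rfl | rfl
    · exact ⟨T3 a a a, by simp [Cfg.LL], by rw [hadd, hadd, pa]; norm_num⟩
    · exact ⟨T3 a a b, by simp [Cfg.LL], by rw [hadd, hadd, pa, pb]; norm_num⟩
    · exact ⟨T3 a b b, by simp [Cfg.LL], by rw [hadd, hadd, pa, pb]; norm_num⟩
    · exact ⟨T3 b b b, by simp [Cfg.LL], by rw [hadd, hadd, pb]; norm_num⟩
    · exact ⟨T3 c c c, by simp [Cfg.LL], by rw [hadd, hadd, pc]; norm_num⟩
    · exact ⟨T3 c c e, by simp [Cfg.LL], by rw [hadd, hadd, pc, pe]; norm_num⟩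
    · exact ⟨T3 c e e, by simp [Cfg.LL], by rw [hadd, hadd, pc, pe]; norm_num⟩
    · exact ⟨T3 e e e, by simp [Cfg.LL], by rw [hadd, hadd, pe]; norm_num⟩
  exact (Finset.card_le_card h1).trans Finset.card_image_le

theorem base5 {S : Finset ι} (hS : S.card = 5) {d : ℤ} {P M : Finset (ι → ℤ)}
    (h : Pat S d P M) {w : ι} (hw : w ∈ S) (hN : (cost S P M).card ≤ 13)
    (hs : ∀ i ∈ S, 8 ≤ ((cost S P M).filter (fun c => c i ≤ 0)).card)
    (hw8 : ((cost S P M).filter (fun c => c w ≤ 0)).card ≤ 8) {μ : ι → ℤ}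
    (hμ : ∀ j, j ∉ S.erase w → μ j = 0)
    (hK : IsK22 (S.erase w) μ (P.filter (fun p => p w = 0)) (M.filter (fun m => m w = 0))) :
    False := by
  obtain ⟨a, b, c, e, hSe, hab, hac, hae, hbc, hbe, hce, hM, haa, hbb', hbb, hcc, hce', hee⟩ := hK
  have hmem : ∀ k, k ∈ S ↔ k = a ∨ k = b ∨ k = c ∨ k = e ∨ k = w := by
    intro k
    have h1 : k ∈ S.erase w ↔ k ∈ ({a, b, c, e} : Finset ι) := by rw [hSe]
    simp only [mem_erase, mem_insert, mem_singleton] at h1
    constructor
    · intro hk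
      by_cases hkw : k = w
      · simp [hkw]
      · rcases h1.1 ⟨hkw, hk⟩ with h2 | h2 | h2 | h2 <;> simp [h2]
    · rintro (h2 | h2 | h2 | h2 | h2)
      · exact (h1.2 (Or.inl h2)).2
      · exact (h1.2 (Or.inr (Or.inl h2))).2
      · exact (h1.2 (Or.inr (Or.inr (Or.inl h2)))).2
      · exact (h1.2 (Or.inr (Or.inr (Or.inr h2)))).2
      · rw [h2]; exact hw
  have haw : a ≠ w := by
    have : a ∈ S.erase w := by rw [hSe]; simp
    exact ne_of_mem_erase this
  have hbw : b ≠ w := by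
    have : b ∈ S.erase w := by rw [hSe]; simp
    exact ne_of_mem_erase this
  have hcw : c ≠ w := by
    have : c ∈ S.erase w := by rw [hSe]; simp
    exact ne_of_mem_erase this
  have hew : e ≠ w := by
    have : e ∈ S.erase w := by rw [hSe]; simp
    exact ne_of_mem_erase this
  have ha : a ∈ S := (hmem a).2 (by simp)
  have hb : b ∈ S := (hmem b).2 (by simp)
  have hc : c ∈ S := (hmem c).2 (by simp)
  have he : e ∈ S := (hmem e).2 (by simp)
  have hμw : μ w = 0 := hμ w (by simp)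
  have hMm : ∀ m, m ∈ M → m w = 0 → m = μ + E a + E c ∨ m = μ + E a + E e ∨
      m = μ + E b + E c ∨ m = μ + E b + E e := by
    intro m hm hmw
    have h1 : m ∈ M.filter (fun m => m w = 0) := by rw [mem_filter]; exact ⟨hm, hmw⟩
    rw [hM] at h1
    simpa using h1
  have hMi : ∀ m, (m = μ + E a + E c ∨ m = μ + E a + E e ∨
      m = μ + E b + E c ∨ m = μ + E b + E e) → m ∈ M := by
    intro m hm
    have h1 : m ∈ M.filter (fun m => m w = 0) := by rw [hM]; simpa using hm
    exact (mem_filter.1 h1).1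
  have hac0 := h.nonneg _ (hMi (μ + E a + E c) (by simp))
  have hae0 := h.nonneg _ (hMi (μ + E a + E e) (by simp))
  have hbc0 := h.nonneg _ (hMi (μ + E b + E c) (by simp))
  have hbe0 := h.nonneg _ (hMi (μ + E b + E e) (by simp))
  have hμa : 0 ≤ μ a := by
    have := hbc0 a
    simpa [hab, hac] using this
  have hμb : 0 ≤ μ b := by
    have := hac0 b
    simpa [hab.symm, hbc] using this
  have hμc : 0 ≤ μ c := by
    have := hae0 c
    simpa [hac.symm, hce] using this
  have hμe : 0 ≤ μ e := by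
    have := hac0 e
    simpa [hae.symm, hce.symm] using this
  -- the eight cubes
  have hsink : ∀ x, x ∈ up S P → x w = 0 →
      (x c + x e ≤ μ c + μ e ∨ x a + x b ≤ μ a + μ b) → x ∈ cost S P M := by
    intro x hx hxw hx2
    unfold cost sinks
    rw [mem_union, mem_sdiff]
    left
    refine ⟨hx, fun hm => ?_⟩
    obtain ⟨k, hk, hkM⟩ := mem_up.1 hm
    have h1 := h.nonneg _ hkM w
    have hkw : k ≠ w := by
      rintro rfl
      simp at h1
      omega
    have h2 : (x - E k) w = 0 := by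
      simp [hkw.symm, hxw]
    have hEk : ∀ j, 0 ≤ E k j := by
      intro j
      simp only [E, Pi.single_apply]; split_ifs <;> norm_num
    have h3 := hMm _ hkM h2
    have ea := hEk a
    have eb := hEk b
    have ec := hEk c
    have ee := hEk e
    have key : ∀ j, x j = (x - E k) j + E k j := by intro j; simp
    have ka := key a
    have kb := key b
    have kc := key c
    have ke := key e
    rcases h3 with h3 | h3 | h3 | h3 <;> rw [h3] at ka kb kc ke <;>
      simp only [Pi.add_apply, E, Pi.single_eq_same, Pi.single_eq_of_ne hab,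
        Pi.single_eq_of_ne hac, Pi.single_eq_of_ne hae, Pi.single_eq_of_ne hbc,
        Pi.single_eq_of_ne hbe, Pi.single_eq_of_ne hce, Pi.single_eq_of_ne hab.symm,
        Pi.single_eq_of_ne hac.symm, Pi.single_eq_of_ne hae.symm, Pi.single_eq_of_ne hbc.symm,
        Pi.single_eq_of_ne hbe.symm, Pi.single_eq_of_ne hce.symm] at ka kb kc ke ea eb ec ee <;>
      rcases hx2 with hx2 | hx2 <;> omega
  have hPm : ∀ p, p ∈ P.filter (fun p => p w = 0) → p ∈ P := fun p hp => (mem_filter.1 hp).1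
  have hup : ∀ {p : ι → ℤ} (k : ι), p ∈ P.filter (fun p => p w = 0) → k ∈ S →
      p + E k ∈ up S P := fun k hp hk => add_mem_up (hPm _ hp) hk
  have hLL : (Cfg.LL a b c e).image (fun x => μ + x) ⊆
      (cost S P M).filter (fun c => c w ≤ 0) := by
    intro y hy
    rw [mem_image] at hy
    obtain ⟨x, hx, rfl⟩ := hy
    rw [mem_filter]
    simp only [Cfg.LL, mem_insert, mem_singleton] at hx
    rcases hx with rfl | rfl | rfl | rfl | rfl | rfl | rfl | rfl
    · refine ⟨hsink _ ?_ ?_ ?_, ?_⟩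
      · have := hup a haa ha
        rwa [show μ + T3 a a a = μ + E a + E a + E a by simp only [T3]; abel]
      · simp [haw.symm, hμw]
      · left; simp [hac.symm, hae.symm]
      · simp [haw.symm, hμw]
    · refine ⟨hsink _ ?_ ?_ ?_, ?_⟩
      · have := hup b haa hb
        rwa [show μ + T3 a a b = μ + E a + E a + E b by simp only [T3]; abel]
      · simp [haw.symm, hbw.symm, hμw]
      · left; simp [hac.symm, hae.symm, hbc.symm, hbe.symm]
      · simp [haw.symm, hbw.symm, hμw]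
    · refine ⟨hsink _ ?_ ?_ ?_, ?_⟩
      · have := hup b hbb' hb
        rwa [show μ + T3 a b b = μ + E a + E b + E b by simp only [T3]; abel]
      · simp [haw.symm, hbw.symm, hμw]
      · left; simp [hac.symm, hae.symm, hbc.symm, hbe.symm]
      · simp [haw.symm, hbw.symm, hμw]
    · refine ⟨hsink _ ?_ ?_ ?_, ?_⟩
      · have := hup b hbb hb
        rwa [show μ + T3 b b b = μ + E b + E b + E b by simp only [T3]; abel]
      · simp [hbw.symm, hμw]
      · left; simp [hbc.symm, hbe.symm]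
      · simp [hbw.symm, hμw]
    · refine ⟨hsink _ ?_ ?_ ?_, ?_⟩
      · have := hup c hcc hc
        rwa [show μ + T3 c c c = μ + E c + E c + E c by simp only [T3]; abel]
      · simp [hcw.symm, hμw]
      · right; simp [hac, hbc]
      · simp [hcw.symm, hμw]
    · refine ⟨hsink _ ?_ ?_ ?_, ?_⟩
      · have := hup e hcc he
        rwa [show μ + T3 c c e = μ + E c + E c + E e by simp only [T3]; abel]
      · simp [hcw.symm, hew.symm, hμw]
      · right; simp [hac, hbc, hae, hbe]
      · simp [hcw.symm, hew.symm, hμw]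
    · refine ⟨hsink _ ?_ ?_ ?_, ?_⟩
      · have := hup e hce' he
        rwa [show μ + T3 c e e = μ + E c + E e + E e by simp only [T3]; abel]
      · simp [hcw.symm, hew.symm, hμw]
      · right; simp [hac, hbc, hae, hbe]
      · simp [hcw.symm, hew.symm, hμw]
    · refine ⟨hsink _ ?_ ?_ ?_, ?_⟩
      · have := hup e hee he
        rwa [show μ + T3 e e e = μ + E e + E e + E e by simp only [T3]; abel]
      · simp [hew.symm, hμw]
      · right; simp [hae, hbe]
      · simp [hew.symm, hμw]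
  have hLLc : 8 ≤ ((Cfg.LL a b c e).image (fun x => μ + x)).card := by
    rw [Finset.card_image_of_injective _ (add_right_injective μ)]
    exact card_LL4 hab hac hae hbc hbe hce
  have hμle : ∀ i ∈ S, i ≠ w → μ i ≤ 0 := by
    intro i hi hiw
    by_contra hcon
    have hpos : ∀ y ∈ (Cfg.LL a b c e).image (fun x => μ + x), 1 ≤ y i := by
      intro y hy
      rw [mem_image] at hy
      obtain ⟨x, hx, rfl⟩ := hy
      have hxi : 0 ≤ x i := by
        simp only [Cfg.LL, mem_insert, mem_singleton] at hx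
        rcases hx with rfl | rfl | rfl | rfl | rfl | rfl | rfl | rfl <;>
          simp only [T3, E, Pi.add_apply, Pi.single_apply] <;> split_ifs <;> norm_num
      simp only [Pi.add_apply]
      omega
    have h1 : Disjoint ((Cfg.LL a b c e).image (fun x => μ + x))
        ((cost S P M).filter (fun c => c i ≤ 0)) := by
      rw [Finset.disjoint_left]
      intro y hy hy'
      rw [mem_filter] at hy'
      have := hpos y hy
      omega
    have h2 : (Cfg.LL a b c e).image (fun x => μ + x) ∪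
        (cost S P M).filter (fun c => c i ≤ 0) ⊆ cost S P M :=
      union_subset (hLL.trans (filter_subset _ _)) (filter_subset _ _)
    have h3 := Finset.card_le_card h2
    rw [Finset.card_union_of_disjoint h1] at h3
    have h4 := hs i hi
    omega
  have hμ0 : μ = 0 := by
    funext j
    by_cases hj : j ∈ S.erase w
    · have h1 := hμle j (mem_of_mem_erase hj) (ne_of_mem_erase hj)
      have h2 : 0 ≤ μ j := by
        rw [hSe] at hj
        simp only [mem_insert, mem_singleton] at hj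
        rcases hj with rfl | rfl | rfl | rfl <;> assumption
      simp only [Pi.zero_apply]
      omega
    · exact hμ j hj
  subst hμ0
  simp only [zero_add] at hMi haa hbb' hbb hcc hce' hee
  have hd : d = 2 := by
    have h1 := h.degM _ (hMi (E a + E c) (by simp))
    simp only [Pi.add_apply, Finset.sum_add_distrib] at h1
    have h2 := Cfg.sum_E S ha
    have h3 := Cfg.sum_E S hc
    rw [h2, h3] at h1
    linarith
  subst hd
  have hcfg : Cfg S P M a b c e w := {
    mem := hmem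
    card := hS
    hab := hab
    hac := hac
    hae := hae
    haw := haw
    hbc := hbc
    hbe := hbe
    hbw := hbw
    hce := hce
    hcw := hcw
    hew := hew
    Mac := hMi _ (by simp)
    Mae := hMi _ (by simp)
    Mbc := hMi _ (by simp)
    Mbe := hMi _ (by simp)
    Paa := hPm _ haa
    Pab := hPm _ hbb'
    Pbb := hPm _ hbb
    Pcc := hPm _ hcc
    Pce := hPm _ hce'
    Pee := hPm _ hee
    Mnn := h.nonneg
    flatP := h.flatP
    disj := h.disj
    priv := fun p hp => by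
      obtain ⟨k, hk, hk', -⟩ := h.priv p hp
      exact ⟨k, hk, hk'⟩
    degP := h.degP
    degM := h.degM
    hN := hN
    hs := hs
    hw8 := hw8 }
  exact hcfg.absurdity

end SignPat
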