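import Pool.Agent.Work.MP_39acf6_an.H80Defs

/-!
# The base case n = 3 (MP_39acf6_an, lower bound)
-/

set_option autoImplicit false
set_option linter.unusedSectionVars false
set_option linter.unusedSimpArgs false

namespace SignPat

namespace B3

open Finset

variable {ι : Type*} [Fintype ι] [DecidableEq ι]

/-- the alternating sign rule in direction `i` -/
def Sg (d : ℤ) (i : ι) (P M : Finset (ι → ℤ)) (x : ι → ℤ) : Prop :=
  (Even (d - x i) → x ∈ P) ∧ (Odd (d - x i) → x ∈ M)

lemma coord_i {x : ι → ℤ} {i l : ι} (h : l ≠ i) : (x + E i - E l) i = x i + 1 := by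
  simp [Pi.single_apply, Ne.symm h]

lemma step {S : Finset ι} {d : ℤ} {P M : Finset (ι → ℤ)} (hdisj : Disjoint P M)
    (hQ : up S M ⊆ up S P) {i : ι} {x : ι → ℤ}
    (hns : x + E i ∉ sinks S P M)
    (h1 : ∃ l ∈ S, l ≠ i ∧ Sg d i P M (x + E i - E l))
    (h2 : ∀ l ∈ S, l ≠ i → (x + E i - E l ∈ P ∨ x + E i - E l ∈ M) →
      Sg d i P M (x + E i - E l)) :
    Sg d i P M x := by
  obtain ⟨l, hl, hli, hSg⟩ := h1
  have hci := coord_i (x := x) hli
  constructor
  · intro he
    have hodd : Odd (d - (x + E i - E l) i) := by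
      rw [hci]
      have := he.sub_odd (odd_one)
      rw [show d - (x i + 1) = d - x i - 1 by ring]
      exact this
    have hM := hSg.2 hodd
    have hup : x + E i ∈ up S P := hQ (mem_up.2 ⟨l, hl, hM⟩)
    obtain ⟨l', hl', hP⟩ := mem_up.1 hup
    by_cases hl'i : l' = i
    · subst hl'i
      simpa using hP
    · exfalso
      have h3 := (h2 l' hl' hl'i (Or.inl hP)).2 (by
        rw [coord_i hl'i]; rw [hci] at hodd; exact hodd)
      exact Finset.disjoint_left.1 hdisj hP h3
  · intro ho
    have heven : Even (d - (x + E i - E l) i) := by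
      rw [hci]
      have := ho.sub_odd (odd_one)
      rw [show d - (x i + 1) = d - x i - 1 by ring]
      exact this
    have hP := hSg.1 heven
    have hup : x + E i ∈ up S P := mem_up.2 ⟨l, hl, hP⟩
    have hup2 : x + E i ∈ up S M := by
      by_contra hcon
      exact hns (Finset.mem_sdiff.2 ⟨hup, hcon⟩)
    obtain ⟨l', hl', hM⟩ := mem_up.1 hup2
    by_cases hl'i : l' = i
    · subst hl'i
      simpa using hM
    · exfalso
      have h3 := (h2 l' hl' hl'i (Or.inr hM)).1 (by
        rw [coord_i hl'i]; rw [hci] at heven; exact heven)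
      exact Finset.disjoint_left.1 hdisj h3 hM

lemma sum_E {S : Finset ι} {l : ι} (hl : l ∈ S) : ∑ k ∈ S, (E l : ι → ℤ) k = 1 := by
  simp [Pi.single_apply, hl]

lemma sum_add_E {S : Finset ι} {i : ι} (hi : i ∈ S) (x : ι → ℤ) :
    ∑ k ∈ S, (x + E i) k = ∑ k ∈ S, x k + 1 := by
  simp only [Pi.add_apply, Finset.sum_add_distrib, sum_E hi]

lemma sum_sub_E {S : Finset ι} {i : ι} (hi : i ∈ S) (x : ι → ℤ) :
    ∑ k ∈ S, (x - E i) k = ∑ k ∈ S, x k - 1 := by
  simp only [Pi.sub_apply, Finset.sum_sub_distrib, sum_E hi]

lemma eq_single {S : Finset ι} {i : ι} (hi : i ∈ S) {d : ℤ} {x : ι → ℤ} (hx : ∀ j, 0 ≤ x j)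
    (hf : ∀ j, j ∉ S → x j = 0) (hsum : ∑ k ∈ S, x k = d) (hxi : d ≤ x i) :
    x = Pi.single i d := by
  have h1 : x i + ∑ k ∈ S.erase i, x k = d := by
    rw [Finset.add_sum_erase _ _ hi, hsum]
  have h2 : 0 ≤ ∑ k ∈ S.erase i, x k := Finset.sum_nonneg (fun k _ => hx k)
  have h3 : ∑ k ∈ S.erase i, x k = 0 := by linarith
  have h4 := (Finset.sum_eq_zero_iff_of_nonneg (fun k _ => hx k)).1 h3
  funext l
  by_cases hl : l = i
  · subst hl
    simp only [Pi.single_eq_same]
    linarith
  · rw [Pi.single_eq_of_ne hl]
    by_cases hlS : l ∈ S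
    · exact h4 l (Finset.mem_erase.2 ⟨hl, hlS⟩)
    · exact hf l hlS

lemma exists_pos {S : Finset ι} {i : ι} (hi : i ∈ S) {d : ℤ} {x : ι → ℤ}
    (hx : ∀ j, 0 ≤ x j) (hsum : ∑ k ∈ S, x k = d) (hxi : x i < d) :
    ∃ l ∈ S, l ≠ i ∧ 1 ≤ x l := by
  by_contra hcon
  push Not at hcon
  have h1 : x i + ∑ k ∈ S.erase i, x k = d := by
    rw [Finset.add_sum_erase _ _ hi, hsum]
  have h2 : ∑ k ∈ S.erase i, x k ≤ 0 := by
    apply Finset.sum_nonpos
    intro k hk
    rw [Finset.mem_erase] at hk
    have := hcon k hk.2 hk.1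
    omega
  linarith

/-- propagation from the corner `i` on the face `S'` down to level `t` -/
lemma prop {S S' : Finset ι} (hSS : S' ⊆ S) {i : ι} (hi : i ∈ S') {d t : ℤ}
    {P M : Finset (ι → ℤ)} (hdisj : Disjoint P M) (hQ : up S M ⊆ up S P)
    (hP : ∀ p ∈ P, ∀ j, 0 ≤ p j) (hM : ∀ m ∈ M, ∀ j, 0 ≤ m j)
    (hdi : (Pi.single i d : ι → ℤ) ∈ P)
    (hns : ∀ β : ι → ℤ, (∀ j, 0 ≤ β j) → (∀ j, j ∉ S' → β j = 0) → ∑ k ∈ S, β k = d + 1 →
      t < β i → β i ≤ d → β ∉ sinks S P M) :
    ∀ n : ℕ, ∀ x : ι → ℤ, (∀ j, 0 ≤ x j) → (∀ j, j ∉ S' → x j = 0) → ∑ k ∈ S, x k = d →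
      t ≤ x i → x i + n = d → Sg d i P M x := by
  intro n
  induction n with
  | zero =>
    intro x hx hf hsum ht hn
    have hxi : d ≤ x i := by push_cast at hn; linarith
    have hxs : x = Pi.single i d :=
      eq_single (hSS hi) hx (fun j hj => hf j (fun h => hj (hSS h))) hsum hxi
    constructor
    · intro _; rw [hxs]; exact hdi
    · intro ho
      exfalso
      rw [hxs] at ho
      simp at ho
  | succ n ih =>
    intro x hx hf hsum ht hn
    push_cast at hn
    have hxi : x i < d := by linarith [Int.natCast_nonneg n]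
    have hiS : i ∈ S := hSS hi
    -- a general fact on the predecessors
    have gen : ∀ l ∈ S, l ≠ i → 1 ≤ x l → Sg d i P M (x + E i - E l) := by
      intro l hl hli hxl
      have hlS' : l ∈ S' := by
        by_contra h
        have := hf l h
        omega
      apply ih
      · intro j
        simp only [Pi.add_apply, Pi.sub_apply, Pi.single_apply]
        have := hx j
        by_cases hjl : j = l
        · subst hjl
          rw [if_neg hli, if_pos rfl]; omega
        · rw [if_neg hjl]
          split_ifs <;> omega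
      · intro j hj
        have hji : j ≠ i := fun h => hj (h ▸ hi)
        have hjl : j ≠ l := fun h => hj (h ▸ hlS')
        simp [Pi.single_apply, hji, hjl, hf j hj]
      · rw [sum_sub_E hl, sum_add_E hiS, hsum]; ring
      · rw [coord_i hli]; linarith
      · rw [coord_i hli]; linarith
    apply step hdisj hQ
    · apply hns
      · intro j
        simp only [Pi.add_apply, Pi.single_apply]
        have := hx j
        split_ifs <;> omega
      · intro j hj
        have hji : j ≠ i := fun h => hj (h ▸ hi)
        simp [Pi.single_apply, hji, hf j hj]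
      · rw [sum_add_E hiS, hsum]
      · simp; linarith
      · simp; linarith
    · obtain ⟨l, hl, hli, hxl⟩ := exists_pos hiS hx hsum hxi
      exact ⟨l, hl, hli, gen l hl hli hxl⟩
    · intro l hl hli hPM
      apply gen l hl hli
      have hnn : 0 ≤ (x + E i - E l) l := by
        rcases hPM with h | h
        · exact hP _ h l
        · exact hM _ h l
      have : (x + E i - E l) l = x l - 1 := by
        simp [Pi.single_apply, hli]
      omega

/-- elements of the sink set are nonnegative, flat and of degree `d + 1` -/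
lemma sink_nonneg {S : Finset ι} {P M : Finset (ι → ℤ)} (hP : ∀ p ∈ P, ∀ j, 0 ≤ p j)
    {c : ι → ℤ} (hc : c ∈ sinks S P M) (j : ι) : 0 ≤ c j := by
  obtain ⟨k, _, hk⟩ := mem_up.1 (Finset.mem_sdiff.1 hc).1
  have := hP _ hk j
  simp only [Pi.sub_apply, Pi.single_apply] at this
  split_ifs at this <;> omega

lemma sink_sum {S : Finset ι} {d : ℤ} {P M : Finset (ι → ℤ)}
    (hP : ∀ x ∈ P, ∑ k ∈ S, x k = d) {c : ι → ℤ} (hc : c ∈ sinks S P M) :
    ∑ k ∈ S, c k = d + 1 := by
  obtain ⟨k, hkS, hk⟩ := mem_up.1 (Finset.mem_sdiff.1 hc).1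
  have := hP _ hk
  rw [sum_sub_E hkS] at this
  linarith

lemma sink_flat {S : Finset ι} {P M : Finset (ι → ℤ)}
    (hP : ∀ x ∈ P, ∀ j, j ∉ S → x j = 0) {c : ι → ℤ} (hc : c ∈ sinks S P M) {j : ι}
    (hj : j ∉ S) : c j = 0 := by
  obtain ⟨k, hkS, hk⟩ := mem_up.1 (Finset.mem_sdiff.1 hc).1
  have := hP _ hk j hj
  have hjk : j ≠ k := fun h => hj (h ▸ hkS)
  simpa [Pi.single_apply, hjk] using this

/-- a corner in the sink set comes from a corner in `P` -/
lemma corner_mem {S : Finset ι} {d : ℤ} {P M : Finset (ι → ℤ)} (hP : ∀ p ∈ P, ∀ j, 0 ≤ p j)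
    {i : ι} (hc : (Pi.single i (d + 1) : ι → ℤ) ∈ sinks S P M) :
    (Pi.single i d : ι → ℤ) ∈ P := by
  obtain ⟨l, _, hk⟩ := mem_up.1 (Finset.mem_sdiff.1 hc).1
  by_cases hli : l = i
  · subst hli
    have e : (Pi.single l (d + 1) - E l : ι → ℤ) = Pi.single l d := by
      funext j
      simp only [Pi.sub_apply, Pi.single_apply]
      split_ifs <;> ring
    rwa [e] at hk
  · exfalso
    have := hP _ hk l
    simp [Pi.single_apply, hli] at this

lemma le_of_sum {S : Finset ι} {i : ι} (hi : i ∈ S) {d : ℤ} {x : ι → ℤ} (hx : ∀ j, 0 ≤ x j)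
    (hsum : ∑ k ∈ S, x k = d) : x i ≤ d := by
  rw [← hsum]
  exact Finset.single_le_sum (fun k _ => hx k) hi

lemma prop' {S S' : Finset ι} (hSS : S' ⊆ S) {i : ι} (hi : i ∈ S') {d : ℤ} (t : ℤ)
    {P M : Finset (ι → ℤ)} (hdisj : Disjoint P M) (hQ : up S M ⊆ up S P)
    (hP : ∀ p ∈ P, ∀ j, 0 ≤ p j) (hM : ∀ m ∈ M, ∀ j, 0 ≤ m j)
    (hdi : (Pi.single i d : ι → ℤ) ∈ P)
    (hns : ∀ β : ι → ℤ, (∀ j, 0 ≤ β j) → (∀ j, j ∉ S' → β j = 0) → ∑ k ∈ S, β k = d + 1 →
      t < β i → β i ≤ d → β ∉ sinks S P M) {x : ι → ℤ} (hx : ∀ j, 0 ≤ x j)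
    (hf : ∀ j, j ∉ S' → x j = 0) (hsum : ∑ k ∈ S, x k = d) (ht : t ≤ x i) : Sg d i P M x := by
  have h1 := le_of_sum (hSS hi) hx hsum
  exact prop hSS hi hdisj hQ hP hM hdi hns (d - x i).toNat x hx hf hsum ht
    (by rw [Int.toNat_of_nonneg (by linarith)]; ring)

lemma single_nonneg {i : ι} {d : ℤ} (hd : 0 ≤ d) (j : ι) : 0 ≤ (Pi.single i d : ι → ℤ) j := by
  simp only [Pi.single_apply]; split_ifs <;> omega

/-- all three corners are sinks -/
lemma case3 {S : Finset ι} {d : ℤ} {P M : Finset (ι → ℤ)} (h : Pat S d P M) (hd : 1 ≤ d)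
    (hP : ∀ p ∈ P, ∀ j, 0 ≤ p j) (hQ : up S M ⊆ up S P)
    (hN : (sinks S P M).card ≤ 4) {i j k : ι} (hij : i ≠ j) (hik : i ≠ k) (hjk : j ≠ k)
    (hS : S = {i, j, k})
    (ci : ∀ a ∈ S, (Pi.single a (d + 1) : ι → ℤ) ∈ sinks S P M) : False := by
  have hiS : i ∈ S := by rw [hS]; simp
  have hjS : j ∈ S := by rw [hS]; simp
  have hkS : k ∈ S := by rw [hS]; simp
  -- uniqueness of the other sink
  have huniq : ∀ c ∈ sinks S P M, (∀ a ∈ S, c ≠ Pi.single a (d + 1)) →
      ∀ c' ∈ sinks S P M, (∀ a ∈ S, c' ≠ Pi.single a (d + 1)) → c = c' := by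
    intro c hc hc1 c' hc' hc1'
    by_contra hne
    have hsub : ({Pi.single i (d + 1), Pi.single j (d + 1), Pi.single k (d + 1), c, c'} :
        Finset (ι → ℤ)) ⊆ sinks S P M := by
      intro x hx
      simp only [Finset.mem_insert, Finset.mem_singleton] at hx
      rcases hx with rfl | rfl | rfl | rfl | rfl
      · exact ci i hiS
      · exact ci j hjS
      · exact ci k hkS
      · exact hc
      · exact hc'
    have hinj : ∀ a b : ι, a ≠ b → (Pi.single a (d + 1) : ι → ℤ) ≠ Pi.single b (d + 1) := by
      intro a b hab heq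
      have := congrFun heq a
      rw [Pi.single_eq_same, Pi.single_eq_of_ne hab] at this
      omega
    have hcard : ({Pi.single i (d + 1), Pi.single j (d + 1), Pi.single k (d + 1), c, c'} :
        Finset (ι → ℤ)).card = 5 := by
      rw [Finset.card_insert_of_notMem, Finset.card_insert_of_notMem,
        Finset.card_insert_of_notMem, Finset.card_insert_of_notMem, Finset.card_singleton]
      · simpa using hne
      · simp only [Finset.mem_insert, Finset.mem_singleton, not_or]
        exact ⟨(hc1 k hkS).symm, (hc1' k hkS).symm⟩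
      · simp only [Finset.mem_insert, Finset.mem_singleton, not_or]
        exact ⟨hinj j k hjk, (hc1 j hjS).symm, (hc1' j hjS).symm⟩
      · simp only [Finset.mem_insert, Finset.mem_singleton, not_or]
        exact ⟨hinj i j hij, hinj i k hik, (hc1 i hiS).symm, (hc1' i hiS).symm⟩
    have := Finset.card_le_card hsub
    omega
  -- every direction meets the other sink
  have hex : ∀ a ∈ S, ∃ c ∈ sinks S P M, (∀ b ∈ S, c ≠ Pi.single b (d + 1)) ∧ 1 ≤ c a := by
    intro a ha
    by_contra hcon
    push Not at hcon
    have hSg : ∀ x : ι → ℤ, (∀ j, 0 ≤ x j) → (∀ j, j ∉ S → x j = 0) → ∑ k ∈ S, x k = d →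
        Sg d a P M x := by
      intro x hx hf hsum
      apply prop' (Finset.Subset.refl S) ha 0 h.disj hQ hP h.nonneg (corner_mem hP (ci a ha))
        _ hx hf hsum (hx a)
      intro β hβ hfβ hsβ h1 h2 hβC
      by_cases hcor : ∃ b ∈ S, β = Pi.single b (d + 1)
      · obtain ⟨b, hb, rfl⟩ := hcor
        by_cases hba : a = b
        · subst hba
          rw [Pi.single_eq_same] at h2
          omega
        · rw [Pi.single_eq_of_ne hba] at h1
          omega
      · push Not at hcor
        have := hcon β hβC hcor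
        omega
    -- another corner
    obtain ⟨b, hb, hba⟩ : ∃ b ∈ S, b ≠ a := by
      by_cases hai : a = i
      · exact ⟨j, hjS, by rw [hai]; exact hij.symm⟩
      · exact ⟨i, hiS, fun h => hai h.symm⟩
    have hdb := corner_mem hP (ci b hb)
    have hSb := hSg (Pi.single b d) (single_nonneg (by omega)) (by
      intro l hl
      have : l ≠ b := fun h => hl (h ▸ hb)
      simp [Pi.single_apply, this]) (by simp [Pi.single_apply, hb])
    have hev : Even d := by
      by_contra hodd
      rw [Int.not_even_iff_odd] at hodd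
      have h3 := hSb.2 (by rw [Pi.single_eq_of_ne hba.symm]; simpa using hodd)
      exact Finset.disjoint_left.1 h.disj hdb h3
    obtain ⟨m, hm, hma⟩ := h.touch a ha
    have h4 := (hSg m (h.nonneg m hm) (h.flatM m hm) (h.degM m hm)).1 (by rw [hma]; simpa using hev)
    exact Finset.disjoint_left.1 h.disj h4 hm
  obtain ⟨c, hcC, hcn, hci⟩ := hex i hiS
  have hcj : 1 ≤ c j := by
    obtain ⟨c', hc'C, hc'n, hc'⟩ := hex j hjS
    rw [huniq c hcC hcn c' hc'C hc'n]; exact hc'
  have hck : 1 ≤ c k := by
    obtain ⟨c', hc'C, hc'n, hc'⟩ := hex k hkS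
    rw [huniq c hcC hcn c' hc'C hc'n]; exact hc'
  have hca : ∀ a ∈ S, 1 ≤ c a := by
    intro a ha
    rw [hS] at ha
    simp only [Finset.mem_insert, Finset.mem_singleton] at ha
    rcases ha with rfl | rfl | rfl
    · exact hci
    · exact hcj
    · exact hck
  have hev : ∀ a ∈ S, ∀ l ∈ S, l ≠ a → Even (d - c a) := by
    intro a ha l hl hla
    by_contra hodd
    rw [Int.not_even_iff_odd] at hodd
    have hxa : (c - E l) a = c a := by simp [Pi.single_apply, hla.symm]
    have hSg : Sg d a P M (c - E l) := by
      apply prop' (Finset.Subset.refl S) ha (c a) h.disj hQ hP h.nonneg (corner_mem hP (ci a ha))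
      · intro β hβ hfβ hsβ h1 h2 hβC
        by_cases hcor : ∃ b ∈ S, β = Pi.single b (d + 1)
        · obtain ⟨b, hb, rfl⟩ := hcor
          by_cases hba : a = b
          · subst hba
            rw [Pi.single_eq_same] at h2
            omega
          · rw [Pi.single_eq_of_ne hba] at h1
            have := hca a ha
            omega
        · push Not at hcor
          have := huniq β hβC hcor c hcC hcn
          rw [this] at h1
          omega
      · intro b
        have h5 := sink_nonneg hP hcC b
        simp only [Pi.sub_apply, Pi.single_apply]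
        split_ifs with hbl
        · have := hca l hl
          rw [hbl]; omega
        · omega
      · intro b hb
        have hbl : b ≠ l := fun h => hb (h ▸ hl)
        simp [Pi.single_apply, hbl, sink_flat h.flatP hcC hb]
      · rw [sum_sub_E hl, sink_sum h.degP hcC]; ring
      · rw [hxa]
    have hm := hSg.2 (by rw [hxa]; exact hodd)
    exact (Finset.mem_sdiff.1 hcC).2 (mem_up.2 ⟨l, hl, hm⟩)
  have e1 := hev i hiS j hjS hij.symm
  have e2 := hev j hjS i hiS hij
  have e3 := hev k hkS i hiS hik
  have hsum := sink_sum h.degP hcC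
  rw [hS, Finset.sum_insert (by simp [hij, hik]), Finset.sum_insert (by simp [hjk]),
    Finset.sum_singleton] at hsum
  rw [Int.even_iff] at e1 e2 e3
  omega

/-- exactly the corners `i`, `k` are sinks -/
lemma case2 {S : Finset ι} {d : ℤ} {P M : Finset (ι → ℤ)} (h : Pat S d P M) (hd : 1 ≤ d)
    (hP : ∀ p ∈ P, ∀ j, 0 ≤ p j) (hQ : up S M ⊆ up S P)
    (hs : ∀ i ∈ S, 2 ≤ ((sinks S P M).filter (fun c => c i ≤ 0)).card)
    (hN : (sinks S P M).card ≤ 4) {i j k : ι} (hij : i ≠ j) (hik : i ≠ k) (hjk : j ≠ k)
    (hS : S = {i, j, k})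
    (ci : (Pi.single i (d + 1) : ι → ℤ) ∈ sinks S P M)
    (ck : (Pi.single k (d + 1) : ι → ℤ) ∈ sinks S P M)
    (cj : (Pi.single j (d + 1) : ι → ℤ) ∉ sinks S P M) : False := by
  have hiS : i ∈ S := by rw [hS]; simp
  have hjS : j ∈ S := by rw [hS]; simp
  have hkS : k ∈ S := by rw [hS]; simp
  have memS : ∀ l ∈ S, l = i ∨ l = j ∨ l = k := by
    intro l hl
    rw [hS] at hl
    simpa using hl
  have sum3 : ∀ x : ι → ℤ, ∑ l ∈ S, x l = x i + x j + x k := by
    intro x
    rw [hS, Finset.sum_insert (by simp [hij, hik]), Finset.sum_insert (by simp [hjk]),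
      Finset.sum_singleton]
    ring
  -- the two other sinks
  have hsk := hs k hkS
  have hsi := hs i hiS
  obtain ⟨c3, hc3, hc3n⟩ := Finset.exists_mem_ne
    (s := (sinks S P M).filter (fun c => c k ≤ 0)) (by omega)
    (Pi.single i (d + 1) : ι → ℤ)
  obtain ⟨c4, hc4, hc4n⟩ := Finset.exists_mem_ne
    (s := (sinks S P M).filter (fun c => c i ≤ 0)) (by omega)
    (Pi.single k (d + 1) : ι → ℤ)
  rw [Finset.mem_filter] at hc3 hc4
  have hc3k : c3 k = 0 := le_antisymm hc3.2 (sink_nonneg hP hc3.1 k)
  have hc4i : c4 i = 0 := le_antisymm hc4.2 (sink_nonneg hP hc4.1 i)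
  have s3 := sink_sum h.degP hc3.1
  have s4 := sink_sum h.degP hc4.1
  rw [sum3] at s3 s4
  have hc3i : 1 ≤ c3 i := by
    by_contra hcon
    have h0 : c3 i = 0 := by
      have := sink_nonneg hP hc3.1 i
      omega
    have : c3 = Pi.single j (d + 1) := eq_single hjS (sink_nonneg hP hc3.1)
      (fun l hl => sink_flat h.flatP hc3.1 hl) (sink_sum h.degP hc3.1) (by omega)
    exact cj (this ▸ hc3.1)
  have hc3d : c3 i ≤ d := by
    by_contra hcon
    have : c3 = Pi.single i (d + 1) := eq_single hiS (sink_nonneg hP hc3.1)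
      (fun l hl => sink_flat h.flatP hc3.1 hl) (sink_sum h.degP hc3.1) (by omega)
    exact hc3n this
  have hne34 : c3 ≠ c4 := by
    intro heq
    rw [heq] at hc3i
    omega
  have hc4k : c4 ≠ Pi.single i (d + 1) := by
    intro heq
    rw [heq, Pi.single_eq_same] at hc4i
    omega
  have hc3k' : c3 ≠ Pi.single k (d + 1) := by
    intro heq
    rw [heq, Pi.single_eq_same] at hc3k
    omega
  have hik' : (Pi.single i (d + 1) : ι → ℤ) ≠ Pi.single k (d + 1) := by
    intro heq
    have := congrFun heq i
    rw [Pi.single_eq_same, Pi.single_eq_of_ne hik] at this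
    omega
  have hall : ∀ c ∈ sinks S P M, c = Pi.single i (d + 1) ∨ c = Pi.single k (d + 1) ∨ c = c3 ∨
      c = c4 := by
    intro c hc
    by_contra hcon
    simp only [not_or] at hcon
    have hsub : ({Pi.single i (d + 1), Pi.single k (d + 1), c3, c4, c} :
        Finset (ι → ℤ)) ⊆ sinks S P M := by
      intro x hx
      simp only [Finset.mem_insert, Finset.mem_singleton] at hx
      rcases hx with rfl | rfl | rfl | rfl | rfl
      · exact ci
      · exact ck
      · exact hc3.1
      · exact hc4.1
      · exact hc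
    have hcard : ({Pi.single i (d + 1), Pi.single k (d + 1), c3, c4, c} :
        Finset (ι → ℤ)).card = 5 := by
      rw [Finset.card_insert_of_notMem, Finset.card_insert_of_notMem,
        Finset.card_insert_of_notMem, Finset.card_insert_of_notMem, Finset.card_singleton]
      · simp only [Finset.mem_singleton]; exact Ne.symm hcon.2.2.2
      · simp only [Finset.mem_insert, Finset.mem_singleton, not_or]
        exact ⟨hne34, Ne.symm hcon.2.2.1⟩
      · simp only [Finset.mem_insert, Finset.mem_singleton, not_or]
        exact ⟨hc3k'.symm, hc4n.symm, Ne.symm hcon.2.1⟩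
      · simp only [Finset.mem_insert, Finset.mem_singleton, not_or]
        exact ⟨hik', hc3n.symm, hc4k.symm, Ne.symm hcon.1⟩
    have := Finset.card_le_card hsub
    omega
  -- an element avoiding the four sinks
  have avoid : ∀ β : ι → ℤ, (1 ≤ β k ∨ (β i ≤ d ∧ β i ≠ c3 i)) → (1 ≤ β i ∧ (β k ≤ d)) →
      β ∉ sinks S P M := by
    intro β h1 h2 hβ
    rcases hall β hβ with e | e | e | e
    · have e1 := congrFun e i
      have e2 := congrFun e k
      rw [Pi.single_eq_same] at e1
      rw [Pi.single_eq_of_ne hik.symm] at e2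
      omega
    · have e1 := congrFun e i
      have e2 := congrFun e k
      rw [Pi.single_eq_of_ne hik] at e1
      omega
    · have e1 := congrFun e i
      have e2 := congrFun e k
      omega
    · have e1 := congrFun e i
      omega
  have hkij : k ∉ ({i, j} : Finset ι) := by simp [hik.symm, hjk.symm]
  have hSS : ({i, j} : Finset ι) ⊆ S := by
    intro l hl
    simp only [Finset.mem_insert, Finset.mem_singleton] at hl
    rcases hl with rfl | rfl
    · exact hiS
    · exact hjS
  -- the line `{i, j}` above `c3`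
  have claim1 : ∀ x : ι → ℤ, (∀ j, 0 ≤ x j) → (∀ l, l ∉ ({i, j} : Finset ι) → x l = 0) →
      ∑ l ∈ S, x l = d → c3 i ≤ x i → Sg d i P M x := by
    intro x hx hf hsum ht
    apply prop' hSS (by simp) (c3 i) h.disj hQ hP h.nonneg (corner_mem hP ci) _ hx hf hsum ht
    intro β hβ hfβ hsβ h1 h2
    apply avoid
    · right; exact ⟨h2, by omega⟩
    · have := hfβ k hkij
      exact ⟨by omega, by omega⟩
  -- the line `{i, j}` below `c3`
  have claim2 : ∀ n : ℕ, ∀ x : ι → ℤ, (∀ j, 0 ≤ x j) → (∀ l, l ∉ ({i, j} : Finset ι) → x l = 0) →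
      ∑ l ∈ S, x l = d → x i = n → x i < c3 i → x ∉ P ∧ x ∉ M := by
    intro n
    induction n with
    | zero =>
      intro x hx hf hsum hn hlt
      have hxk := hf k hkij
      have hxs : x = Pi.single j d := eq_single hjS hx (fun l hl => hf l (fun h => hl (hSS h)))
        hsum (by rw [sum3] at hsum; push_cast at hn; omega)
      have hup : ∀ Q : Finset (ι → ℤ), (∀ q ∈ Q, ∀ j, 0 ≤ q j) →
          (Pi.single j (d + 1) : ι → ℤ) ∈ up S Q → (Pi.single j d : ι → ℤ) ∈ Q := by
        intro Q hQnn hup
        obtain ⟨l, _, hl⟩ := mem_up.1 hup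
        by_cases hlj : l = j
        · subst hlj
          have e : (Pi.single l (d + 1) - E l : ι → ℤ) = Pi.single l d := by
            funext j
            simp only [Pi.sub_apply, Pi.single_apply]
            split_ifs <;> ring
          rwa [e] at hl
        · exfalso
          have := hQnn _ hl l
          simp [Pi.single_apply, hlj] at this
      have hup' : ∀ Q : Finset (ι → ℤ), (Pi.single j d : ι → ℤ) ∈ Q →
          (Pi.single j (d + 1) : ι → ℤ) ∈ up S Q := by
        intro Q hq
        have e : (Pi.single j (d + 1) : ι → ℤ) = Pi.single j d + E j := by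
          funext j
          simp only [Pi.add_apply, Pi.single_apply]
          split_ifs <;> ring
        rw [e]
        exact add_mem_up hq hjS
      rw [hxs]
      constructor
      · intro hp
        have h1 := hup' P hp
        have h2 : (Pi.single j (d + 1) : ι → ℤ) ∈ up S M := by
          by_contra hcon
          exact cj (Finset.mem_sdiff.2 ⟨h1, hcon⟩)
        exact Finset.disjoint_left.1 h.disj hp (hup M h.nonneg h2)
      · intro hm
        have h1 := hQ (hup' M hm)
        exact Finset.disjoint_left.1 h.disj (hup P hP h1) hm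
    | succ n ih =>
      intro x hx hf hsum hn hlt
      have hxk := hf k hkij
      push_cast at hn
      -- the lower neighbour
      have hlow : (x + E j) - E i ∉ P ∧ (x + E j) - E i ∉ M := by
        apply ih
        · intro l
          have := hx l
          simp only [Pi.add_apply, Pi.sub_apply, Pi.single_apply]
          by_cases hli : l = i
          · subst hli
            rw [if_neg hij, if_pos rfl]; omega
          · rw [if_neg hli]
            split_ifs <;> omega
        · intro l hl
          have h1 : l ≠ i := fun h => hl (by rw [h]; simp)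
          have h2 : l ≠ j := fun h => hl (by rw [h]; simp)
          simp [Pi.single_apply, h1, h2, hf l hl]
        · rw [sum_sub_E hiS, sum_add_E hjS, hsum]; ring
        · simp [Pi.single_apply, hij]; omega
        · simp [Pi.single_apply, hij]; omega
      have hns : x + E j ∉ sinks S P M := by
        apply avoid
        · right
          simp [Pi.single_apply, hij]; omega
        · simp [Pi.single_apply, hij, hjk.symm]; omega
      have hpred : ∀ Q : Finset (ι → ℤ), (∀ q ∈ Q, ∀ j, 0 ≤ q j) → (x + E j) - E i ∉ Q →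
          x + E j ∈ up S Q → x ∈ Q := by
        intro Q hQnn hn1 hup
        obtain ⟨l, hl, hq⟩ := mem_up.1 hup
        rcases memS l hl with rfl | rfl | rfl
        · exact absurd hq hn1
        · simpa using hq
        · exfalso
          have := hQnn _ hq l
          simp [Pi.single_apply, hjk.symm, hxk] at this
      constructor
      · intro hp
        have h1 : x + E j ∈ up S P := add_mem_up hp hjS
        have h2 : x + E j ∈ up S M := by
          by_contra hcon
          exact hns (Finset.mem_sdiff.2 ⟨h1, hcon⟩)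
        exact Finset.disjoint_left.1 h.disj hp (hpred M h.nonneg hlow.2 h2)
      · intro hm
        have h1 := hQ (add_mem_up (S := S) hm hjS)
        exact Finset.disjoint_left.1 h.disj (hpred P hP hlow.1 h1) hm
  -- everything with positive `k` coordinate
  have claim3 : ∀ n : ℕ, ∀ x : ι → ℤ, (∀ j, 0 ≤ x j) → (∀ l, l ∉ S → x l = 0) →
      ∑ l ∈ S, x l = d → 1 ≤ x k → x i + n = d → Sg d i P M x := by
    intro n
    induction n with
    | zero =>
      intro x hx hf hsum hxk hn
      exfalso
      rw [sum3] at hsum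
      push_cast at hn
      have := hx j
      omega
    | succ n ih =>
      intro x hx hf hsum hxk hn
      push_cast at hn
      have hsum' := hsum
      rw [sum3] at hsum'
      have hxj := hx j
      have hxi := hx i
      -- predecessors
      have zfacts : ∀ l ∈ S, l ≠ i → (∀ b, 0 ≤ (x + E i - E l) b) →
          ((1 ≤ (x + E i - E l) k) ∨ (c3 i ≤ (x + E i - E l) i) →
            Sg d i P M (x + E i - E l)) := by
        intro l hl hli hnn hor
        have hflat : ∀ b, b ∉ S → (x + E i - E l) b = 0 := by
          intro b hb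
          have h1 : b ≠ i := fun h => hb (h ▸ hiS)
          have h2 : b ≠ l := fun h => hb (h ▸ hl)
          simp [Pi.single_apply, h1, h2, hf b hb]
        have hsz : ∑ b ∈ S, (x + E i - E l) b = d := by
          rw [sum_sub_E hl, sum_add_E hiS, hsum]; ring
        by_cases hzk : 1 ≤ (x + E i - E l) k
        · apply ih _ hnn hflat hsz hzk
          rw [coord_i hli]; omega
        · have hz0 : (x + E i - E l) k = 0 := by
            have := hnn k
            omega
          apply claim1 _ hnn _ hsz (by tauto)
          intro b hb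
          by_cases hbS : b ∈ S
          · rcases memS b hbS with rfl | rfl | rfl
            · simp at hb
            · simp at hb
            · exact hz0
          · exact hflat b hbS
      apply step h.disj hQ
      · apply avoid
        · left; simp [Pi.single_apply, hik.symm]; omega
        · simp [Pi.single_apply, hik.symm]; omega
      · by_cases h2 : 2 ≤ x k
        · refine ⟨k, hkS, hik.symm, zfacts k hkS hik.symm ?_ ?_⟩
          · intro b
            have := hx b
            simp only [Pi.add_apply, Pi.sub_apply, Pi.single_apply]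
            by_cases hbk : b = k
            · subst hbk; rw [if_pos rfl]; split_ifs <;> omega
            · rw [if_neg hbk]; split_ifs <;> omega
          · left
            simp [Pi.single_apply, hik.symm]; omega
        · by_cases h3 : 1 ≤ x j
          · refine ⟨j, hjS, hij.symm, zfacts j hjS hij.symm ?_ ?_⟩
            · intro b
              have := hx b
              simp only [Pi.add_apply, Pi.sub_apply, Pi.single_apply]
              by_cases hbj : b = j
              · subst hbj; rw [if_pos rfl]; split_ifs <;> omega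
              · rw [if_neg hbj]; split_ifs <;> omega
            · left
              simp [Pi.single_apply, hik.symm, hjk.symm]; omega
          · refine ⟨k, hkS, hik.symm, zfacts k hkS hik.symm ?_ ?_⟩
            · intro b
              have := hx b
              simp only [Pi.add_apply, Pi.sub_apply, Pi.single_apply]
              by_cases hbk : b = k
              · subst hbk; rw [if_pos rfl]; split_ifs <;> omega
              · rw [if_neg hbk]; split_ifs <;> omega
            · right
              rw [coord_i hik.symm]; omega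
      · intro l hl hli hPM
        have hnn : ∀ b, 0 ≤ (x + E i - E l) b := by
          rcases hPM with h | h
          · exact hP _ h
          · intro b; exact (by assumption : Pat S d P M).nonneg _ h b
        apply zfacts l hl hli hnn
        by_contra hcon
        simp only [not_or, not_le] at hcon
        have hz0 : (x + E i - E l) k = 0 := by
          have := hnn k
          omega
        have hzi := hnn i
        obtain ⟨hp, hm⟩ := claim2 ((x + E i - E l) i).toNat (x + E i - E l) hnn (by
          intro b hb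
          by_cases hbS : b ∈ S
          · rcases memS b hbS with rfl | rfl | rfl
            · simp at hb
            · simp at hb
            · exact hz0
          · have h1 : b ≠ i := fun h => hbS (h ▸ hiS)
            have h2 : b ≠ l := fun h => hbS (h ▸ hl)
            simp [Pi.single_apply, h1, h2, hf b hbS]) (by
          rw [sum_sub_E hl, sum_add_E hiS, hsum]; ring) (by
          rw [Int.toNat_of_nonneg hzi]) hcon.2
        rcases hPM with h | h
        · exact hp h
        · exact hm h
  -- the end
  have hdk := corner_mem hP ck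
  have hSk : Sg d i P M (Pi.single k d) := by
    apply claim3 d.toNat _ (single_nonneg (by omega))
    · intro l hl
      have : l ≠ k := fun h => hl (h ▸ hkS)
      simp [Pi.single_apply, this]
    · simp [Pi.single_apply, hkS]
    · rw [Pi.single_eq_same]; exact hd
    · rw [Pi.single_eq_of_ne hik, Int.toNat_of_nonneg (by omega)]; ring
  have hev : Even d := by
    by_contra hodd
    rw [Int.not_even_iff_odd] at hodd
    have h3 := hSk.2 (by rw [Pi.single_eq_of_ne hik]; simpa using hodd)
    exact Finset.disjoint_left.1 h.disj hdk h3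
  obtain ⟨m, hm, hmi⟩ := h.touch i hiS
  by_cases hmk : 1 ≤ m k
  · have h4 := (claim3 d.toNat m (h.nonneg m hm) (h.flatM m hm) (h.degM m hm) hmk (by
      rw [hmi, Int.toNat_of_nonneg (by omega)]; ring)).1 (by rw [hmi]; simpa using hev)
    exact Finset.disjoint_left.1 h.disj h4 hm
  · have hmk0 : m k = 0 := by
      have := h.nonneg m hm k
      omega
    have := (claim2 0 m (h.nonneg m hm) (by
      intro b hb
      by_cases hbS : b ∈ S
      · rcases memS b hbS with rfl | rfl | rfl
        · simp at hb
        · simp at hb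
        · exact hmk0
      · exact h.flatM m hm b hbS) (h.degM m hm) (by rw [hmi]; simp) (by omega)).2
    exact this hm

end B3

open Finset in
theorem base3 {ι : Type*} [Fintype ι] [DecidableEq ι] {S : Finset ι} (hS : S.card = 3) {d : ℤ}
    {P M : Finset (ι → ℤ)} (h : Pat S d P M)
    (hd : 1 ≤ d) (hP : ∀ p ∈ P, ∀ j, 0 ≤ p j) (hQ : up S M ⊆ up S P)
    (hs : ∀ i ∈ S, 2 ≤ ((sinks S P M).filter (fun c => c i ≤ 0)).card)
    (_hc : ∀ i ∈ S, ((sinks S P M).filter (fun c => ∀ j ∈ S, j ≠ i → c j ≤ 0)).card ≤ 1)
    (hN : (sinks S P M).card ≤ 4) : False := by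
  classical
  obtain ⟨i, j, k, hij, hik, hjk, hSe⟩ := Finset.card_eq_three.1 hS
  have hiS : i ∈ S := by rw [hSe]; simp
  have hjS : j ∈ S := by rw [hSe]; simp
  have hkS : k ∈ S := by rw [hSe]; simp
  have sum3 : ∀ x : ι → ℤ, ∑ l ∈ S, x l = x i + x j + x k := by
    intro x
    rw [hSe, Finset.sum_insert (by simp [hij, hik]), Finset.sum_insert (by simp [hjk]),
      Finset.sum_singleton]
    ring
  -- double counting
  have hsum1 : 6 ≤ ∑ l ∈ S, ((sinks S P M).filter (fun c => c l ≤ 0)).card := by
    calc 6 = ∑ _l ∈ S, 2 := by rw [Finset.sum_const, hS]; rfl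
      _ ≤ _ := Finset.sum_le_sum hs
  have hswap : ∑ l ∈ S, ((sinks S P M).filter (fun c => c l ≤ 0)).card =
      ∑ c ∈ sinks S P M, (S.filter (fun l => c l ≤ 0)).card := by
    simp only [Finset.card_filter]
    rw [Finset.sum_comm]
  let Cor : (ι → ℤ) → Prop := fun c => ∃ a ∈ S, c = Pi.single a (d + 1)
  have hbound : ∀ c ∈ sinks S P M, (S.filter (fun l => c l ≤ 0)).card ≤
      1 + (if Cor c then 1 else 0) := by
    intro c hc
    have hnn := B3.sink_nonneg hP hc
    have hsc := B3.sink_sum h.degP hc
    split_ifs with hcor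
    · -- at most two zeros
      have hne : ∃ l ∈ S, ¬ (c l ≤ 0) := by
        by_contra hcon
        push Not at hcon
        have : ∑ l ∈ S, c l ≤ 0 := Finset.sum_nonpos hcon
        omega
      obtain ⟨l, hl, hlc⟩ := hne
      have : (S.filter (fun l => c l ≤ 0)) ⊆ S.erase l := by
        intro b hb
        rw [Finset.mem_filter] at hb
        rw [Finset.mem_erase]
        refine ⟨?_, hb.1⟩
        intro hbl
        subst hbl
        exact hlc hb.2
      have h1 := Finset.card_le_card this
      rw [Finset.card_erase_of_mem hl, hS] at h1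
      exact h1
    · -- at most one zero
      by_contra hcon
      have h2 : 1 < (S.filter (fun l => c l ≤ 0)).card := by omega
      obtain ⟨a, ha, b, hb, hab⟩ := Finset.one_lt_card.1 h2
      rw [Finset.mem_filter] at ha hb
      apply hcor
      -- the third index
      have hthird : ∃ e ∈ S, e ≠ a ∧ e ≠ b ∧ (∀ l ∈ S, l = a ∨ l = b ∨ l = e) := by
        have h3 : ((S.erase a).erase b).card = 1 := by
          rw [Finset.card_erase_of_mem, Finset.card_erase_of_mem ha.1, hS]
          exact Finset.mem_erase.2 ⟨hab.symm, hb.1⟩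
        obtain ⟨e, he⟩ := Finset.card_eq_one.1 h3
        have hemem : e ∈ (S.erase a).erase b := by rw [he]; simp
        rw [Finset.mem_erase, Finset.mem_erase] at hemem
        refine ⟨e, hemem.2.2, hemem.2.1, hemem.1, ?_⟩
        intro l hl
        by_cases hla : l = a
        · exact Or.inl hla
        · by_cases hlb : l = b
          · exact Or.inr (Or.inl hlb)
          · right; right
            have : l ∈ (S.erase a).erase b :=
              Finset.mem_erase.2 ⟨hlb, Finset.mem_erase.2 ⟨hla, hl⟩⟩
            rw [he] at this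
            simpa using this
      obtain ⟨e, heS, hea, heb, hall⟩ := hthird
      refine ⟨e, heS, ?_⟩
      apply B3.eq_single heS hnn (fun l hl => B3.sink_flat h.flatP hc hl) hsc
      rw [← hsc, ← Finset.add_sum_erase _ _ heS]
      have : ∑ l ∈ S.erase e, c l ≤ 0 := by
        apply Finset.sum_nonpos
        intro l hl
        rw [Finset.mem_erase] at hl
        rcases hall l hl.2 with rfl | rfl | rfl
        · exact ha.2
        · exact hb.2
        · exact absurd rfl hl.1
      linarith
  have hcount : 2 ≤ ((sinks S P M).filter Cor).card := by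
    have h1 : ∑ c ∈ sinks S P M, (S.filter (fun l => c l ≤ 0)).card ≤
        ∑ c ∈ sinks S P M, (1 + (if Cor c then 1 else 0)) := Finset.sum_le_sum hbound
    have h2 : ∑ c ∈ sinks S P M, (if Cor c then 1 else 0) = ((sinks S P M).filter Cor).card := by
      rw [Finset.card_filter]
    rw [Finset.sum_add_distrib, Finset.sum_const, smul_eq_mul, mul_one, h2] at h1
    omega
  obtain ⟨x, hx, y, hy, hxy⟩ := Finset.one_lt_card.1 (show 1 < ((sinks S P M).filter Cor).card by
    omega)
  rw [Finset.mem_filter] at hx hy
  obtain ⟨hxC, a, ha, hxa⟩ := hx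
  obtain ⟨hyC, b, hb, hyb⟩ := hy
  have hab : a ≠ b := by
    intro hab
    apply hxy
    rw [hxa, hyb, hab]
  subst hxa
  subst hyb
  have hthird : ∃ e ∈ S, e ≠ a ∧ e ≠ b ∧ S = {a, e, b} := by
    have h3 : ((S.erase a).erase b).card = 1 := by
      rw [Finset.card_erase_of_mem, Finset.card_erase_of_mem ha, hS]
      exact Finset.mem_erase.2 ⟨hab.symm, hb⟩
    obtain ⟨e, he⟩ := Finset.card_eq_one.1 h3
    have hemem : e ∈ (S.erase a).erase b := by rw [he]; simp
    rw [Finset.mem_erase, Finset.mem_erase] at hemem
    refine ⟨e, hemem.2.2, hemem.2.1, hemem.1, ?_⟩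
    ext l
    simp only [Finset.mem_insert, Finset.mem_singleton]
    constructor
    · intro hl
      by_cases hla : l = a
      · exact Or.inl hla
      · by_cases hlb : l = b
        · exact Or.inr (Or.inr hlb)
        · right; left
          have : l ∈ (S.erase a).erase b :=
            Finset.mem_erase.2 ⟨hlb, Finset.mem_erase.2 ⟨hla, hl⟩⟩
          rw [he] at this
          simpa using this
    · rintro (rfl | rfl | rfl)
      · exact ha
      · exact hemem.2.2
      · exact hb
  obtain ⟨e, heS, hea, heb, hSabe⟩ := hthird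
  by_cases hce : (Pi.single e (d + 1) : ι → ℤ) ∈ sinks S P M
  · apply B3.case3 h hd hP hQ hN hea.symm hab heb hSabe
    intro l hl
    rw [hSabe] at hl
    simp only [Finset.mem_insert, Finset.mem_singleton] at hl
    rcases hl with rfl | rfl | rfl
    · exact hxC
    · exact hce
    · exact hyC
  · exact B3.case2 h hd hP hQ hs hN hea.symm hab heb hSabe hxC hyC hce

end SignPat
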