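import Mathlib

/-!
# Sign patterns: definitions (MP_39acf6_an, lower bound)

`ι` is a type of variables, `S : Finset ι` the set of active variables, points are `ι → ℤ`.
-/

set_option autoImplicit false

namespace SignPat

open Finset

variable {ι : Type*} [Fintype ι] [DecidableEq ι]

/-- unit vector -/
abbrev E (k : ι) : ι → ℤ := Pi.single k (1 : ℤ)

/-- upper shadow in the directions `S`: all `x + E k`, `x ∈ A`, `k ∈ S`. -/
def up (S : Finset ι) (A : Finset (ι → ℤ)) : Finset (ι → ℤ) :=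
  (A ×ˢ S).image (fun q => q.1 + E q.2)

theorem mem_up {S : Finset ι} {A : Finset (ι → ℤ)} {c : ι → ℤ} :
    c ∈ up S A ↔ ∃ k ∈ S, c - E k ∈ A := by
  simp only [up, mem_image, mem_product, Prod.exists]
  constructor
  · rintro ⟨x, k, ⟨hx, hk⟩, rfl⟩
    exact ⟨k, hk, by simpa using hx⟩
  · rintro ⟨k, hk, h⟩
    exact ⟨c - E k, k, ⟨h, hk⟩, by simp⟩

theorem add_mem_up {S : Finset ι} {A : Finset (ι → ℤ)} {x : ι → ℤ} {k : ι}
    (hx : x ∈ A) (hk : k ∈ S) : x + E k ∈ up S A :=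
  mem_up.2 ⟨k, hk, by simpa using hx⟩

/-- sinks: covered by `P`, not by `M`. -/
def sinks (S : Finset ι) (P M : Finset (ι → ℤ)) : Finset (ι → ℤ) := up S P \ up S M

/-- uncovered elements. -/
def unc (S : Finset ι) (P M : Finset (ι → ℤ)) : Finset (ι → ℤ) := up S M \ up S P

/-- the cost set: sinks together with the upper shadow of the uncovered elements. -/
def cost (S : Finset ι) (P M : Finset (ι → ℤ)) : Finset (ι → ℤ) :=
  sinks S P M ∪ up S (unc S P M)

/-- the cost -/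
def g (S : Finset ι) (P M : Finset (ι → ℤ)) : ℕ :=
  (sinks S P M).card + (up S (unc S P M)).card

/-- the lower bound: `0, 1, 2, 5, 8, 14, 20, 27, ...` -/
def F (n : ℕ) : ℕ := if n = 1 then 1 else if n = 4 then 8 else (n + 1).choose 2 - 1

/-- A general (homogeneous) pattern in the variables `S`; the coordinates outside `S` are
those of `t`. -/
structure Gen (S : Finset ι) (t : ι → ℤ) (d : ℤ) (P M : Finset (ι → ℤ)) : Prop where
  flatP : ∀ x ∈ P, ∀ j, j ∉ S → x j = t j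
  flatM : ∀ x ∈ M, ∀ j, j ∉ S → x j = t j
  degP : ∀ x ∈ P, ∑ k ∈ S, x k = d
  degM : ∀ x ∈ M, ∑ k ∈ S, x k = d
  disj : Disjoint P M
  ne : M.Nonempty

/-- A normalised pattern: `0` outside `S`, the minimum over `M` of every coordinate in `S` is
`0`, and every `p ∈ P` has a private covered element `p + E k ∈ up S M`. -/
structure Pat (S : Finset ι) (d : ℤ) (P M : Finset (ι → ℤ)) : Prop where
  flatP : ∀ x ∈ P, ∀ j, j ∉ S → x j = 0
  flatM : ∀ x ∈ M, ∀ j, j ∉ S → x j = 0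
  degP : ∀ x ∈ P, ∑ k ∈ S, x k = d
  degM : ∀ x ∈ M, ∑ k ∈ S, x k = d
  disj : Disjoint P M
  ne : M.Nonempty
  nonneg : ∀ m ∈ M, ∀ j, 0 ≤ m j
  touch : ∀ i ∈ S, ∃ m ∈ M, m i = 0
  priv : ∀ p ∈ P, ∃ k ∈ S, p + E k ∈ up S M ∧ ∀ l ∈ S, p + E k - E l ∈ P → l = k

/-- `M` is the complete bipartite pattern `K_{2,2}` shifted by `μ` and `P` contains the
complementary quadratic monomials. -/
def IsK22 (S : Finset ι) (μ : ι → ℤ) (P M : Finset (ι → ℤ)) : Prop :=
  ∃ a b c e : ι, S = {a, b, c, e} ∧ a ≠ b ∧ a ≠ c ∧ a ≠ e ∧ b ≠ c ∧ b ≠ e ∧ c ≠ e ∧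
    M = {μ + E a + E c, μ + E a + E e, μ + E b + E c, μ + E b + E e} ∧
    μ + E a + E a ∈ P ∧ μ + E a + E b ∈ P ∧ μ + E b + E b ∈ P ∧
    μ + E c + E c ∈ P ∧ μ + E c + E e ∈ P ∧ μ + E e + E e ∈ P

end SignPat
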