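import Mathlib
import Pool.Agent.Work.MP_39acf6_an.H80Defs

/-!
# Slices, corners, averaging (MP_39acf6_an, lower bound)
-/

set_option autoImplicit false
set_option linter.unusedSectionVars false
set_option linter.unusedSimpArgs false

namespace SignPat

open Finset

variable {ι : Type*} [Fintype ι] [DecidableEq ι]

theorem up_mono {S T : Finset ι} {A B : Finset (ι → ℤ)} (hST : S ⊆ T) (hAB : A ⊆ B) :
    up S A ⊆ up T B := by
  intro c hc
  obtain ⟨k, hk, h⟩ := mem_up.1 hc
  exact mem_up.2 ⟨k, hST hk, hAB h⟩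

theorem sum_E {S : Finset ι} {k : ι} (hk : k ∈ S) : ∑ j ∈ S, (E k : ι → ℤ) j = 1 := by
  simp [E, Finset.sum_pi_single', hk]

theorem deg_up {S : Finset ι} {A : Finset (ι → ℤ)} {d : ℤ} (hA : ∀ x ∈ A, ∑ k ∈ S, x k = d) :
    ∀ c ∈ up S A, ∑ k ∈ S, c k = d + 1 := by
  intro c hc
  obtain ⟨k, hk, h⟩ := mem_up.1 hc
  have h1 := hA _ h
  simp only [Pi.sub_apply, Finset.sum_sub_distrib] at h1
  rw [sum_E hk] at h1
  omega

section Pat

variable {S : Finset ι} {d : ℤ} {P M : Finset (ι → ℤ)}

theorem deg_sinks (hP : ∀ x ∈ P, ∑ k ∈ S, x k = d) : ∀ c ∈ sinks S P M, ∑ k ∈ S, c k = d + 1 := by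
  intro c hc
  exact deg_up hP c (mem_sdiff.1 hc).1

theorem deg_upunc (hM : ∀ x ∈ M, ∑ k ∈ S, x k = d) :
    ∀ c ∈ up S (unc S P M), ∑ k ∈ S, c k = d + 1 + 1 := by
  apply deg_up
  intro x hx
  exact deg_up hM x (mem_sdiff.1 hx).1

theorem disj_cost (hP : ∀ x ∈ P, ∑ k ∈ S, x k = d) (hM : ∀ x ∈ M, ∑ k ∈ S, x k = d) :
    Disjoint (sinks S P M) (up S (unc S P M)) := by
  rw [Finset.disjoint_left]
  intro c h1 h2
  have := deg_sinks hP c h1
  have := deg_upunc hM c h2
  omega

theorem card_cost (hP : ∀ x ∈ P, ∑ k ∈ S, x k = d) (hM : ∀ x ∈ M, ∑ k ∈ S, x k = d) :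
    (cost S P M).card = g S P M := by
  unfold cost g
  exact Finset.card_union_of_disjoint (disj_cost hP hM)

/-- The slice inequality. -/
theorem slice_le (h : Pat S d P M) {i : ι} (hi : i ∈ S) :
    g (S.erase i) (P.filter (fun p => p i = 0)) (M.filter (fun m => m i = 0)) ≤
      ((cost S P M).filter (fun c => c i ≤ 0)).card := by
  set P' := P.filter (fun p => p i = 0) with hP'
  set M' := M.filter (fun m => m i = 0) with hM'
  set B1 := (sinks S P M).filter (fun c => c i = 0) with hB1
  set B2 := (up S (unc S P M)).filter (fun c => c i = 0) with hB2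
  set B3 := (sinks S P M).filter (fun c => c i = -1) with hB3
  have hEi : ∀ k : ι, k ≠ i → (E k : ι → ℤ) i = 0 := by
    intro k hk; simp [E, Pi.single_apply, Ne.symm hk]
  -- A1 ⊆ B1
  have h1 : sinks (S.erase i) P' M' ⊆ B1 := by
    intro c hc
    obtain ⟨hc1, hc2⟩ := mem_sdiff.1 hc
    obtain ⟨k, hk, hck⟩ := mem_up.1 hc1
    rw [mem_erase] at hk
    rw [hP', mem_filter] at hck
    have hci : c i = 0 := by
      have := hck.2
      simpa [hEi k hk.1] using this
    rw [hB1, mem_filter]
    refine ⟨mem_sdiff.2 ⟨mem_up.2 ⟨k, hk.2, hck.1⟩, ?_⟩, hci⟩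
    intro hM2
    obtain ⟨l, hl, hcl⟩ := mem_up.1 hM2
    by_cases hli : l = i
    · subst hli
      have := h.nonneg _ hcl l
      simp [E, hci] at this
    · apply hc2
      refine mem_up.2 ⟨l, mem_erase.2 ⟨hli, hl⟩, ?_⟩
      rw [hM', mem_filter]
      exact ⟨hcl, by simp [hEi l hli, hci]⟩
  -- A2 ⊆ B2 ∪ image
  have h2 : up (S.erase i) (unc (S.erase i) P' M') ⊆ B2 ∪ B3.image (fun c => c + E i) := by
    intro c hc
    obtain ⟨k, hk, hck⟩ := mem_up.1 hc
    rw [mem_erase] at hk
    obtain ⟨hb1, hb2⟩ := mem_sdiff.1 hck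
    obtain ⟨r, hr, hbr⟩ := mem_up.1 hb1
    rw [mem_erase] at hr
    rw [hM', mem_filter] at hbr
    have hbi : (c - E k) i = 0 := by
      have := hbr.2
      simpa [hEi r hr.1] using this
    have hci : c i = 0 := by simpa [hEi k hk.1] using hbi
    rw [mem_union]
    by_cases hb : c - E k ∈ up S P
    · right
      obtain ⟨l, hl, hbl⟩ := mem_up.1 hb
      have hli : l = i := by
        by_contra hli
        apply hb2
        refine mem_up.2 ⟨l, mem_erase.2 ⟨hli, hl⟩, ?_⟩
        rw [hP', mem_filter]
        refine ⟨hbl, ?_⟩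
        rw [Pi.sub_apply, hbi, hEi l hli]; ring
      subst hli
      rw [mem_image]
      refine ⟨c - E l, ?_, by simp⟩
      rw [hB3, mem_filter]
      have hcl : (c - E l) l = -1 := by simp [E, hci]
      refine ⟨mem_sdiff.2 ⟨mem_up.2 ⟨k, hk.2, ?_⟩, ?_⟩, hcl⟩
      · have : c - E l - E k = c - E k - E l := by abel
        rw [this]; exact hbl
      · intro hM2
        obtain ⟨r', hr', hcr⟩ := mem_up.1 hM2
        have := h.nonneg _ hcr l
        rw [Pi.sub_apply, hcl] at this
        by_cases hrl : r' = l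
        · subst hrl; simp [E] at this
        · rw [hEi r' hrl] at this; omega
    · left
      rw [hB2, mem_filter]
      refine ⟨mem_up.2 ⟨k, hk.2, mem_sdiff.2 ⟨?_, hb⟩⟩, hci⟩
      exact mem_up.2 ⟨r, hr.2, hbr.1⟩
  have h3 : B1 ∪ B2 ∪ B3 ⊆ (cost S P M).filter (fun c => c i ≤ 0) := by
    intro c hc
    rw [mem_filter]
    unfold cost
    simp only [hB1, hB2, hB3, mem_union, mem_filter] at hc ⊢
    rcases hc with (⟨h1, h2⟩ | ⟨h1, h2⟩) | ⟨h1, h2⟩
    · exact ⟨Or.inl h1, by omega⟩
    · exact ⟨Or.inr h1, by omega⟩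
    · exact ⟨Or.inl h1, by omega⟩
  have hd := disj_cost (S := S) (P := P) (M := M) h.degP h.degM
  have hd12 : Disjoint B1 B2 := by
    rw [Finset.disjoint_left] at hd ⊢
    intro c hc1 hc2
    exact hd (mem_filter.1 hc1).1 (mem_filter.1 hc2).1
  have hd123 : Disjoint (B1 ∪ B2) B3 := by
    rw [Finset.disjoint_left] at hd ⊢
    intro c hc1 hc3
    rw [hB3, mem_filter] at hc3
    rw [mem_union, hB1, hB2, mem_filter, mem_filter] at hc1
    rcases hc1 with ⟨_, hc1⟩ | ⟨_, hc1⟩ <;> omega
  calc g (S.erase i) P' M' = (sinks (S.erase i) P' M').card +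
          (up (S.erase i) (unc (S.erase i) P' M')).card := rfl
    _ ≤ B1.card + (B2.card + B3.card) := by
        apply Nat.add_le_add (card_le_card h1)
        refine (card_le_card h2).trans ((card_union_le _ _).trans ?_)
        exact Nat.add_le_add_left card_image_le _
    _ = (B1 ∪ B2 ∪ B3).card := by
        rw [card_union_of_disjoint hd123, card_union_of_disjoint hd12]; ring
    _ ≤ _ := card_le_card h3

theorem Pat.d_nonneg (h : Pat S d P M) : 0 ≤ d := by
  obtain ⟨m, hm⟩ := h.ne
  rw [← h.degM m hm]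
  exact Finset.sum_nonneg (fun j _ => h.nonneg m hm j)

theorem deg_cost (h : Pat S d P M) {c : ι → ℤ} (hc : c ∈ cost S P M) : d + 1 ≤ ∑ k ∈ S, c k := by
  unfold cost at hc
  rw [mem_union] at hc
  rcases hc with hc | hc
  · rw [deg_sinks h.degP c hc]
  · rw [deg_upunc h.degM c hc]; omega

/-- every cost element has a positive coordinate. -/
theorem pos_cost (h : Pat S d P M) {c : ι → ℤ} (hc : c ∈ cost S P M) : ∃ i ∈ S, 1 ≤ c i := by
  have h1 := deg_cost h hc
  have h2 := h.d_nonneg
  obtain ⟨k, hk, hxk⟩ := Finset.exists_lt_of_sum_lt (s := S) (f := fun _ => (0:ℤ))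
    (g := c) (by simp; omega)
  exact ⟨k, hk, hxk⟩

/-- elements of `P` have at most one negative coordinate, equal to `-1`: private witness. -/
theorem Pat.priv' (h : Pat S d P M) {p : ι → ℤ} (hp : p ∈ P) :
    ∃ k ∈ S, (∀ j, j ≠ k → 0 ≤ p j) ∧ -1 ≤ p k ∧ (∃ r ∈ S, p + E k - E r ∈ M) ∧
      ∀ l ∈ S, p + E k - E l ∈ P → l = k := by
  obtain ⟨k, hk, hup, hpr⟩ := h.priv p hp
  obtain ⟨r, hr, hm⟩ := mem_up.1 hup
  refine ⟨k, hk, ?_, ?_, ⟨r, hr, hm⟩, hpr⟩
  · intro j hj
    have := h.nonneg _ hm j
    simp only [Pi.sub_apply, Pi.add_apply, E, Pi.single_eq_of_ne hj] at this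
    by_cases hjr : j = r
    · subst hjr; simp at this; omega
    · simp [Pi.single_eq_of_ne hjr] at this; omega
  · have := h.nonneg _ hm k
    simp only [Pi.sub_apply, Pi.add_apply, E, Pi.single_eq_same] at this
    by_cases hkr : k = r
    · subst hkr; simp at this; omega
    · simp [Pi.single_eq_of_ne hkr] at this; omega

/-- a flat point with the same `S`-coordinates outside `i` as `0` is a multiple of `E i`. -/
theorem eq_single {i : ι} (hi : i ∈ S) {D : ℤ} {x : ι → ℤ} (hflat : ∀ j, j ∉ S → x j = 0)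
    (hdeg : ∑ k ∈ S, x k = D) (h0 : ∀ j ∈ S, j ≠ i → x j = 0) : x = Pi.single i D := by
  funext j
  by_cases hji : j = i
  · subst hji
    rw [Pi.single_eq_same, ← hdeg]
    rw [Finset.sum_eq_single j]
    · intro b hb hbj; exact h0 b hb hbj
    · intro h; exact absurd hi h
  · rw [Pi.single_eq_of_ne hji]
    by_cases hj : j ∈ S
    · exact h0 j hj hji
    · exact hflat j hj

/-- Classification of the cost elements whose only positive coordinate is `i`. -/
theorem corner_class (h : Pat S d P M) {i : ι} (hi : i ∈ S) {c : ι → ℤ} (hc : c ∈ cost S P M)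
    (hci : ∀ j ∈ S, j ≠ i → c j ≤ 0) :
    (c = Pi.single i (d + 1) ∧ Pi.single i d ∈ P) ∨
    (∃ k ∈ S, k ≠ i ∧ c = Pi.single i (d + 2) - E k ∧ Pi.single i (d + 1) - E k ∈ P ∧
      Pi.single i d ∈ M ∧ ∀ l ∈ S, Pi.single i (d + 1) - E l ∈ P → l = k) ∨
    (c = Pi.single i (d + 2) ∧ Pi.single i d ∈ M ∧ Pi.single i (d + 1) ∉ up S P) := by
  have hd := h.d_nonneg
  have hsingle : ∀ a b : ℤ, (Pi.single i a : ι → ℤ) + Pi.single i b = Pi.single i (a + b) := by
    intro a b; rw [← Pi.single_add]
  unfold cost at hc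
  rw [mem_union] at hc
  rcases hc with hc | hc
  · obtain ⟨hc1, hc2⟩ := mem_sdiff.1 hc
    obtain ⟨l, hl, hp⟩ := mem_up.1 hc1
    obtain ⟨k, hk, hk1, hk2, ⟨r, hr, hm⟩, hpr⟩ := h.priv' hp
    set p := c - E l with hpdef
    have hcp : c = p + E l := by rw [hpdef]; abel
    have hpflat := h.flatP p hp
    have hpdeg := h.degP p hp
    -- m = p + E k - E r
    by_cases hli : l = i
    · subst hli
      -- p j ≤ 0 for j ≠ i
      have hpj : ∀ j ∈ S, j ≠ l → p j ≤ 0 := by
        intro j hj hjl
        have := hci j hj hjl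
        rw [hpdef]; simp [E, Pi.single_eq_of_ne hjl]; exact this
      by_cases hz : ∀ j ∈ S, j ≠ l → p j = 0
      · left
        have hpe : p = Pi.single l d := eq_single hi hpflat hpdeg hz
        refine ⟨?_, hpe ▸ hp⟩
        rw [hcp, hpe]; exact hsingle d 1
      · right; left
        push Not at hz
        obtain ⟨j, hj, hjl, hpj0⟩ := hz
        have hjk : j = k := by
          by_contra hjk
          have h1 := hk1 j hjk
          have h2 := hpj j hj hjl
          exact hpj0 (le_antisymm h2 h1)
        subst hjk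
        have hpjv : p j = -1 := by
          have := hpj j hj hjl
          omega
        have hpe : p + E j = Pi.single l (d + 1) := by
          apply eq_single hi
          · intro t ht
            have : t ≠ j := fun e => ht (e ▸ hj)
            simp [E, hpflat t ht, Pi.single_eq_of_ne this]
          · simp only [Pi.add_apply, Finset.sum_add_distrib]
            rw [hpdeg, sum_E hj]
          · intro t ht htl
            by_cases htj : t = j
            · subst htj; simp [E, hpjv]
            · have h1 := hk1 t htj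
              have h2 := hpj t ht htl
              simp [E, Pi.single_eq_of_ne htj]
              omega
        refine ⟨j, hj, hjl, ?_, ?_, ?_, ?_⟩
        · rw [hcp]
          have : p = Pi.single l (d + 1) - E j := by rw [← hpe]; abel
          rw [this]
          have h2 : (Pi.single l (d + 2) : ι → ℤ) = Pi.single l (d + 1) + Pi.single l 1 := by
            rw [hsingle]; ring_nf
          rw [h2]; abel
        · have : p = Pi.single l (d + 1) - E j := by rw [← hpe]; abel
          rw [← this]; exact hp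
        · rw [hpe] at hm
          have hrl : r = l := by
            by_contra hrl
            have := h.nonneg _ hm r
            simp [E, Pi.single_eq_of_ne hrl] at this
          subst hrl
          have : (Pi.single r (d + 1) : ι → ℤ) - E r = Pi.single r d := by
            have := hsingle d 1
            rw [← this]; simp [E]
          rw [this] at hm; exact hm
        · intro t ht hpt
          rw [hpe] at hpr
          exact hpr t ht hpt
    · exfalso
      -- c l ≤ 0, so p l ≤ -1, hence l = k
      have hcl := hci l hl hli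
      have hpl : p l = c l - 1 := by rw [hpdef]; simp [E]
      have hlk : l = k := by
        by_contra hlk
        have := hk1 l hlk
        omega
      subst hlk
      have hpl' : p l = -1 := by omega
      have hce : c = Pi.single i (d + 1) := by
        apply eq_single hi
        · intro t ht
          have : t ≠ l := fun e => ht (e ▸ hl)
          rw [hcp]; simp [E, hpflat t ht, Pi.single_eq_of_ne this]
        · rw [hcp]; simp only [Pi.add_apply, Finset.sum_add_distrib]
          rw [hpdeg, sum_E hl]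
        · intro t ht hti
          by_cases htl : t = l
          · subst htl; omega
          · have h1 := hk1 t htl
            have h2 := hci t ht hti
            rw [hcp] at h2 ⊢
            simp [E, Pi.single_eq_of_ne htl] at h2 ⊢
            omega
      rw [← hcp] at hm
      have hri : r = i := by
        by_contra hri
        have := h.nonneg _ hm r
        rw [hce] at this
        simp [E, Pi.single_eq_of_ne hri] at this
      apply hc2
      exact mem_up.2 ⟨r, hr, hm⟩
  · right; right
    obtain ⟨l, hl, hq⟩ := mem_up.1 hc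
    obtain ⟨hq1, hq2⟩ := mem_sdiff.1 hq
    obtain ⟨r, hr, hm⟩ := mem_up.1 hq1
    have hmn := h.nonneg _ hm
    have hmf := h.flatM _ hm
    have hmd := h.degM _ hm
    set m := c - E l - E r with hmdef
    have hcm : c = m + E r + E l := by rw [hmdef]; abel
    have hEn : ∀ a j : ι, 0 ≤ (E a : ι → ℤ) j := by
      intro a j; by_cases haj : j = a
      · subst haj; simp [E]
      · simp [E, Pi.single_eq_of_ne haj]
    have hcv : ∀ j, c j = m j + (E r : ι → ℤ) j + (E l : ι → ℤ) j := by
      intro j; rw [hcm]; rfl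
    have hli : l = i := by
      by_contra hli
      have h1 := hci l hl hli
      have h2 := hcv l
      have h3 := hmn l
      have h4 := hEn r l
      simp [E] at h2 h4
      omega
    have hri : r = i := by
      by_contra hri
      have h1 := hci r hr hri
      have h2 := hcv r
      have h3 := hmn r
      have h4 := hEn l r
      simp [E] at h2 h4
      omega
    have hme : m = Pi.single i d := by
      apply eq_single hi hmf hmd
      intro j hj hji
      have h1 := hci j hj hji
      have h2 := hcv j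
      have h3 := hmn j
      have h4 := hEn l j
      have h5 := hEn r j
      omega
    rw [hri] at hcm
    rw [hli] at hcm
    have e1 : (Pi.single i (d + 1) : ι → ℤ) = m + E i := by rw [hme]; exact (hsingle d 1).symm
    have e2 : (Pi.single i (d + 2) : ι → ℤ) = m + E i + E i := by
      rw [← e1, show (E i : ι → ℤ) = Pi.single i 1 from rfl, hsingle]; ring_nf
    refine ⟨?_, ?_, ?_⟩
    · rw [hcm, e2]
    · rw [← hme]; exact hm
    · have : c - E l = m + E i := by rw [hcm, hli]; abel
      rw [this, ← e1] at hq2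
      exact hq2

/-- For each `i` there is at most one cost element whose only positive coordinate is `i`. -/
theorem corner_unique (h : Pat S d P M) {i : ι} (hi : i ∈ S) :
    ((cost S P M).filter (fun c => ∀ j ∈ S, j ≠ i → c j ≤ 0)).card ≤ 1 := by
  rw [Finset.card_le_one]
  intro c hc c' hc'
  rw [mem_filter] at hc hc'
  have hdis := Finset.disjoint_left.1 h.disj
  rcases corner_class h hi hc.1 hc.2 with ⟨h1, h2⟩ | ⟨k, hk, hki, h1, h2, h3, h4⟩ | ⟨h1, h2, h3⟩ <;>
  rcases corner_class h hi hc'.1 hc'.2 with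
    ⟨h1', h2'⟩ | ⟨k', hk', hki', h1', h2', h3', h4'⟩ | ⟨h1', h2', h3'⟩
  · rw [h1, h1']
  · exact absurd h3' (hdis h2)
  · exact absurd h2' (hdis h2)
  · exact absurd h3 (hdis h2')
  · rw [h1, h1', h4 k' hk' h2']
  · exact absurd (mem_up.2 ⟨k, hk, h2⟩) h3'
  · exact absurd h2 (hdis h2')
  · exact absurd (mem_up.2 ⟨k', hk', h2'⟩) h3
  · rw [h1, h1']

/-- cost elements with exactly one positive coordinate -/
def C1 (S : Finset ι) (P M : Finset (ι → ℤ)) : Finset (ι → ℤ) :=
  (cost S P M).filter (fun c => ∃ i ∈ S, ∀ j ∈ S, j ≠ i → c j ≤ 0)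

/-- cost elements with at least three positive coordinates -/
def C3 (S : Finset ι) (P M : Finset (ι → ℤ)) : Finset (ι → ℤ) :=
  (cost S P M).filter (fun c => 3 ≤ (S.filter (fun i => 1 ≤ c i)).card)

theorem card_C1_le (h : Pat S d P M) : (C1 S P M).card ≤ S.card := by
  have : C1 S P M ⊆ S.biUnion
      (fun i => (cost S P M).filter (fun c => ∀ j ∈ S, j ≠ i → c j ≤ 0)) := by
    intro c hc
    rw [C1, mem_filter] at hc
    obtain ⟨hc, i, hi, hci⟩ := hc
    exact mem_biUnion.2 ⟨i, hi, mem_filter.2 ⟨hc, hci⟩⟩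
  calc (C1 S P M).card ≤ _ := card_le_card this
    _ ≤ S.card * 1 := card_biUnion_le_card_mul _ _ _ (fun i hi => corner_unique h hi)
    _ = S.card := by ring

/-- Averaging identity/inequality. -/
theorem average (h : Pat S d P M) :
    ∑ i ∈ S, ((cost S P M).filter (fun c => c i ≤ 0)).card + 2 * (cost S P M).card +
      (C3 S P M).card ≤ S.card * (cost S P M).card + (C1 S P M).card := by
  have h1 : ∑ i ∈ S, ((cost S P M).filter (fun c => c i ≤ 0)).card =
      ∑ c ∈ cost S P M, (S.filter (fun i => c i ≤ 0)).card := by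
    simp only [Finset.card_filter]
    rw [Finset.sum_comm]
  have h2 : (C3 S P M).card =
      ∑ c ∈ cost S P M, (if 3 ≤ (S.filter (fun i => 1 ≤ c i)).card then 1 else 0) := by
    rw [C3, Finset.card_filter]
  have h3 : (C1 S P M).card =
      ∑ c ∈ cost S P M, (if (∃ i ∈ S, ∀ j ∈ S, j ≠ i → c j ≤ 0) then 1 else 0) := by
    rw [C1, Finset.card_filter]
  have h4 : 2 * (cost S P M).card = ∑ c ∈ cost S P M, 2 := by simp [mul_comm]
  have h5 : S.card * (cost S P M).card = ∑ c ∈ cost S P M, S.card := by simp [mul_comm]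
  rw [h1, h2, h3, h4, h5, ← Finset.sum_add_distrib, ← Finset.sum_add_distrib,
    ← Finset.sum_add_distrib]
  apply Finset.sum_le_sum
  intro c hc
  have hsplit : (S.filter (fun i => c i ≤ 0)).card + (S.filter (fun i => 1 ≤ c i)).card =
      S.card := by
    have := Finset.card_filter_add_card_filter_not (s := S) (fun i => c i ≤ 0)
    rw [← this]
    congr 2
    ext i
    simp only [mem_filter, not_le]
    constructor
    · rintro ⟨a, b⟩; exact ⟨a, by omega⟩
    · rintro ⟨a, b⟩; exact ⟨a, by omega⟩
  obtain ⟨i, hi, hci⟩ := pos_cost h hc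
  have hge1 : 1 ≤ (S.filter (fun i => 1 ≤ c i)).card :=
    Finset.card_pos.2 ⟨i, mem_filter.2 ⟨hi, hci⟩⟩
  by_cases h1' : (S.filter (fun i => 1 ≤ c i)).card = 1
  · have hcor : ∃ i ∈ S, ∀ j ∈ S, j ≠ i → c j ≤ 0 := by
      refine ⟨i, hi, fun j hj hji => ?_⟩
      by_contra hcon
      push Not at hcon
      have := Finset.card_le_one.1 h1'.le i (mem_filter.2 ⟨hi, hci⟩) j
        (mem_filter.2 ⟨hj, by omega⟩)
      exact hji this.symm
    rw [if_pos hcor, if_neg (by omega)]
    omega
  · split_ifs <;> omega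

end Pat

end SignPat
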