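import Mathlib
import Pool.Agent.Work.MP_39acf6_an.H80Core

/-!
# Normalisation of patterns (MP_39acf6_an, lower bound)
-/

set_option autoImplicit false
set_option linter.unusedSectionVars false
set_option linter.unusedSimpArgs false

namespace SignPat

open Finset

variable {ι : Type*} [Fintype ι] [DecidableEq ι]

theorem E_inj {k l : ι} (h : (E k : ι → ℤ) = E l) : k = l := by
  by_contra hkl
  have := congrFun h k
  simp [E, Pi.single_eq_of_ne hkl] at this

/-- translate by `-v` -/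
def tr (v : ι → ℤ) (A : Finset (ι → ℤ)) : Finset (ι → ℤ) := A.image (fun x => x - v)

theorem tr_inj (v : ι → ℤ) : Function.Injective (fun x : ι → ℤ => x - v) := by
  intro x y h
  exact sub_left_injective h

theorem mem_tr {v x : ι → ℤ} {A : Finset (ι → ℤ)} : x ∈ tr v A ↔ x + v ∈ A := by
  unfold tr
  rw [mem_image]
  constructor
  · rintro ⟨y, hy, rfl⟩; simpa using hy
  · intro h; exact ⟨_, h, by simp⟩

theorem up_tr (v : ι → ℤ) (S : Finset ι) (A : Finset (ι → ℤ)) : up S (tr v A) = tr v (up S A) := by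
  ext c
  rw [mem_up, mem_tr, mem_up]
  constructor
  · rintro ⟨k, hk, h⟩
    rw [mem_tr] at h
    exact ⟨k, hk, by rwa [show c + v - E k = c - E k + v by abel]⟩
  · rintro ⟨k, hk, h⟩
    exact ⟨k, hk, by rw [mem_tr]; rwa [show c - E k + v = c + v - E k by abel]⟩

theorem tr_sdiff (v : ι → ℤ) (A B : Finset (ι → ℤ)) : tr v (A \ B) = tr v A \ tr v B := by
  ext c
  simp only [mem_tr, mem_sdiff]

theorem card_tr (v : ι → ℤ) (A : Finset (ι → ℤ)) : (tr v A).card = A.card :=
  Finset.card_image_of_injective _ (tr_inj v)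

theorem g_tr (v : ι → ℤ) (S : Finset ι) (P M : Finset (ι → ℤ)) :
    g S (tr v P) (tr v M) = g S P M := by
  unfold g sinks unc
  rw [up_tr, up_tr, ← tr_sdiff, ← tr_sdiff, up_tr, card_tr, card_tr]

theorem g_mono {S : Finset ι} {P P' M : Finset (ι → ℤ)} (hPP : P' ⊆ P)
    (hu : unc S P' M = unc S P M) : g S P' M ≤ g S P M := by
  unfold g
  rw [hu]
  apply Nat.add_le_add_right
  apply card_le_card
  unfold sinks
  exact sdiff_subset_sdiff (up_mono (subset_refl S) hPP) (subset_refl _)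

/-- A minimal cover. -/
theorem exists_min_cover (S : Finset ι) (P M : Finset (ι → ℤ)) :
    ∃ P' ⊆ P, unc S P' M = unc S P M ∧
      ∀ p ∈ P', ∃ k ∈ S, p + E k ∈ up S M ∧ ∀ l ∈ S, p + E k - E l ∈ P' → l = k := by
  classical
  obtain ⟨P', hP', hmin⟩ := Finset.exists_min_image
    (P.powerset.filter (fun Q => unc S Q M = unc S P M)) (fun Q => Q.card)
    ⟨P, mem_filter.2 ⟨mem_powerset_self P, rfl⟩⟩
  rw [mem_filter, mem_powerset] at hP'
  refine ⟨P', hP'.1, hP'.2, ?_⟩
  intro p hp
  have hne : unc S (P'.erase p) M ≠ unc S P M := by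
    intro heq
    have h1 := hmin (P'.erase p) (mem_filter.2
      ⟨mem_powerset.2 ((erase_subset p P').trans hP'.1), heq⟩)
    have h2 := card_erase_lt_of_mem hp
    omega
  rw [← hP'.2] at hne
  have hsub : unc S P' M ⊆ unc S (P'.erase p) M :=
    sdiff_subset_sdiff (subset_refl _) (up_mono (subset_refl S) (erase_subset p P'))
  obtain ⟨β, hβ1, hβ2⟩ := Finset.exists_of_ssubset (hsub.ssubset_of_ne hne.symm)
  obtain ⟨hβM, hβe⟩ := mem_sdiff.1 hβ1
  have hβP : β ∈ up S P' := by
    by_contra hcon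
    exact hβ2 (mem_sdiff.2 ⟨hβM, hcon⟩)
  have hkey : ∀ l ∈ S, β - E l ∈ P' → β - E l = p := by
    intro l hl hlP
    by_contra hne'
    exact hβe (mem_up.2 ⟨l, hl, mem_erase.2 ⟨hne', hlP⟩⟩)
  obtain ⟨k, hk, hkP⟩ := mem_up.1 hβP
  have hpk := hkey k hk hkP
  have hβ : β = p + E k := by rw [← hpk]; abel
  refine ⟨k, hk, hβ ▸ hβM, ?_⟩
  intro l hl hlP
  rw [← hβ] at hlP
  have := hkey l hl hlP
  rw [hβ] at this
  have h3 : (E k : ι → ℤ) = E l := by
    have h4 : p + E k = p + E l := by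
      rw [sub_eq_iff_eq_add] at this; exact this
    exact add_left_cancel h4
  exact (E_inj h3).symm

/-- the coordinatewise minimum of `M` in `S`, and `t` outside. -/
theorem Gen.exists_pat {S : Finset ι} {t : ι → ℤ} {d : ℤ} {P M : Finset (ι → ℤ)}
    (h : Gen S t d P M) :
    ∃ (v : ι → ℤ) (d' : ℤ) (P' : Finset (ι → ℤ)), Pat S d' P' (tr v M) ∧ P' ⊆ tr v P ∧
      (∀ j, j ∉ S → v j = t j) ∧ g S P' (tr v M) ≤ g S P M ∧
      (∀ i ∈ S, ∃ m ∈ M, m i = v i) := by
  classical
  have hmin : ∀ i : ι, ∃ a : ℤ, (∃ m ∈ M, m i = a) ∧ ∀ m ∈ M, a ≤ m i := by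
    intro i
    obtain ⟨m, hm, hle⟩ := Finset.exists_min_image M (fun m => m i) h.ne
    exact ⟨m i, ⟨m, hm, rfl⟩, hle⟩
  choose a ha1 ha2 using hmin
  set v : ι → ℤ := fun j => if j ∈ S then a j else t j with hv
  have hvS : ∀ j ∈ S, v j = a j := by intro j hj; simp [hv, hj]
  have hvn : ∀ j, j ∉ S → v j = t j := by intro j hj; simp [hv, hj]
  obtain ⟨P', hP', hu, hpriv⟩ := exists_min_cover S (tr v P) (tr v M)
  refine ⟨v, d - ∑ k ∈ S, v k, P', ?_, hP', hvn, ?_, ?_⟩
  · refine ⟨?_, ?_, ?_, ?_, ?_, ?_, ?_, ?_, hpriv⟩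
    · intro x hx j hj
      have h1 := h.flatP _ (mem_tr.1 (hP' hx)) j hj
      simp only [Pi.add_apply] at h1
      rw [hvn j hj] at h1; omega
    · intro x hx j hj
      have h1 := h.flatM _ (mem_tr.1 hx) j hj
      simp only [Pi.add_apply] at h1
      rw [hvn j hj] at h1; omega
    · intro x hx
      have h1 := h.degP _ (mem_tr.1 (hP' hx))
      simp only [Pi.add_apply, Finset.sum_add_distrib] at h1
      omega
    · intro x hx
      have h1 := h.degM _ (mem_tr.1 hx)
      simp only [Pi.add_apply, Finset.sum_add_distrib] at h1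
      omega
    · rw [Finset.disjoint_left]
      intro x hx hx'
      exact Finset.disjoint_left.1 h.disj (mem_tr.1 (hP' hx)) (mem_tr.1 hx')
    · obtain ⟨m, hm⟩ := h.ne
      exact ⟨m - v, mem_tr.2 (by simpa using hm)⟩
    · intro m hm j
      have hm' := mem_tr.1 hm
      by_cases hj : j ∈ S
      · have := ha2 j _ hm'
        simp only [Pi.add_apply] at this
        rw [hvS j hj] at this; omega
      · have h1 := h.flatM _ hm' j hj
        simp only [Pi.add_apply] at h1
        rw [hvn j hj] at h1; omega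
    · intro i hi
      obtain ⟨m, hm, hmi⟩ := ha1 i
      refine ⟨m - v, mem_tr.2 (by simpa using hm), ?_⟩
      simp only [Pi.sub_apply]
      rw [hvS i hi, hmi]; ring
  · calc g S P' (tr v M) ≤ g S (tr v P) (tr v M) := g_mono hP' hu
      _ = g S P M := g_tr v S P M
  · intro i hi
    obtain ⟨m, hm, hmi⟩ := ha1 i
    exact ⟨m, hm, by rw [hmi, hvS i hi]⟩

/-- the slice of a normalised pattern is a general pattern. -/
theorem Pat.slice {S : Finset ι} {d : ℤ} {P M : Finset (ι → ℤ)} (h : Pat S d P M) {i : ι}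
    (hi : i ∈ S) :
    Gen (S.erase i) (fun _ => 0) d (P.filter (fun p => p i = 0)) (M.filter (fun m => m i = 0)) := by
  refine ⟨?_, ?_, ?_, ?_, ?_, ?_⟩
  · intro x hx j hj
    rw [mem_filter] at hx
    by_cases hji : j = i
    · subst hji; exact hx.2
    · exact h.flatP x hx.1 j (fun hjS => hj (mem_erase.2 ⟨hji, hjS⟩))
  · intro x hx j hj
    rw [mem_filter] at hx
    by_cases hji : j = i
    · subst hji; exact hx.2
    · exact h.flatM x hx.1 j (fun hjS => hj (mem_erase.2 ⟨hji, hjS⟩))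
  · intro x hx
    rw [mem_filter] at hx
    have h1 := h.degP x hx.1
    have h2 := Finset.add_sum_erase S x hi
    omega
  · intro x hx
    rw [mem_filter] at hx
    have h1 := h.degM x hx.1
    have h2 := Finset.add_sum_erase S x hi
    omega
  · exact Finset.disjoint_of_subset_left (filter_subset _ _)
      (Finset.disjoint_of_subset_right (filter_subset _ _) h.disj)
  · obtain ⟨m, hm, hmi⟩ := h.touch i hi
    exact ⟨m, mem_filter.2 ⟨hm, hmi⟩⟩

end SignPat
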