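import Mathlib
import Pool.Agent.Work.MP_39acf6_an.H80Defs

/-!
# Propagation of signs (MP_39acf6_an, lower bound)
-/

set_option autoImplicit false
set_option linter.unusedSectionVars false

namespace SignPat

open Finset

variable {ι : Type*} [Fintype ι] [DecidableEq ι]

/-- the sign of a point: `1` on `P`, `-1` on `M`, `0` elsewhere. -/
def sg (P M : Finset (ι → ℤ)) (x : ι → ℤ) : ℤ := if x ∈ P then 1 else if x ∈ M then -1 else 0

theorem sg_eq_one {P M : Finset (ι → ℤ)} {x : ι → ℤ} : sg P M x = 1 ↔ x ∈ P := by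
  unfold sg; split_ifs <;> simp_all

theorem sg_eq_neg_one {P M : Finset (ι → ℤ)} (h : Disjoint P M) {x : ι → ℤ} :
    sg P M x = -1 ↔ x ∈ M := by
  unfold sg
  split_ifs with h1 h2
  · have := Finset.disjoint_left.1 h h1
    simp [this]
  · simp [h2]
  · simp [h2]

theorem sg_eq_zero {P M : Finset (ι → ℤ)} {x : ι → ℤ} :
    sg P M x = 0 ↔ x ∉ P ∧ x ∉ M := by
  unfold sg; split_ifs <;> simp_all

theorem sg_three (P M : Finset (ι → ℤ)) (x : ι → ℤ) :
    sg P M x = 1 ∨ sg P M x = -1 ∨ sg P M x = 0 := by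
  unfold sg; split_ifs <;> simp

/-- `β` is neutral for the sign function `s` in the directions `T`: it has a positive
predecessor iff it has a negative one. -/
def Neutral (T : Finset ι) (s : (ι → ℤ) → ℤ) (β : ι → ℤ) : Prop :=
  (∃ k ∈ T, s (β - E k) = 1) ↔ (∃ k ∈ T, s (β - E k) = -1)

/-- An element which is neither a sink nor uncovered is neutral. -/
theorem neutral_of {S : Finset ι} {P M : Finset (ι → ℤ)} (hd : Disjoint P M) {β : ι → ℤ}
    (h1 : β ∉ sinks S P M) (h2 : β ∉ unc S P M) : Neutral S (sg P M) β := by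
  unfold Neutral
  simp only [sg_eq_one, sg_eq_neg_one hd]
  simp only [sinks, unc, mem_sdiff, not_and, not_not] at h1 h2
  constructor
  · intro h; exact mem_up.1 (h1 (mem_up.2 h))
  · intro h; exact mem_up.1 (h2 (mem_up.2 h))

/-- General propagation in direction `i`, on an active set `A`. -/
theorem prop_gen {T : Finset ι} {i : ι} (hi : i ∈ T) {d : ℤ} {s : (ι → ℤ) → ℤ} {s0 : ℤ}
    (hs3 : ∀ x, s x = 1 ∨ s x = -1 ∨ s x = 0) (hs0 : s0 = 1 ∨ s0 = -1 ∨ s0 = 0)
    (A : (ι → ℤ) → Prop)
    (hA : ∀ x, A x → x i ≤ d)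
    (hbase : ∀ x, A x → x i = d → s x = s0)
    (hstep : ∀ x, A x → x i < d → Neutral T s (x + E i) ∧
      (∃ k ∈ T, k ≠ i ∧ A (x + E i - E k)) ∧
      (∀ k ∈ T, k ≠ i → A (x + E i - E k) ∨ s (x + E i - E k) = 0 ∨
        s (x + E i - E k) = (-1) ^ (d - (x i + 1)).toNat * s0)) :
    ∀ x, A x → s x = (-1) ^ (d - x i).toNat * s0 := by
  suffices H : ∀ n : ℕ, ∀ x, A x → (d - x i).toNat = n → s x = (-1) ^ n * s0 by
    intro x hx; exact H _ x hx rfl
  intro n
  induction n with
  | zero =>
    intro x hx hn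
    have h1 := hA x hx
    have h2 : x i = d := by
      have := Int.toNat_eq_zero.1 hn
      omega
    simpa using hbase x hx h2
  | succ n ih =>
    intro x hx hn
    have hlt : x i < d := by
      by_contra hcon
      push Not at hcon
      have : (d - x i).toNat = 0 := Int.toNat_eq_zero.2 (by omega)
      omega
    obtain ⟨hneu, ⟨k, hk, hki, hAk⟩, hall⟩ := hstep x hx hlt
    have hlev : ∀ k : ι, k ≠ i → (x + E i - E k) i = x i + 1 := by
      intro k hk
      simp [E, Pi.single_apply, Ne.symm hk]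
    have hnat : (d - (x i + 1)).toNat = n := by omega
    have hval : ∀ k ∈ T, k ≠ i → s (x + E i - E k) = 0 ∨ s (x + E i - E k) = (-1) ^ n * s0 := by
      intro k hk hki
      rcases hall k hk hki with h | h | h
      · right
        exact ih _ h (by rw [hlev k hki, hnat])
      · left; exact h
      · right; rw [h, hnat]
    have hvk : s (x + E i - E k) = (-1) ^ n * s0 :=
      ih _ hAk (by rw [hlev k hki, hnat])
    have hxi : x + E i - E i = x := by simp
    unfold Neutral at hneu
    -- v = (-1)^n * s0 ∈ {1,-1,0}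
    set v : ℤ := (-1) ^ n * s0 with hv
    have hv3 : v = 1 ∨ v = -1 ∨ v = 0 := by
      rcases neg_one_pow_eq_or ℤ n with h | h <;> rcases hs0 with h' | h' | h' <;>
        simp [hv, h, h']
    have hgoal : (-1 : ℤ) ^ (n + 1) * s0 = -v := by rw [hv, pow_succ]; ring
    rw [hgoal]
    -- the elements of the predecessor set
    have key : ∀ c : ℤ, c ≠ 0 → c ≠ v → ((∃ k ∈ T, s (x + E i - E k) = c) ↔ s x = c) := by
      intro c hc0 hcv
      constructor
      · rintro ⟨l, hl, hle⟩
        by_cases hli : l = i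
        · subst hli; rwa [hxi] at hle
        · rcases hval l hl hli with h | h
          · exact absurd (h ▸ hle).symm hc0
          · exact absurd (hle.symm.trans h) hcv
      · intro h; exact ⟨i, hi, by rw [hxi]; exact h⟩
    rcases hv3 with hv1 | hv1 | hv1
    · rw [hv1]
      have h1 : ∃ k ∈ T, s (x + E i - E k) = 1 := ⟨k, hk, by rw [hvk, hv1]⟩
      exact (key (-1) (by norm_num) (by rw [hv1]; norm_num)).1 (hneu.1 h1)
    · rw [hv1]
      have h1 : ∃ k ∈ T, s (x + E i - E k) = -1 := ⟨k, hk, by rw [hvk, hv1]⟩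
      have := (key 1 (by norm_num) (by rw [hv1]; norm_num)).1 (hneu.2 h1)
      rw [this]; norm_num
    · rw [hv1]
      have k1 := key 1 (by norm_num) (by rw [hv1]; norm_num)
      have k2 := key (-1) (by norm_num) (by rw [hv1]; norm_num)
      rw [k1, k2] at hneu
      rcases hs3 x with h | h | h
      · have := hneu.1 h; rw [h] at this; norm_num at this
      · have := hneu.2 h; rw [h] at this; norm_num at this
      · rw [h]; norm_num

/-- Standard propagation: if all `β ≥ 0` of degree `d+1` on the face `T` with `t < β i ≤ d` are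
neutral and have no nonzero predecessor outside the positive orthant, then signs alternate in
direction `i` down to level `t`. -/
theorem prop {T : Finset ι} {i : ι} (hi : i ∈ T) {d : ℤ} {s : (ι → ℤ) → ℤ}
    (hs3 : ∀ x, s x = 1 ∨ s x = -1 ∨ s x = 0) (t : ℤ)
    (hN : ∀ β : ι → ℤ, (∀ j, j ∉ T → β j = 0) → (∀ j, 0 ≤ β j) → ∑ k ∈ T, β k = d + 1 →
      t < β i → β i ≤ d → Neutral T s β ∧ ∀ k ∈ T, β k = 0 → s (β - E k) = 0) :
    ∀ x : ι → ℤ, (∀ j, j ∉ T → x j = 0) → (∀ j, 0 ≤ x j) → ∑ k ∈ T, x k = d → t ≤ x i →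
      s x = (-1) ^ (d - x i).toNat * s (Pi.single i d) := by
  intro x hx1 hx2 hx3 hx4
  refine prop_gen hi hs3 (hs3 _)
    (fun x => (∀ j, j ∉ T → x j = 0) ∧ (∀ j, 0 ≤ x j) ∧ ∑ k ∈ T, x k = d ∧ t ≤ x i)
    ?_ ?_ ?_ x ⟨hx1, hx2, hx3, hx4⟩
  · rintro x ⟨h1, h2, h3, h4⟩
    rw [← h3]
    exact Finset.single_le_sum (fun j _ => h2 j) hi
  · rintro x ⟨h1, h2, h3, h4⟩ hxi
    congr 1
    funext j
    by_cases hji : j = i
    · subst hji; simp [hxi]
    · rw [Pi.single_eq_of_ne hji]
      by_cases hj : j ∈ T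
      · have hsum : ∑ k ∈ T.erase i, x k = 0 := by
          have := Finset.add_sum_erase T x hi
          omega
        exact (Finset.sum_eq_zero_iff_of_nonneg (fun k _ => h2 k)).1 hsum j
          (Finset.mem_erase.2 ⟨hji, hj⟩)
      · exact h1 j hj
  · rintro x ⟨h1, h2, h3, h4⟩ hlt
    have hEi : ∑ k ∈ T, (E i : ι → ℤ) k = 1 := by
      simp [E, Finset.sum_pi_single', hi]
    have hb1 : ∀ j, j ∉ T → (x + E i) j = 0 := by
      intro j hj
      have : j ≠ i := fun h => hj (h ▸ hi)
      simp [E, h1 j hj, this]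
    have hb2 : ∀ j, 0 ≤ (x + E i) j := by
      intro j
      have := h2 j
      by_cases hji : j = i
      · subst hji; simp [E]; omega
      · simp [E, hji, this]
    have hb3 : ∑ k ∈ T, (x + E i) k = d + 1 := by
      simp only [Pi.add_apply, Finset.sum_add_distrib]
      rw [h3, hEi]
    have hbi : (x + E i) i = x i + 1 := by simp [E]
    obtain ⟨hneu, hpred⟩ := hN (x + E i) hb1 hb2 hb3 (by rw [hbi]; omega) (by rw [hbi]; omega)
    have hAk : ∀ k ∈ T, k ≠ i → 1 ≤ x k →
        ((∀ j, j ∉ T → (x + E i - E k) j = 0) ∧ (∀ j, 0 ≤ (x + E i - E k) j) ∧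
          ∑ l ∈ T, (x + E i - E k) l = d ∧ t ≤ (x + E i - E k) i) := by
      intro k hk hki hxk
      have hEk : ∑ l ∈ T, (E k : ι → ℤ) l = 1 := by
        simp [E, Finset.sum_pi_single', hk]
      refine ⟨?_, ?_, ?_, ?_⟩
      · intro j hj
        have : j ≠ k := fun h => hj (h ▸ hk)
        have h' := hb1 j hj
        simp only [Pi.sub_apply]
        rw [h']
        simp [E, this]
      · intro j
        have h' := hb2 j
        simp only [Pi.sub_apply]
        by_cases hjk : j = k
        · subst hjk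
          simp [E, hki]
          omega
        · simp [E, hjk] at h' ⊢
          exact h'
      · simp only [Pi.sub_apply, Finset.sum_sub_distrib]
        rw [hb3, hEk]; ring
      · simp only [Pi.sub_apply]
        rw [hbi]
        simp [E, Ne.symm hki]
        omega
    refine ⟨hneu, ?_, ?_⟩
    · -- some k ≠ i with x k ≥ 1
      have hsum : 0 < ∑ k ∈ T.erase i, x k := by
        have := Finset.add_sum_erase T x hi
        omega
      obtain ⟨k, hk, hxk⟩ := Finset.exists_lt_of_sum_lt (s := T.erase i) (f := fun _ => (0:ℤ))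
        (g := x) (by simpa using hsum)
      rw [Finset.mem_erase] at hk
      exact ⟨k, hk.2, hk.1, hAk k hk.2 hk.1 hxk⟩
    · intro k hk hki
      by_cases hxk : 1 ≤ x k
      · left; exact hAk k hk hki hxk
      · right; left
        apply hpred k hk
        have := h2 k
        simp [E, hki]
        omega

end SignPat
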