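import Mathlib
import Pool.Agent.Work.MP_39acf6_an.H80Core
import Pool.Agent.Work.MP_39acf6_an.H80Prop
import Pool.Agent.Work.MP_39acf6_an.H80Norm

/-!
# Lemma B (MP_39acf6_an, lower bound)
-/

set_option autoImplicit false
set_option linter.unusedSectionVars false
set_option linter.unusedSimpArgs false

namespace SignPat

open Finset

variable {ι : Type*} [Fintype ι] [DecidableEq ι]
variable {S : Finset ι} {d : ℤ} {P M : Finset (ι → ℤ)}

theorem E_same (k : ι) : (E k : ι → ℤ) k = 1 := by simp [E]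

theorem E_ne {k j : ι} (h : j ≠ k) : (E k : ι → ℤ) j = 0 := by simp [E, Pi.single_eq_of_ne h]

theorem E_nonneg (k j : ι) : 0 ≤ (E k : ι → ℤ) j := by
  by_cases h : j = k
  · subst h; rw [E_same]; norm_num
  · rw [E_ne h]

theorem unc_empty_of (h : Pat S d P M)
    (U1 : ∀ i ∈ S, ((cost S P M).filter (fun c => 1 ≤ c i)).card + 1 ≤ S.card) :
    unc S P M = ∅ := by
  rw [Finset.eq_empty_iff_forall_notMem]
  intro q hq
  have hd := h.d_nonneg
  have hqdeg : ∑ k ∈ S, q k = d + 1 := deg_up h.degM q (mem_sdiff.1 hq).1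
  obtain ⟨i, hi, hqi⟩ := Finset.exists_lt_of_sum_lt (s := S) (f := fun _ => (0:ℤ))
    (g := q) (by simp; omega)
  have hsub : S.image (fun k => q + E k) ⊆ (cost S P M).filter (fun c => 1 ≤ c i) := by
    intro c hc
    obtain ⟨k, hk, rfl⟩ := mem_image.1 hc
    rw [mem_filter]
    refine ⟨mem_union_right _ (add_mem_up hq hk), ?_⟩
    have := E_nonneg k i
    simp only [Pi.add_apply]
    omega
  have hcard : (S.image (fun k => q + E k)).card = S.card := by
    apply Finset.card_image_of_injective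
    intro a b hab
    exact E_inj (add_left_cancel hab)
  have h1 := card_le_card hsub
  have h2 := U1 i hi
  omega

/-- structure at an element of `P` with a negative coordinate. -/
theorem neg_corner (h : Pat S d P M)
    (U1 : ∀ i ∈ S, ((cost S P M).filter (fun c => 1 ≤ c i)).card + 1 ≤ S.card)
    (U2 : ∀ p ∈ P, ∀ s ∈ S, p s = -1 → ∀ i ∈ S, ∀ j ∈ S, i ≠ j → 1 ≤ p i → 1 ≤ p j → False)
    {p : ι → ℤ} (hp : p ∈ P) {s : ι} (hps : p s < 0) :
    s ∈ S ∧ p s = -1 ∧ ∃ i ∈ S, i ≠ s ∧ p + E s = Pi.single i (d + 1) ∧ Pi.single i d ∈ M ∧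
      (∀ c ∈ cost S P M, 1 ≤ c i → c s = -1) ∧ ∀ k ∈ S, k ≠ s → p + E k ∈ cost S P M := by
  have hd := h.d_nonneg
  obtain ⟨k, hk, hk1, hk2, ⟨r, hr, hm⟩, hpr⟩ := h.priv' hp
  have hsk : s = k := by
    by_contra hsk
    have := hk1 s hsk
    omega
  subst hsk
  have hps1 : p s = -1 := by omega
  refine ⟨hk, hps1, ?_⟩
  have hsum : ∑ j ∈ S.erase s, p j = d + 1 := by
    have := Finset.add_sum_erase S p hk
    have := h.degP p hp
    omega
  obtain ⟨i, hi, hpi⟩ := Finset.exists_lt_of_sum_lt (s := S.erase s) (f := fun _ => (0:ℤ))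
    (g := p) (by simp; omega)
  rw [mem_erase] at hi
  have hpz : ∀ j ∈ S, j ≠ i → j ≠ s → p j = 0 := by
    intro j hj hji hjs
    by_contra hne
    have h1 := hk1 j hjs
    exact U2 p hp s hk hps1 j hj i hi.2 hji (by omega) (by omega)
  have hpe : p + E s = Pi.single i (d + 1) := by
    apply eq_single hi.2
    · intro t ht
      have : t ≠ s := fun e => ht (e ▸ hk)
      simp only [Pi.add_apply, E_ne this]
      rw [h.flatP p hp t ht]; ring
    · simp only [Pi.add_apply, Finset.sum_add_distrib]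
      rw [h.degP p hp, sum_E hk]
    · intro j hj hji
      by_cases hjs : j = s
      · subst hjs; simp only [Pi.add_apply, E_same]; omega
      · simp only [Pi.add_apply, E_ne hjs]; rw [hpz j hj hji hjs]; ring
  have hcost : ∀ k ∈ S, k ≠ s → p + E k ∈ cost S P M := by
    intro k hkS hks
    refine mem_union_left _ (mem_sdiff.2 ⟨add_mem_up hp hkS, ?_⟩)
    intro hM
    obtain ⟨l, hl, hlM⟩ := mem_up.1 hM
    have h1 := h.nonneg _ hlM s
    have h2 := E_nonneg l s
    simp only [Pi.sub_apply, Pi.add_apply, E_ne (Ne.symm hks)] at h1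
    omega
  refine ⟨i, hi.2, hi.1, hpe, ?_, ?_, hcost⟩
  · rw [hpe] at hm
    have hri : r = i := by
      by_contra hri
      have := h.nonneg _ hm r
      simp only [Pi.sub_apply, E_same, Pi.single_eq_of_ne hri] at this
      omega
    rw [hri] at hm
    have : (Pi.single i (d + 1) : ι → ℤ) - E i = Pi.single i d := by
      have h3 : (Pi.single i (d + 1) : ι → ℤ) = Pi.single i d + Pi.single i 1 := by
        rw [← Pi.single_add]
      rw [h3]; simp [E]
    rwa [this] at hm
  · -- the cost elements with c i ≥ 1 are exactly p + E k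
    have hsub : (S.erase s).image (fun k => p + E k) ⊆
        (cost S P M).filter (fun c => 1 ≤ c i) := by
      intro c hc
      obtain ⟨k, hkS, rfl⟩ := mem_image.1 hc
      rw [mem_erase] at hkS
      rw [mem_filter]
      refine ⟨hcost k hkS.2 hkS.1, ?_⟩
      have := E_nonneg k i
      simp only [Pi.add_apply]
      omega
    have hcard : ((S.erase s).image (fun k => p + E k)).card = S.card - 1 := by
      rw [Finset.card_image_of_injective, card_erase_of_mem hk]
      intro a b hab
      exact E_inj (add_left_cancel hab)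
    have hU := U1 i hi.2
    have heq := Finset.eq_of_subset_of_card_le hsub (by rw [hcard]; omega)
    intro c hc hci
    have hc' : c ∈ (cost S P M).filter (fun c => 1 ≤ c i) := mem_filter.2 ⟨hc, hci⟩
    rw [← heq] at hc'
    obtain ⟨k, hkS, rfl⟩ := mem_image.1 hc'
    rw [mem_erase] at hkS
    simp only [Pi.add_apply, E_ne (Ne.symm hkS.1)]
    omega

/-- Lemma B. -/
theorem lemmaB (hS : 3 ≤ S.card) (h : Pat S d P M)
    (U1 : ∀ i ∈ S, ((cost S P M).filter (fun c => 1 ≤ c i)).card + 1 ≤ S.card)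
    (U2 : ∀ p ∈ P, ∀ s ∈ S, p s = -1 → ∀ i ∈ S, ∀ j ∈ S, i ≠ j → 1 ≤ p i → 1 ≤ p j → False) :
    up S M ⊆ up S P ∧ (∀ p ∈ P, ∀ j, 0 ≤ p j) ∧ 1 ≤ d := by
  have hd := h.d_nonneg
  have hdis := Finset.disjoint_left.1 h.disj
  have hunc := unc_empty_of h U1
  have hQ : up S M ⊆ up S P := by
    intro c hc
    by_contra hcon
    have : c ∈ unc S P M := mem_sdiff.2 ⟨hc, hcon⟩
    rw [hunc] at this
    exact absurd this (Finset.notMem_empty c)
  have hsingle : ∀ (i : ι) (a b : ℤ),
      (Pi.single i a : ι → ℤ) + Pi.single i b = Pi.single i (a + b) := by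
    intro i a b; rw [← Pi.single_add]
  -- d ≥ 1
  have hd1 : 1 ≤ d := by
    by_contra hcon
    have hd0 : d = 0 := by omega
    have hM0 : ∀ m ∈ M, m = 0 := by
      intro m hm
      funext j
      by_cases hj : j ∈ S
      · have h1 := h.degM m hm
        rw [hd0] at h1
        exact (Finset.sum_eq_zero_iff_of_nonneg (fun k _ => h.nonneg m hm k)).1 h1 j hj
      · exact h.flatM m hm j hj
    have h0M : (0 : ι → ℤ) ∈ M := by
      obtain ⟨m, hm⟩ := h.ne
      rw [← hM0 m hm]; exact hm
    have hex : ∀ j ∈ S, ∃ l ∈ S, l ≠ j ∧ (E j - E l : ι → ℤ) ∈ P := by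
      intro j hj
      have h1 : (E j : ι → ℤ) ∈ up S M := by
        have := add_mem_up h0M hj
        simpa using this
      obtain ⟨l, hl, hlP⟩ := mem_up.1 (hQ h1)
      refine ⟨l, hl, ?_, hlP⟩
      rintro rfl
      rw [sub_self] at hlP
      exact hdis hlP h0M
    have hex' : ∀ j : ι, ∃ l : ι, j ∈ S → l ∈ S ∧ l ≠ j ∧ (E j - E l : ι → ℤ) ∈ P := by
      intro j
      by_cases hj : j ∈ S
      · obtain ⟨l, h1, h2, h3⟩ := hex j hj
        exact ⟨l, fun _ => ⟨h1, h2, h3⟩⟩
      · exact ⟨j, fun h => absurd h hj⟩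
    choose σ hσ using hex'
    have hfact : ∀ j ∈ S, (∀ c ∈ cost S P M, 1 ≤ c j → c (σ j) = -1) ∧
        ∀ k ∈ S, k ≠ σ j → E j - E (σ j) + E k ∈ cost S P M := by
      intro j hj
      obtain ⟨h1, h2, h3⟩ := hσ j hj
      have hneg : (E j - E (σ j) : ι → ℤ) (σ j) < 0 := by
        simp only [Pi.sub_apply, E_same, E_ne h2]; norm_num
      obtain ⟨_, _, i, hi, his, hpe, _, hc1, hc2⟩ := neg_corner h U1 U2 h3 hneg
      have hij : i = j := by
        have h4 : (E j : ι → ℤ) = Pi.single i (d + 1) := by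
          rw [← hpe]; abel
        rw [hd0] at h4
        have h5 : (E j : ι → ℤ) = E i := by rw [h4]; rfl
        exact (E_inj h5).symm
      subst hij
      exact ⟨hc1, hc2⟩
    have hprop : ∀ j ∈ S, ∀ k ∈ S, j ≠ k → k ≠ σ j → σ k = σ j := by
      intro j hj k hk hjk hkσ
      have hc := (hfact j hj).2 k hk hkσ
      have hck : (1 : ℤ) ≤ (E j - E (σ j) + E k : ι → ℤ) k := by
        simp only [Pi.add_apply, Pi.sub_apply, E_same, E_ne (Ne.symm hjk), E_ne hkσ]; norm_num
      have := (hfact k hk).1 _ hc hck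
      by_contra hne
      simp only [Pi.add_apply, Pi.sub_apply, E_ne hne] at this
      have h1 := E_nonneg j (σ k)
      have h2 := E_nonneg k (σ k)
      omega
    obtain ⟨j0, hj0⟩ : S.Nonempty := card_pos.1 (by omega)
    obtain ⟨hs1, hs2, _⟩ := hσ j0 hj0
    obtain ⟨ht1, ht2, _⟩ := hσ (σ j0) hs1
    have hk : ∃ k ∈ S, k ≠ σ j0 ∧ k ≠ σ (σ j0) := by
      by_contra hcon
      push Not at hcon
      have hsub : S ⊆ {σ j0, σ (σ j0)} := by
        intro k hk
        rw [mem_insert, mem_singleton]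
        by_cases hk1 : k = σ j0
        · exact Or.inl hk1
        · exact Or.inr (hcon k hk hk1)
      have := (card_le_card hsub).trans (card_le_two)
      omega
    obtain ⟨k, hkS, hk1, hk2⟩ := hk
    have e1 : σ k = σ j0 := by
      by_cases hkj : k = j0
      · rw [hkj]
      · exact hprop j0 hj0 k hkS (Ne.symm hkj) hk1
    have e2 : σ k = σ (σ j0) := hprop (σ j0) hs1 k hkS (Ne.symm hk1) hk2
    exact ht2 (e2.symm.trans e1)
  refine ⟨hQ, ?_, hd1⟩
  intro p hp s
  by_contra hneg
  push Not at hneg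
  obtain ⟨hs, hps, i, hi, his, hpe, hdM, hcost1, _⟩ := neg_corner h U1 U2 hp hneg
  have hs3 : ∀ x, sg P M x = 1 ∨ sg P M x = -1 ∨ sg P M x = 0 := sg_three P M
  have hprop := prop (T := S) (i := i) hi (d := d) (s := sg P M) hs3 0 (by
    intro β hβ1 hβ2 hβ3 hβ4 hβ5
    constructor
    · apply neutral_of h.disj
      · intro hβs
        have := hcost1 β (mem_union_left _ hβs) (by omega)
        have := hβ2 s
        omega
      · rw [hunc]; exact Finset.notMem_empty β
    · intro k hk hβk
      rw [sg_eq_zero]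
      have hki : k ≠ i := by rintro rfl; omega
      constructor
      · intro hkP
        -- another positive coordinate
        have hsum : ∑ j ∈ S.erase i, β j = d + 1 - β i := by
          have := Finset.add_sum_erase S β hi
          omega
        obtain ⟨j, hj, hβj⟩ := Finset.exists_lt_of_sum_lt (s := S.erase i) (f := fun _ => (0:ℤ))
          (g := β) (by simp; omega)
        rw [mem_erase] at hj
        have hjk : j ≠ k := by rintro rfl; omega
        refine U2 _ hkP k hk ?_ i hi j hj.2 (Ne.symm hj.1) ?_ ?_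
        · simp only [Pi.sub_apply, E_same]; omega
        · simp only [Pi.sub_apply, E_ne (Ne.symm hki)]; omega
        · simp only [Pi.sub_apply, E_ne hjk]; omega
      · intro hkM
        have := h.nonneg _ hkM k
        simp only [Pi.sub_apply, E_same] at this
        omega)
  have hsd : sg P M (Pi.single i d) = -1 := (sg_eq_neg_one h.disj).2 hdM
  rw [hsd] at hprop
  obtain ⟨m, hm, hmi⟩ := h.touch i hi
  have hm1 := hprop m (h.flatM m hm) (h.nonneg m hm) (h.degM m hm) (by omega)
  rw [(sg_eq_neg_one h.disj).2 hm, hmi] at hm1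
  have hpow : (-1 : ℤ) ^ (d - 0).toNat = 1 := by linarith
  have hlev0 : ∀ x : ι → ℤ, (∀ j, j ∉ S → x j = 0) → (∀ j, 0 ≤ x j) → ∑ k ∈ S, x k = d →
      x i = 0 → x ∈ M := by
    intro x h1 h2 h3 h4
    have h5 := hprop x h1 h2 h3 (by omega)
    rw [h4, hpow] at h5
    exact (sg_eq_neg_one h.disj).1 (by rw [h5]; norm_num)
  -- two further variables
  have h2 : 2 ≤ (S.erase i).card := by rw [card_erase_of_mem hi]; omega
  obtain ⟨j, hj, k, hk, hjk⟩ := Finset.one_lt_card.1 (by omega : 1 < (S.erase i).card)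
  rw [mem_erase] at hj hk
  have hsj : ∀ t, (Pi.single j d : ι → ℤ) t = if t = j then d else 0 := by
    intro t; simp [Pi.single_apply]
  have hx : (Pi.single j d : ι → ℤ) ∈ M := by
    apply hlev0
    · intro t ht
      have : t ≠ j := fun e => ht (e ▸ hj.2)
      rw [hsj, if_neg this]
    · intro t; rw [hsj]; split_ifs <;> omega
    · simp [Finset.sum_pi_single', hj.2]
    · rw [hsj, if_neg (Ne.symm hj.1)]
  obtain ⟨l, hl, hlP⟩ := mem_up.1 (hQ (add_mem_up hx hk.2))
  by_cases hlk : l = k
  · subst hlk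
    rw [add_sub_cancel_right] at hlP
    exact hdis hlP hx
  by_cases hlj : l = j
  · subst hlj
    apply hdis hlP
    apply hlev0
    · exact h.flatP _ hlP
    · intro t
      simp only [Pi.sub_apply, Pi.add_apply, hsj]
      by_cases htl : t = l
      · subst htl; rw [if_pos rfl, E_same, E_ne hjk]; omega
      · rw [if_neg htl, E_ne htl]
        have := E_nonneg k t
        omega
    · exact h.degP _ hlP
    · simp only [Pi.sub_apply, Pi.add_apply, hsj, if_neg (Ne.symm hj.1), E_ne (Ne.symm hj.1),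
        E_ne (Ne.symm hk.1)]
      ring
  · refine U2 _ hlP l hl ?_ j hj.2 k hk.2 hjk ?_ ?_
    · simp only [Pi.sub_apply, Pi.add_apply, hsj, if_neg hlj, E_same, E_ne hlk]; ring
    · simp only [Pi.sub_apply, Pi.add_apply, hsj, if_true, E_ne hjk, E_ne (Ne.symm hlj)]
      omega
    · simp only [Pi.sub_apply, Pi.add_apply, hsj, if_neg (Ne.symm hjk), E_same,
        E_ne (Ne.symm hlk)]
      omega

end SignPat
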