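import Mathlib
import Pool.Agent.Work.MP_39acf6_an.H80LemmaB

/-!
# Four variables (MP_39acf6_an, lower bound)
-/

set_option autoImplicit false
set_option linter.unusedSectionVars false
set_option linter.unusedSimpArgs false

namespace SignPat

open Finset

variable {ι : Type*} [Fintype ι] [DecidableEq ι]
variable {S : Finset ι} {d : ℤ} {P M : Finset (ι → ℤ)}

theorem card_pos_part (C : Finset (ι → ℤ)) (i : ι) :
    (C.filter (fun c => c i ≤ 0)).card + (C.filter (fun c => 1 ≤ c i)).card = C.card := by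
  rw [← Finset.card_filter_add_card_filter_not (s := C) (fun c => c i ≤ 0)]
  congr 2
  ext c
  simp only [mem_filter, not_le]
  constructor
  · rintro ⟨a, b⟩; exact ⟨a, by omega⟩
  · rintro ⟨a, b⟩; exact ⟨a, by omega⟩

/-- context for the four variable argument -/
structure Ctx4 (S : Finset ι) (d : ℤ) (P M : Finset (ι → ℤ)) : Prop where
  pat : Pat S d P M
  card : S.card = 4
  cov : up S M ⊆ up S P
  Pnn : ∀ p ∈ P, ∀ j, 0 ≤ p j
  d1 : 1 ≤ d
  cor : ∀ i ∈ S, Pi.single i d ∈ P
  /-- only the corner has a single positive coordinate; at most two positive coordinates. -/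
  two : ∀ c ∈ cost S P M, ∀ i ∈ S, ∀ j ∈ S, ∀ k ∈ S, i ≠ j → i ≠ k → j ≠ k →
    1 ≤ c i → 1 ≤ c j → c k ≤ 0
  three : ∀ i ∈ S, ((cost S P M).filter (fun c => 1 ≤ c i)).card = 3

theorem ctx4_of (hS : S.card = 4) (h : Pat S d P M)
    (H3 : ∀ i ∈ S, 5 ≤ ((cost S P M).filter (fun c => c i ≤ 0)).card)
    (hN : (cost S P M).card ≤ 8) : Ctx4 S d P M := by
  have hav := average h
  have hC1 := card_C1_le h
  rw [hS] at hav hC1
  have hsum : 20 ≤ ∑ i ∈ S, ((cost S P M).filter (fun c => c i ≤ 0)).card := by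
    calc 20 = ∑ i ∈ S, 5 := by rw [Finset.sum_const, hS]; rfl
      _ ≤ _ := Finset.sum_le_sum H3
  have hC3 : (C3 S P M).card = 0 := by omega
  have hN8 : (cost S P M).card = 8 := by omega
  have hC14 : (C1 S P M).card = 4 := by omega
  have hsum' : ∑ i ∈ S, ((cost S P M).filter (fun c => c i ≤ 0)).card = ∑ i ∈ S, 5 := by
    rw [Finset.sum_const, hS]
    simp only [smul_eq_mul]
    omega
  have hs5 : ∀ i ∈ S, ((cost S P M).filter (fun c => c i ≤ 0)).card = 5 := by
    intro i hi
    exact ((Finset.sum_eq_sum_iff_of_le H3).1 hsum'.symm i hi).symm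
  have hthree : ∀ i ∈ S, ((cost S P M).filter (fun c => 1 ≤ c i)).card = 3 := by
    intro i hi
    have h1 := card_pos_part (cost S P M) i
    have h2 := hs5 i hi
    omega
  have htwo : ∀ c ∈ cost S P M, ∀ i ∈ S, ∀ j ∈ S, ∀ k ∈ S, i ≠ j → i ≠ k → j ≠ k →
      1 ≤ c i → 1 ≤ c j → c k ≤ 0 := by
    intro c hc i hi j hj k hk hij hik hjk hci hcj
    by_contra hck
    push Not at hck
    have hmem : c ∈ C3 S P M := by
      rw [C3, mem_filter]
      refine ⟨hc, ?_⟩
      have hsub : ({i, j, k} : Finset ι) ⊆ S.filter (fun i => 1 ≤ c i) := by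
        intro t ht
        simp only [mem_insert, mem_singleton] at ht
        rw [mem_filter]
        rcases ht with rfl | rfl | rfl
        · exact ⟨hi, hci⟩
        · exact ⟨hj, hcj⟩
        · exact ⟨hk, by omega⟩
      have hc3 : ({i, j, k} : Finset ι).card = 3 := by
        rw [Finset.card_eq_three]
        exact ⟨i, j, k, hij, hik, hjk, rfl⟩
      rw [← hc3]
      exact card_le_card hsub
    rw [Finset.card_eq_zero] at hC3
    rw [hC3] at hmem
    exact absurd hmem (Finset.notMem_empty c)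
  have hB := lemmaB (by omega) h (by intro i hi; rw [hthree i hi, hS]) (by
    intro p hp s hs hps i hi j hj hij hpi hpj
    have his : i ≠ s := by rintro rfl; omega
    have hjs : j ≠ s := by rintro rfl; omega
    -- a fourth variable
    have hk : ∃ k ∈ S, k ≠ s ∧ k ≠ i ∧ k ≠ j := by
      by_contra hcon
      push Not at hcon
      have hsub : S ⊆ {s, i, j} := by
        intro k hk
        simp only [mem_insert, mem_singleton]
        by_cases hk1 : k = s
        · exact Or.inl hk1
        · by_cases hk2 : k = i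
          · exact Or.inr (Or.inl hk2)
          · exact Or.inr (Or.inr (hcon k hk hk1 hk2))
      have := (card_le_card hsub).trans (card_le_three)
      omega
    obtain ⟨k, hk, hks, hki, hkj⟩ := hk
    obtain ⟨k', _, hk1, _, _, _⟩ := h.priv' hp
    have hsk' : s = k' := by
      by_contra hne
      have := hk1 s hne
      omega
    have hpk : 0 ≤ p k := hk1 k (by rw [← hsk']; exact hks)
    have hc : p + E k ∈ cost S P M := by
      refine mem_union_left _ (mem_sdiff.2 ⟨add_mem_up hp hk, ?_⟩)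
      intro hM
      obtain ⟨l, hl, hlM⟩ := mem_up.1 hM
      have h1 := h.nonneg _ hlM s
      have h2 := E_nonneg l s
      simp only [Pi.sub_apply, Pi.add_apply, E_ne (Ne.symm hks)] at h1
      omega
    have h3 := htwo _ hc i hi j hj k hk hij (Ne.symm hki) (Ne.symm hkj)
      (by simp only [Pi.add_apply, E_ne (Ne.symm hki)]; omega)
      (by simp only [Pi.add_apply, E_ne (Ne.symm hkj)]; omega)
    simp only [Pi.add_apply, E_same] at h3
    omega)
  obtain ⟨hQ, hPnn, hd1⟩ := hB
  refine ⟨h, hS, hQ, hPnn, hd1, ?_, htwo, hthree⟩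
  intro i hi
  -- the corner filter is nonempty
  have hex : ∃ c ∈ cost S P M, ∀ j ∈ S, j ≠ i → c j ≤ 0 := by
    by_contra hcon
    push Not at hcon
    have hsub : C1 S P M ⊆ (S.erase i).biUnion
        (fun i => (cost S P M).filter (fun c => ∀ j ∈ S, j ≠ i → c j ≤ 0)) := by
      intro c hc
      rw [C1, mem_filter] at hc
      obtain ⟨hc, l, hl, hcl⟩ := hc
      refine mem_biUnion.2 ⟨l, mem_erase.2 ⟨?_, hl⟩, mem_filter.2 ⟨hc, hcl⟩⟩
      rintro rfl
      obtain ⟨j, hj, hji, hcj⟩ := hcon c hc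
      have := hcl j hj hji
      omega
    have h1 := card_le_card hsub
    have h2 : ((S.erase i).biUnion
        (fun i => (cost S P M).filter (fun c => ∀ j ∈ S, j ≠ i → c j ≤ 0))).card ≤
        (S.erase i).card * 1 :=
      card_biUnion_le_card_mul _ _ _ (fun i hi => corner_unique h (mem_of_mem_erase hi))
    rw [card_erase_of_mem hi] at h2
    omega
  obtain ⟨c, hc, hci⟩ := hex
  rcases corner_class h hi hc hci with ⟨_, h2⟩ | ⟨k, hk, hki, _, h2, _, _⟩ | ⟨_, h2, h3⟩
  · exact h2
  · exfalso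
    have := hPnn _ h2 k
    simp only [Pi.sub_apply, E_same, Pi.single_eq_of_ne hki] at this
    omega
  · exfalso
    apply h3
    apply hQ
    have : (Pi.single i (d + 1) : ι → ℤ) = Pi.single i d + E i := by
      rw [show (E i : ι → ℤ) = Pi.single i 1 from rfl, ← Pi.single_add]
    rw [this]
    exact add_mem_up h2 hi

namespace Ctx4

theorem unc_empty (H : Ctx4 S d P M) : unc S P M = ∅ := by
  unfold unc
  exact sdiff_eq_empty_iff_subset.2 H.cov

theorem mem_cost (H : Ctx4 S d P M) {c : ι → ℤ} : c ∈ cost S P M ↔ c ∈ sinks S P M := by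
  unfold cost
  rw [H.unc_empty]
  simp [up]

theorem deg (H : Ctx4 S d P M) {c : ι → ℤ} (hc : c ∈ cost S P M) : ∑ k ∈ S, c k = d + 1 :=
  deg_sinks H.pat.degP c (H.mem_cost.1 hc)

theorem nonneg (H : Ctx4 S d P M) {c : ι → ℤ} (hc : c ∈ cost S P M) (j : ι) : 0 ≤ c j := by
  obtain ⟨k, hk, hkP⟩ := mem_up.1 (mem_sdiff.1 (H.mem_cost.1 hc)).1
  have h1 := H.Pnn _ hkP j
  have h2 := E_nonneg k j
  simp only [Pi.sub_apply] at h1
  omega

theorem flat (H : Ctx4 S d P M) {c : ι → ℤ} (hc : c ∈ cost S P M) {j : ι} (hj : j ∉ S) :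
    c j = 0 := by
  obtain ⟨k, hk, hkP⟩ := mem_up.1 (mem_sdiff.1 (H.mem_cost.1 hc)).1
  have h1 := H.pat.flatP _ hkP j hj
  have : j ≠ k := fun e => hj (e ▸ hk)
  simp only [Pi.sub_apply, E_ne this] at h1
  omega

theorem sg_neg (H : Ctx4 S d P M) {x : ι → ℤ} {k : ι} (hk : x k < 0) : sg P M x = 0 := by
  rw [sg_eq_zero]
  constructor
  · intro hx; have := H.Pnn x hx k; omega
  · intro hx; have := H.pat.nonneg x hx k; omega

theorem neutral_face (H : Ctx4 S d P M) {T : Finset ι} (hT : T ⊆ S) {β : ι → ℤ}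
    (hβT : ∀ j, j ∉ T → β j = 0) (hβ : β ∉ cost S P M) : Neutral T (sg P M) β := by
  have h1 : Neutral S (sg P M) β := by
    apply neutral_of H.pat.disj
    · intro h; exact hβ (H.mem_cost.2 h)
    · rw [H.unc_empty]; exact Finset.notMem_empty β
  have hz : ∀ k ∈ S, k ∉ T → sg P M (β - E k) = 0 := by
    intro k hk hkT
    apply H.sg_neg (k := k)
    simp only [Pi.sub_apply, E_same, hβT k hkT]; norm_num
  have hiff : ∀ v : ℤ, v ≠ 0 → ((∃ k ∈ S, sg P M (β - E k) = v) ↔
      (∃ k ∈ T, sg P M (β - E k) = v)) := by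
    intro v hv
    constructor
    · rintro ⟨k, hk, hkv⟩
      by_cases hkT : k ∈ T
      · exact ⟨k, hkT, hkv⟩
      · rw [hz k hk hkT] at hkv; exact absurd hkv.symm hv
    · rintro ⟨k, hk, hkv⟩; exact ⟨k, hT hk, hkv⟩
  unfold Neutral at h1 ⊢
  rw [← hiff 1 (by norm_num), ← hiff (-1) (by norm_num)]
  exact h1

/-- propagation on a face -/
theorem face_prop (H : Ctx4 S d P M) {T : Finset ι} (hT : T ⊆ S) {i : ι} (hi : i ∈ T) (t : ℤ)
    (hN : ∀ β ∈ cost S P M, (∀ j, j ∉ T → β j = 0) → t < β i → β i ≤ d → False) :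
    ∀ x : ι → ℤ, (∀ j, j ∉ T → x j = 0) → (∀ j, 0 ≤ x j) → ∑ k ∈ T, x k = d → t ≤ x i →
      sg P M x = (-1) ^ (d - x i).toNat := by
  intro x h1 h2 h3 h4
  have := prop (T := T) hi (d := d) (s := sg P M) (sg_three P M) t (by
    intro β hβ1 hβ2 hβ3 hβ4 hβ5
    refine ⟨H.neutral_face hT hβ1 (fun hc => hN β hc hβ1 hβ4 hβ5), ?_⟩
    intro k hk hβk
    apply H.sg_neg (k := k)
    simp only [Pi.sub_apply, E_same, hβk]; norm_num) x h1 h2 h3 h4
  rw [this, sg_eq_one.2 (H.cor i (hT hi)), mul_one]

/-- the cost elements supported on the pair `i, j` -/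
def K (S : Finset ι) (P M : Finset (ι → ℤ)) (i j : ι) : Finset (ι → ℤ) :=
  (cost S P M).filter (fun c => 1 ≤ c i ∧ 1 ≤ c j)

theorem K_comm (i j : ι) : K S P M i j = K S P M j i := by
  unfold K
  congr 1
  ext c
  exact and_comm

theorem corner_mem (H : Ctx4 S d P M) {i : ι} (hi : i ∈ S) :
    Pi.single i (d + 1) ∈ cost S P M := by
  have hd := H.d1
  rw [H.mem_cost]
  have heq : (Pi.single i (d + 1) : ι → ℤ) = Pi.single i d + E i := by
    rw [show (E i : ι → ℤ) = Pi.single i 1 from rfl, ← Pi.single_add]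
  refine mem_sdiff.2 ⟨?_, ?_⟩
  · rw [heq]; exact add_mem_up (H.cor i hi) hi
  · intro hM
    obtain ⟨l, hl, hlM⟩ := mem_up.1 hM
    by_cases hli : l = i
    · subst hli
      rw [heq, add_sub_cancel_right] at hlM
      exact Finset.disjoint_left.1 H.pat.disj (H.cor l hl) hlM
    · have := H.pat.nonneg _ hlM l
      simp only [Pi.sub_apply, E_same, Pi.single_eq_of_ne hli] at this
      omega

/-- a cost element with only `i` positive is the corner. -/
theorem eq_corner (H : Ctx4 S d P M) {i : ι} (hi : i ∈ S) {c : ι → ℤ} (hc : c ∈ cost S P M)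
    (h0 : ∀ j ∈ S, j ≠ i → c j ≤ 0) : c = Pi.single i (d + 1) := by
  apply eq_single hi (fun j hj => H.flat hc hj) (H.deg hc)
  intro j hj hji
  exact le_antisymm (h0 j hj hji) (H.nonneg hc j)

/-- `∑_{j ≠ i} |K i j| ≤ 2` in the form needed: two disjoint nonempty `K`'s... -/
theorem card_K_add (H : Ctx4 S d P M) {i j k : ι} (hi : i ∈ S) (hj : j ∈ S) (hk : k ∈ S)
    (hij : i ≠ j) (hik : i ≠ k) (hjk : j ≠ k) :
    (K S P M i j).card + (K S P M i k).card ≤ 2 := by
  have hdisj : Disjoint (K S P M i j) (K S P M i k) := by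
    rw [Finset.disjoint_left]
    intro c h1 h2
    rw [K, mem_filter] at h1 h2
    have := H.two c h1.1 i hi j hj k hk hij hik hjk h1.2.1 h1.2.2
    have := h2.2.2
    omega
  have hsub : K S P M i j ∪ K S P M i k ⊆
      ((cost S P M).filter (fun c => 1 ≤ c i)).erase (Pi.single i (d + 1)) := by
    intro c hc
    rw [mem_erase, mem_filter]
    rw [mem_union, K, K, mem_filter, mem_filter] at hc
    rcases hc with hc | hc
    · refine ⟨?_, hc.1, hc.2.1⟩
      rintro rfl
      have := hc.2.2
      rw [Pi.single_eq_of_ne (Ne.symm hij)] at this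
      omega
    · refine ⟨?_, hc.1, hc.2.1⟩
      rintro rfl
      have := hc.2.2
      rw [Pi.single_eq_of_ne (Ne.symm hik)] at this
      omega
  have hd := H.d1
  have hmem : Pi.single i (d + 1) ∈ (cost S P M).filter (fun c => 1 ≤ c i) := by
    rw [mem_filter]
    refine ⟨H.corner_mem hi, ?_⟩
    rw [Pi.single_eq_same]; omega
  have h1 := card_le_card hsub
  rw [card_erase_of_mem hmem, H.three i hi, card_union_of_disjoint hdisj] at h1
  exact h1

theorem card_K_add3 (H : Ctx4 S d P M) {i j k l : ι} (hi : i ∈ S) (hj : j ∈ S) (hk : k ∈ S)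
    (hl : l ∈ S)
    (hij : i ≠ j) (hik : i ≠ k) (hil : i ≠ l) (hjk : j ≠ k) (hjl : j ≠ l) (hkl : k ≠ l) :
    (K S P M i j).card + (K S P M i k).card + (K S P M i l).card ≤ 2 := by
  have hdisj : Disjoint (K S P M i j) (K S P M i k) := by
    rw [Finset.disjoint_left]
    intro c h1 h2
    rw [K, mem_filter] at h1 h2
    have := H.two c h1.1 i hi j hj k hk hij hik hjk h1.2.1 h1.2.2
    have := h2.2.2
    omega
  have hdisj2 : Disjoint (K S P M i j ∪ K S P M i k) (K S P M i l) := by
    rw [Finset.disjoint_left]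
    intro c h1 h2
    rw [K, mem_filter] at h2
    rw [mem_union, K, mem_filter, K, mem_filter] at h1
    rcases h1 with h1 | h1
    · have := H.two c h1.1 i hi j hj l hl hij hil hjl h1.2.1 h1.2.2
      have := h2.2.2
      omega
    · have := H.two c h1.1 i hi k hk l hl hik hil hkl h1.2.1 h1.2.2
      have := h2.2.2
      omega
  have hd := H.d1
  have hsub : K S P M i j ∪ K S P M i k ∪ K S P M i l ⊆
      ((cost S P M).filter (fun c => 1 ≤ c i)).erase (Pi.single i (d + 1)) := by
    intro c hc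
    rw [mem_erase, mem_filter]
    rw [mem_union, mem_union, K, K, K, mem_filter, mem_filter, mem_filter] at hc
    rcases hc with (hc | hc) | hc
    · refine ⟨?_, hc.1, hc.2.1⟩
      rintro rfl
      have := hc.2.2
      rw [Pi.single_eq_of_ne (Ne.symm hij)] at this
      omega
    · refine ⟨?_, hc.1, hc.2.1⟩
      rintro rfl
      have := hc.2.2
      rw [Pi.single_eq_of_ne (Ne.symm hik)] at this
      omega
    · refine ⟨?_, hc.1, hc.2.1⟩
      rintro rfl
      have := hc.2.2
      rw [Pi.single_eq_of_ne (Ne.symm hil)] at this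
      omega
  have hmem : Pi.single i (d + 1) ∈ (cost S P M).filter (fun c => 1 ≤ c i) := by
    rw [mem_filter]
    refine ⟨H.corner_mem hi, ?_⟩
    rw [Pi.single_eq_same]; omega
  have h1 := card_le_card hsub
  rw [card_erase_of_mem hmem, H.three i hi, card_union_of_disjoint hdisj2,
    card_union_of_disjoint hdisj] at h1
  exact h1

/-- Each `i` has a partner. -/
theorem exists_partner (H : Ctx4 S d P M) {i : ι} (hi : i ∈ S) :
    ∃ j ∈ S, j ≠ i ∧ (K S P M i j).Nonempty := by
  have h3 := H.three i hi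
  -- there is an element other than the corner
  have h1 : 1 < ((cost S P M).filter (fun c => 1 ≤ c i)).card := by omega
  obtain ⟨c, hc, hne⟩ := Finset.exists_mem_ne h1 (Pi.single i (d + 1))
  rw [mem_filter] at hc
  by_contra hcon
  push Not at hcon
  apply hne
  apply H.eq_corner hi hc.1
  intro j hj hji
  by_contra hcj
  push Not at hcj
  have := hcon j hj hji
  rw [Finset.eq_empty_iff_forall_notMem] at this
  exact this c (by rw [K, mem_filter]; exact ⟨hc.1, hc.2, by omega⟩)

/-- If `K i j = ∅` then `d` is even. -/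
theorem even_of_K_empty (H : Ctx4 S d P M) {i j : ι} (hi : i ∈ S) (hj : j ∈ S) (hij : i ≠ j)
    (hK : K S P M i j = ∅) : (-1 : ℤ) ^ d.toNat = 1 := by
  have hd := H.d1
  have hT : ({i, j} : Finset ι) ⊆ S := by
    intro t ht
    simp only [mem_insert, mem_singleton] at ht
    rcases ht with rfl | rfl <;> assumption
  have hsum : ∀ x : ι → ℤ, ∑ k ∈ ({i, j} : Finset ι), x k = x i + x j := by
    intro x; rw [Finset.sum_pair hij]
  have h1 := H.face_prop hT (i := i) (by simp) 0 (by
    intro β hβ hβT hβ1 hβ2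
    have hdeg := H.deg hβ
    have hsum' : ∑ k ∈ S, β k = ∑ k ∈ ({i, j} : Finset ι), β k := by
      symm
      apply Finset.sum_subset hT
      intro k _ hk; exact hβT k hk
    rw [hsum', hsum] at hdeg
    rw [Finset.eq_empty_iff_forall_notMem] at hK
    exact hK β (by rw [K, mem_filter]; exact ⟨hβ, by omega, by omega⟩))
    (Pi.single j d) (by
      intro t ht
      have : t ≠ j := by rintro rfl; exact ht (by simp)
      rw [Pi.single_eq_of_ne this]) (by
      intro t
      by_cases htj : t = j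
      · subst htj; rw [Pi.single_eq_same]; omega
      · rw [Pi.single_eq_of_ne htj]) (by
      rw [hsum, Pi.single_eq_of_ne hij, Pi.single_eq_same]; ring) (by
      rw [Pi.single_eq_of_ne hij])
  rw [sg_eq_one.2 (H.cor j hj), Pi.single_eq_of_ne hij, sub_zero] at h1
  exact h1.symm

/-- `|K i j| = 1` contradicts `d` even. -/
theorem K_ne_one (H : Ctx4 S d P M) {i j : ι} (hi : i ∈ S) (hj : j ∈ S) (hij : i ≠ j)
    (hd2 : (-1 : ℤ) ^ d.toNat = 1) : (K S P M i j).card ≠ 1 := by
  intro hK
  have hd := H.d1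
  obtain ⟨c, hc⟩ := Finset.card_eq_one.1 hK
  have hcK : c ∈ K S P M i j := by rw [hc]; simp
  rw [K, mem_filter] at hcK
  obtain ⟨hcC, hci, hcj⟩ := hcK
  have hT : ({i, j} : Finset ι) ⊆ S := by
    intro t ht
    simp only [mem_insert, mem_singleton] at ht
    rcases ht with rfl | rfl <;> assumption
  have hsum : ∀ x : ι → ℤ, ∑ k ∈ ({i, j} : Finset ι), x k = x i + x j := by
    intro x; rw [Finset.sum_pair hij]
  -- support of c
  have hcT : ∀ t, t ∉ ({i, j} : Finset ι) → c t = 0 := by
    intro t ht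
    simp only [mem_insert, mem_singleton, not_or] at ht
    by_cases htS : t ∈ S
    · exact le_antisymm (H.two c hcC i hi j hj t htS hij (Ne.symm ht.1) (Ne.symm ht.2) hci hcj)
        (H.nonneg hcC t)
    · exact H.flat hcC htS
  have hsum' : ∀ β : ι → ℤ, (∀ t, t ∉ ({i, j} : Finset ι) → β t = 0) →
      ∑ k ∈ S, β k = β i + β j := by
    intro β hβ
    rw [← hsum]
    symm
    apply Finset.sum_subset hT
    intro k _ hk; exact hβ k hk
  have hdegc : c i + c j = d + 1 := by rw [← hsum' c hcT]; exact H.deg hcC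
  have hline : ∀ β ∈ cost S P M, (∀ t, t ∉ ({i, j} : Finset ι) → β t = 0) → 1 ≤ β i → 1 ≤ β j →
      β = c := by
    intro β hβ _ h1 h2
    have : β ∈ K S P M i j := by rw [K, mem_filter]; exact ⟨hβ, h1, h2⟩
    rw [hc] at this
    exact mem_singleton.1 this
  have hdegβ : ∀ β ∈ cost S P M, (∀ t, t ∉ ({i, j} : Finset ι) → β t = 0) →
      β i + β j = d + 1 := by
    intro β hβ hβT
    rw [← hsum' β hβT]; exact H.deg hβ
  -- direction i
  have hA := H.face_prop hT (i := i) (by simp) (c i) (by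
    intro β hβ hβT hβ1 hβ2
    have h1 := hdegβ β hβ hβT
    have := hline β hβ hβT (by omega) (by omega)
    rw [this] at hβ1; omega)
  have hB := H.face_prop hT (i := j) (by simp) (c j) (by
    intro β hβ hβT hβ1 hβ2
    have h1 := hdegβ β hβ hβT
    have := hline β hβ hβT (by omega) (by omega)
    rw [this] at hβ1; omega)
  have hji : j ≠ i := Ne.symm hij
  have hflat : ∀ k ∈ ({i, j} : Finset ι), ∀ t, t ∉ ({i, j} : Finset ι) → (c - E k) t = 0 := by
    intro k hk t ht
    have : t ≠ k := by rintro rfl; exact ht hk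
    simp only [Pi.sub_apply, E_ne this, hcT t ht]; ring
  have hx1 := hA (c - E j) (hflat j (by simp)) (by
      intro t
      by_cases htj : t = j
      · subst htj; simp only [Pi.sub_apply, E_same]; omega
      · simp only [Pi.sub_apply, E_ne htj]
        have := H.nonneg hcC t
        omega) (by
      rw [hsum]; simp only [Pi.sub_apply, E_same, E_ne hij]; omega) (by
      simp only [Pi.sub_apply, E_ne hij]; omega)
  have hx2 := hB (c - E i) (hflat i (by simp)) (by
      intro t
      by_cases hti : t = i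
      · subst hti; simp only [Pi.sub_apply, E_same]; omega
      · simp only [Pi.sub_apply, E_ne hti]
        have := H.nonneg hcC t
        omega) (by
      rw [hsum]; simp only [Pi.sub_apply, E_same, E_ne hji]; omega) (by
      simp only [Pi.sub_apply, E_ne hji]; omega)
  -- c is a sink: predecessors are not in M
  have hnotM : ∀ k ∈ S, sg P M (c - E k) ≠ -1 := by
    intro k hk hcon
    have h1 := (sg_eq_neg_one H.pat.disj).1 hcon
    have h2 := (mem_sdiff.1 (H.mem_cost.1 hcC)).2
    exact h2 (mem_up.2 ⟨k, hk, h1⟩)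
  have hn1 := hnotM j hj
  have hn2 := hnotM i hi
  rw [hx1] at hn1
  rw [hx2] at hn2
  simp only [Pi.sub_apply, E_ne hij, E_ne hji, sub_zero] at hn1 hn2
  have e1 : Even (d - c i).toNat := by
    by_contra h
    rw [Nat.not_even_iff_odd] at h
    exact hn1 h.neg_one_pow
  have e2 : Even (d - c j).toNat := by
    by_contra h
    rw [Nat.not_even_iff_odd] at h
    exact hn2 h.neg_one_pow
  have e3 : Even d.toNat := by
    by_contra h
    rw [Nat.not_even_iff_odd] at h
    rw [h.neg_one_pow] at hd2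
    norm_num at hd2
  obtain ⟨u, hu⟩ := e1
  obtain ⟨v, hv⟩ := e2
  obtain ⟨w, hw⟩ := e3
  omega

end Ctx4

end SignPat
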