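import Mathlib
import Pool.Agent.Work.MP_39acf6_an.H80Base4

/-!
# Four variables: the equality case is `K_{2,2}` (MP_39acf6_an, lower bound)
-/

set_option autoImplicit false
set_option linter.unusedSectionVars false
set_option linter.unusedSimpArgs false

namespace SignPat

open Finset

variable {ι : Type*} [Fintype ι] [DecidableEq ι]
variable {S : Finset ι} {d : ℤ} {P M : Finset (ι → ℤ)}

namespace Ctx4

/-- signs on a face `{a, b, c}` when `K a c = K b c = ∅`. -/
theorem face3 (H : Ctx4 S d P M) {a b c : ι} (ha : a ∈ S) (hb : b ∈ S) (hc : c ∈ S)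
    (hab : a ≠ b) (hac : a ≠ c) (hbc : b ≠ c)
    (h1 : K S P M a c = ∅) (h2 : K S P M b c = ∅) :
    ∀ x : ι → ℤ, (∀ j, j ≠ a → j ≠ b → j ≠ c → x j = 0) → (∀ j, 0 ≤ x j) → x a + x b + x c = d →
      sg P M x = (-1) ^ (d - x c).toNat := by
  have hT : ({a, b, c} : Finset ι) ⊆ S := by
    intro t ht
    simp only [mem_insert, mem_singleton] at ht
    rcases ht with rfl | rfl | rfl <;> assumption
  have hsum : ∀ x : ι → ℤ, ∑ k ∈ ({a, b, c} : Finset ι), x k = x a + x b + x c := by
    intro x
    rw [Finset.sum_insert (by simp [hab, hac]), Finset.sum_pair hbc]; ring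
  have hsum' : ∀ β : ι → ℤ, (∀ t, t ∉ ({a, b, c} : Finset ι) → β t = 0) →
      ∑ k ∈ S, β k = β a + β b + β c := by
    intro β hβ
    rw [← hsum]
    symm
    apply Finset.sum_subset hT
    intro k _ hk; exact hβ k hk
  intro x hx1 hx2 hx3
  have hface := H.face_prop hT (i := c) (by simp) 0 (by
    intro β hβ hβT hβ1 hβ2
    have hdeg := H.deg hβ
    rw [hsum' β hβT] at hdeg
    have na := H.nonneg hβ a
    have nb := H.nonneg hβ b
    rw [Finset.eq_empty_iff_forall_notMem] at h1 h2
    by_cases hba : 1 ≤ β a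
    · exact h1 β (by rw [K, mem_filter]; exact ⟨hβ, hba, by omega⟩)
    · exact h2 β (by rw [K, mem_filter]; exact ⟨hβ, by omega, by omega⟩))
  apply hface x ?_ hx2 (by rw [hsum]; exact hx3) (hx2 c)
  intro t ht
  simp only [mem_insert, mem_singleton, not_or] at ht
  exact hx1 t ht.1 ht.2.1 ht.2.2

theorem isK22 (H : Ctx4 S d P M) : IsK22 S 0 P M ∧ d = 2 := by
  have hd1 := H.d1
  have hdis := Finset.disjoint_left.1 H.pat.disj
  obtain ⟨a, ha⟩ : S.Nonempty := card_pos.1 (by rw [H.card]; norm_num)
  obtain ⟨b, hb, hba, hKab⟩ := H.exists_partner ha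
  have hcard2 : ((S.erase a).erase b).card = 2 := by
    rw [card_erase_of_mem (mem_erase.2 ⟨hba, hb⟩), card_erase_of_mem ha, H.card]
  obtain ⟨c, e, hce, hSce⟩ := Finset.card_eq_two.1 hcard2
  have hcmem : c ∈ (S.erase a).erase b := by rw [hSce]; simp
  have hemem : e ∈ (S.erase a).erase b := by rw [hSce]; simp
  rw [mem_erase, mem_erase] at hcmem hemem
  obtain ⟨hcb, hca, hc⟩ := hcmem
  obtain ⟨heb, hea, he⟩ := hemem
  have hab : a ≠ b := Ne.symm hba
  have hac : a ≠ c := Ne.symm hca
  have hae : a ≠ e := Ne.symm hea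
  have hbc : b ≠ c := Ne.symm hcb
  have hbe : b ≠ e := Ne.symm heb
  have hS : S = {a, b, c, e} := by
    have h1 : S = insert a (insert b ((S.erase a).erase b)) := by
      rw [insert_erase (mem_erase.2 ⟨hba, hb⟩), insert_erase ha]
    rw [hSce] at h1; exact h1
  -- the K's
  have hK3 := H.card_K_add3 ha hb hc he hab hac hae hbc hbe hce
  have heven : (-1 : ℤ) ^ d.toNat = 1 := by
    by_cases h1 : K S P M a c = ∅
    · exact H.even_of_K_empty ha hc hac h1
    · by_cases h2 : K S P M a e = ∅
      · exact H.even_of_K_empty ha he hae h2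
      · exfalso
        have h1' := card_pos.2 (nonempty_iff_ne_empty.2 h1)
        have h2' := card_pos.2 (nonempty_iff_ne_empty.2 h2)
        have h3' := card_pos.2 hKab
        omega
  have hKab2 : 2 ≤ (K S P M a b).card := by
    have h1 := H.K_ne_one ha hb hab heven
    have h2 := card_pos.2 hKab
    omega
  have hKac : K S P M a c = ∅ := card_eq_zero.1 (by omega)
  have hKae : K S P M a e = ∅ := card_eq_zero.1 (by omega)
  have hK3b := H.card_K_add3 hb ha hc he hba hbc hbe hac hae hce
  rw [K_comm b a] at hK3b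
  have hKbc : K S P M b c = ∅ := card_eq_zero.1 (by omega)
  have hKbe : K S P M b e = ∅ := card_eq_zero.1 (by omega)
  have hKca : K S P M c a = ∅ := by rw [K_comm]; exact hKac
  have hKea : K S P M e a = ∅ := by rw [K_comm]; exact hKae
  have F1 := H.face3 ha hb hc hab hac hbc hKac hKbc
  have F2 := H.face3 ha hb he hab hae hbe hKae hKbe
  have F3 := H.face3 hc he ha hce hca hea hKca hKea
  -- the line {a,b} is in P
  have hline : ∀ u v : ℤ, 0 ≤ u → 0 ≤ v → u + v = d →
      (Pi.single a u + Pi.single b v : ι → ℤ) ∈ P := by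
    intro u v hu hv huv
    have h1 := F1 (Pi.single a u + Pi.single b v) (by
      intro j hja hjb _
      rw [Pi.add_apply, Pi.single_eq_of_ne hja, Pi.single_eq_of_ne hjb]; ring) (by
      intro j
      rw [Pi.add_apply]
      have e1 : 0 ≤ (Pi.single a u : ι → ℤ) j := by
        by_cases h : j = a
        · subst h; rw [Pi.single_eq_same]; exact hu
        · rw [Pi.single_eq_of_ne h]
      have e2 : 0 ≤ (Pi.single b v : ι → ℤ) j := by
        by_cases h : j = b
        · subst h; rw [Pi.single_eq_same]; exact hv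
        · rw [Pi.single_eq_of_ne h]
      omega) (by
      simp only [Pi.add_apply, Pi.single_eq_same, Pi.single_eq_of_ne hab, Pi.single_eq_of_ne hba,
        Pi.single_eq_of_ne hca, Pi.single_eq_of_ne hcb]
      omega)
    rw [Pi.add_apply, Pi.single_eq_of_ne hca, Pi.single_eq_of_ne hcb, add_zero, sub_zero,
      heven] at h1
    exact sg_eq_one.1 h1
  have hβ : ∀ u : ℤ, 1 ≤ u → u ≤ d →
      (Pi.single a u + Pi.single b (d + 1 - u) : ι → ℤ) ∈ K S P M a b := by
    intro u hu1 hu2
    have ea : (Pi.single a u + Pi.single b (d + 1 - u) : ι → ℤ) - E a =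
        Pi.single a (u - 1) + Pi.single b (d + 1 - u) := by
      have : (Pi.single a u : ι → ℤ) = Pi.single a (u - 1) + Pi.single a 1 := by
        rw [← Pi.single_add]; ring_nf
      rw [this]; simp only [E]; abel
    have eb : (Pi.single a u + Pi.single b (d + 1 - u) : ι → ℤ) - E b =
        Pi.single a u + Pi.single b (d - u) := by
      have : (Pi.single b (d + 1 - u) : ι → ℤ) = Pi.single b (d - u) + Pi.single b 1 := by
        rw [← Pi.single_add]; ring_nf
      rw [this]; simp only [E]; abel
    rw [K, mem_filter]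
    refine ⟨?_, ?_, ?_⟩
    · rw [H.mem_cost]
      refine mem_sdiff.2 ⟨?_, ?_⟩
      · refine mem_up.2 ⟨a, ha, ?_⟩
        rw [ea]; exact hline _ _ (by omega) (by omega) (by omega)
      · intro hM
        obtain ⟨k, hk, hkM⟩ := mem_up.1 hM
        by_cases hka : k = a
        · subst hka
          rw [ea] at hkM
          exact hdis (hline _ _ (by omega) (by omega) (by omega)) hkM
        · by_cases hkb : k = b
          · subst hkb
            rw [eb] at hkM
            exact hdis (hline _ _ (by omega) (by omega) (by omega)) hkM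
          · have := H.pat.nonneg _ hkM k
            simp only [Pi.sub_apply, Pi.add_apply, Pi.single_eq_of_ne hka,
              Pi.single_eq_of_ne hkb, E_same] at this
            omega
    · rw [Pi.add_apply, Pi.single_eq_same, Pi.single_eq_of_ne hab]; omega
    · rw [Pi.add_apply, Pi.single_eq_same, Pi.single_eq_of_ne hba]; omega
  have hd2 : d = 2 := by
    by_contra hne
    have hd3 : 3 ≤ d := by
      have : d ≠ 1 := by
        rintro rfl
        norm_num at heven
      omega
    have h1 := hβ 1 (by norm_num) (by omega)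
    have h2 := hβ 2 (by norm_num) (by omega)
    have h3 := hβ 3 (by norm_num) (by omega)
    have hva : ∀ u : ℤ, (Pi.single a u + Pi.single b (d + 1 - u) : ι → ℤ) a = u := by
      intro u; rw [Pi.add_apply, Pi.single_eq_same, Pi.single_eq_of_ne hab]; ring
    have hcard3 : ({(Pi.single a 1 + Pi.single b (d + 1 - 1) : ι → ℤ),
        Pi.single a 2 + Pi.single b (d + 1 - 2),
        Pi.single a 3 + Pi.single b (d + 1 - 3)} : Finset (ι → ℤ)).card = 3 := by
      rw [Finset.card_eq_three]
      refine ⟨_, _, _, ?_, ?_, ?_, rfl⟩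
      · intro h
        have := congrFun h a
        rw [hva, hva] at this; norm_num at this
      · intro h
        have := congrFun h a
        rw [hva, hva] at this; norm_num at this
      · intro h
        have := congrFun h a
        rw [hva, hva] at this; norm_num at this
    have hsub : ({(Pi.single a 1 + Pi.single b (d + 1 - 1) : ι → ℤ),
        Pi.single a 2 + Pi.single b (d + 1 - 2),
        Pi.single a 3 + Pi.single b (d + 1 - 3)} : Finset (ι → ℤ)) ⊆ K S P M a b := by
      intro x hx
      simp only [mem_insert, mem_singleton] at hx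
      rcases hx with rfl | rfl | rfl <;> assumption
    have := card_le_card hsub
    omega
  refine ⟨?_, hd2⟩
  subst hd2
  have hEE : ∀ i j : ι, ∀ t, (0 + E i + E j : ι → ℤ) t = (E i : ι → ℤ) t + (E j : ι → ℤ) t := by
    intro i j t; simp only [Pi.add_apply, Pi.zero_apply, zero_add]
  have hEEnn : ∀ i j : ι, ∀ t, 0 ≤ (0 + E i + E j : ι → ℤ) t := by
    intro i j t; rw [hEE]; have := E_nonneg i t; have := E_nonneg j t; omega
  have hsq : ∀ i ∈ S, (0 + E i + E i : ι → ℤ) ∈ P := by
    intro i hi
    have h1 := H.cor i hi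
    have : (Pi.single i 2 : ι → ℤ) = 0 + E i + E i := by
      rw [zero_add, show (E i : ι → ℤ) = Pi.single i 1 from rfl, ← Pi.single_add]; norm_num
    rwa [this] at h1
  have hPab : (0 + E a + E b : ι → ℤ) ∈ P := by
    have h1 := F1 (0 + E a + E b) (by
      intro j h1 h2 _; rw [hEE, E_ne h1, E_ne h2]; ring) (hEEnn a b) (by
      rw [hEE, hEE, hEE, E_same, E_same, E_ne hab, E_ne hba, E_ne hca, E_ne hcb]; ring)
    rw [hEE, E_ne hca, E_ne hcb] at h1
    norm_num at h1
    exact sg_eq_one.1 (by rw [zero_add]; exact h1)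
  have hPce : (0 + E c + E e : ι → ℤ) ∈ P := by
    have h1 := F3 (0 + E c + E e) (by
      intro j h1 h2 _; rw [hEE, E_ne h1, E_ne h2]; ring) (hEEnn c e) (by
      rw [hEE, hEE, hEE, E_same, E_same, E_ne hce, E_ne (Ne.symm hce), E_ne hac, E_ne hae]; ring)
    rw [hEE, E_ne hac, E_ne hae] at h1
    norm_num at h1
    exact sg_eq_one.1 (by rw [zero_add]; exact h1)
  have hMac : (0 + E a + E c : ι → ℤ) ∈ M := by
    have h1 := F1 (0 + E a + E c) (by
      intro j h1 _ h2; rw [hEE, E_ne h1, E_ne h2]; ring) (hEEnn a c) (by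
      rw [hEE, hEE, hEE, E_same, E_same, E_ne hac, E_ne hba, E_ne hca, E_ne hbc]; ring)
    rw [hEE, E_ne hca, E_same] at h1
    norm_num at h1
    exact (sg_eq_neg_one H.pat.disj).1 (by rw [zero_add]; exact h1)
  have hMbc : (0 + E b + E c : ι → ℤ) ∈ M := by
    have h1 := F1 (0 + E b + E c) (by
      intro j _ h1 h2; rw [hEE, E_ne h1, E_ne h2]; ring) (hEEnn b c) (by
      rw [hEE, hEE, hEE, E_same, E_same, E_ne hac, E_ne hab, E_ne hcb, E_ne hbc]; ring)
    rw [hEE, E_ne hcb, E_same] at h1
    norm_num at h1
    exact (sg_eq_neg_one H.pat.disj).1 (by rw [zero_add]; exact h1)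
  have hMae : (0 + E a + E e : ι → ℤ) ∈ M := by
    have h1 := F2 (0 + E a + E e) (by
      intro j h1 _ h2; rw [hEE, E_ne h1, E_ne h2]; ring) (hEEnn a e) (by
      rw [hEE, hEE, hEE, E_same, E_same, E_ne hae, E_ne hba, E_ne hea, E_ne hbe]; ring)
    rw [hEE, E_ne hea, E_same] at h1
    norm_num at h1
    exact (sg_eq_neg_one H.pat.disj).1 (by rw [zero_add]; exact h1)
  have hMbe : (0 + E b + E e : ι → ℤ) ∈ M := by
    have h1 := F2 (0 + E b + E e) (by
      intro j _ h1 h2; rw [hEE, E_ne h1, E_ne h2]; ring) (hEEnn b e) (by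
      rw [hEE, hEE, hEE, E_same, E_same, E_ne hae, E_ne hab, E_ne heb, E_ne hbe]; ring)
    rw [hEE, E_ne heb, E_same] at h1
    norm_num at h1
    exact (sg_eq_neg_one H.pat.disj).1 (by rw [zero_add]; exact h1)
  refine ⟨a, b, c, e, hS, hab, hac, hae, hbc, hbe, hce, ?_, hsq a ha, hPab, hsq b hb, hsq c hc,
    hPce, hsq e he⟩
  apply Finset.Subset.antisymm
  · intro x hx
    have hxn := H.pat.nonneg x hx
    have hxf := H.pat.flatM x hx
    have hxd := H.pat.degM x hx
    have hxP : x ∉ P := fun h => hdis h hx
    have hxsum : x a + (x b + (x c + x e)) = 2 := by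
      rw [hS] at hxd
      rw [Finset.sum_insert (by simp [hab, hac, hae]), Finset.sum_insert (by simp [hbc, hbe]),
        Finset.sum_pair hce] at hxd
      exact hxd
    have hxe : x = Pi.single a (x a) + Pi.single b (x b) + Pi.single c (x c) +
        Pi.single e (x e) := by
      funext t
      simp only [Pi.add_apply]
      by_cases hta : t = a
      · subst hta
        rw [Pi.single_eq_same, Pi.single_eq_of_ne hab, Pi.single_eq_of_ne hac,
          Pi.single_eq_of_ne hae]; ring
      by_cases htb : t = b
      · subst htb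
        rw [Pi.single_eq_same, Pi.single_eq_of_ne hba, Pi.single_eq_of_ne hbc,
          Pi.single_eq_of_ne hbe]; ring
      by_cases htc : t = c
      · subst htc
        rw [Pi.single_eq_same, Pi.single_eq_of_ne hca, Pi.single_eq_of_ne hcb,
          Pi.single_eq_of_ne hce]; ring
      by_cases hte : t = e
      · subst hte
        rw [Pi.single_eq_same, Pi.single_eq_of_ne hea, Pi.single_eq_of_ne heb,
          Pi.single_eq_of_ne (Ne.symm hce)]; ring
      rw [Pi.single_eq_of_ne hta, Pi.single_eq_of_ne htb, Pi.single_eq_of_ne htc,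
        Pi.single_eq_of_ne hte]
      have : t ∉ S := by rw [hS]; simp [hta, htb, htc, hte]
      rw [hxf t this]; ring
    have hdouble : ∀ i : ι, (Pi.single i 2 : ι → ℤ) = 0 + E i + E i := by
      intro i
      rw [zero_add, show (E i : ι → ℤ) = Pi.single i 1 from rfl, ← Pi.single_add]; norm_num
    have na := hxn a
    have nb := hxn b
    have nc := hxn c
    have ne := hxn e
    have ba : x a ≤ 2 := by omega
    have bb : x b ≤ 2 := by omega
    have bc : x c ≤ 2 := by omega
    simp only [mem_insert, mem_singleton]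
    generalize hA : x a = A at *
    generalize hB : x b = B at *
    generalize hC : x c = C at *
    generalize hE : x e = D at *
    have hD : D = 2 - A - B - C := by omega
    subst hD
    interval_cases A <;> interval_cases B <;> interval_cases C <;>
      (first
        | (exfalso; omega)
        | (norm_num at hxe
           first
             | (exfalso; apply hxP; rw [hxe]
                first
                  | (rw [hdouble]; exact hsq _ ‹_›)
                  | (have := hPab; rw [zero_add] at this; exact this)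
                  | (have := hPce; rw [zero_add] at this; exact this))
             | (left; rw [hxe, zero_add]; done)
             | (right; left; rw [hxe, zero_add]; done)
             | (right; right; left; rw [hxe, zero_add]; done)
             | (right; right; right; rw [hxe, zero_add]; done)))
  · intro x hx
    simp only [mem_insert, mem_singleton] at hx
    rcases hx with rfl | rfl | rfl | rfl <;> assumption

end Ctx4

/-- Four variables, general patterns. -/
theorem gen4 (hS : S.card = 4) {t : ι → ℤ} (h : Gen S t d P M)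
    (H3 : ∀ (S' : Finset ι) (t' : ι → ℤ) (d' : ℤ) (P' M' : Finset (ι → ℤ)), S'.card = 3 →
      Gen S' t' d' P' M' → 5 ≤ g S' P' M') :
    8 ≤ g S P M ∧ (g S P M ≤ 8 → ∃ μ : ι → ℤ, (∀ j, j ∉ S → μ j = t j) ∧
      (∀ i ∈ S, ∃ m ∈ M, m i = μ i) ∧ IsK22 S μ P M) := by
  obtain ⟨v, d', P', hpat, hP', hv, hg, hmin⟩ := h.exists_pat
  have hs : ∀ i ∈ S, 5 ≤ ((cost S P' (tr v M)).filter (fun c => c i ≤ 0)).card := by
    intro i hi
    refine le_trans ?_ (slice_le hpat hi)
    exact H3 _ _ _ _ _ (by rw [card_erase_of_mem hi, hS]) (hpat.slice hi)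
  have hcc := card_cost (S := S) hpat.degP hpat.degM
  constructor
  · -- averaging
    have hav := average hpat
    have hC1 := card_C1_le hpat
    rw [hS] at hav hC1
    have hsum : 20 ≤ ∑ i ∈ S, ((cost S P' (tr v M)).filter (fun c => c i ≤ 0)).card := by
      calc 20 = ∑ i ∈ S, 5 := by rw [Finset.sum_const, hS]; rfl
        _ ≤ _ := Finset.sum_le_sum hs
    omega
  · intro hle
    have hctx := ctx4_of hS hpat hs (by omega)
    obtain ⟨hK, _⟩ := hctx.isK22
    refine ⟨v, hv, hmin, ?_⟩
    obtain ⟨a, b, c, e, h1, h2, h3, h4, h5, h6, h7, hM, p1, p2, p3, p4, p5, p6⟩ := hK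
    have hback : ∀ x : ι → ℤ, x ∈ P' → v + x ∈ P := by
      intro x hx
      have := mem_tr.1 (hP' hx)
      rwa [add_comm]
    have hre : ∀ i j : ι, v + (0 + E i + E j) = v + E i + E j := by
      intro i j; abel
    refine ⟨a, b, c, e, h1, h2, h3, h4, h5, h6, h7, ?_, ?_, ?_, ?_, ?_, ?_, ?_⟩
    · ext x
      have : x ∈ M ↔ x - v ∈ tr v M := by rw [mem_tr]; simp
      rw [this, hM]
      simp only [mem_insert, mem_singleton, sub_eq_iff_eq_add]
      have hre' : ∀ i j : ι, (0 + E i + E j + v : ι → ℤ) = v + E i + E j := by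
        intro i j; abel
      rw [hre', hre', hre', hre']
    · rw [← hre]; exact hback _ p1
    · rw [← hre]; exact hback _ p2
    · rw [← hre]; exact hback _ p3
    · rw [← hre]; exact hback _ p4
    · rw [← hre]; exact hback _ p5
    · rw [← hre]; exact hback _ p6

end SignPat
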