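import Mathlib
import Pool.Agent.Work.MP_39acf6_an.H80K22
import Pool.Agent.Work.MP_39acf6_an.H70Base3
import Pool.Agent.Work.MP_39acf6_an.H27Base5

/-!
# The lower bound for all numbers of variables (MP_39acf6_an)
-/

set_option autoImplicit false
set_option linter.unusedSectionVars false
set_option linter.unusedSimpArgs false

namespace SignPat

open Finset

variable {ι : Type*} [Fintype ι] [DecidableEq ι]
variable {S : Finset ι} {d : ℤ} {P M : Finset (ι → ℤ)}

theorem gen1 (hS : S.card = 1) {t : ι → ℤ} (h : Gen S t d P M) : 1 ≤ g S P M := by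
  obtain ⟨i, hi⟩ := Finset.card_eq_one.1 hS
  obtain ⟨m, hm⟩ := h.ne
  have huniq : ∀ x ∈ P, x = m := by
    intro x hx
    funext j
    by_cases hj : j ∈ S
    · have h1 := h.degP x hx
      have h2 := h.degM m hm
      rw [hi] at h1 h2 hj
      rw [Finset.sum_singleton] at h1 h2
      rw [mem_singleton.1 hj, h1, h2]
    · rw [h.flatP x hx j hj, h.flatM m hm j hj]
  have hP : P = ∅ := by
    rw [Finset.eq_empty_iff_forall_notMem]
    intro x hx
    have := huniq x hx
    subst this
    exact Finset.disjoint_left.1 h.disj hx hm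
  subst hP
  have hiS : i ∈ S := by rw [hi]; simp
  have h1 : m + E i ∈ unc S ∅ M := by
    refine mem_sdiff.2 ⟨add_mem_up hm hiS, ?_⟩
    simp [up]
  have h2 : m + E i + E i ∈ up S (unc S ∅ M) := add_mem_up h1 hiS
  have h3 := card_pos.2 ⟨_, h2⟩
  unfold g
  omega

theorem gen2 (hS : S.card = 2) {t : ι → ℤ} (h : Gen S t d P M) : 2 ≤ g S P M := by
  obtain ⟨v, d', P', hpat, hP', hv, hg, hmin⟩ := h.exists_pat
  have hcc := card_cost (S := S) hpat.degP hpat.degM
  rw [← hcc] at hg
  refine le_trans ?_ hg
  have hs : ∀ i ∈ S, 1 ≤ ((cost S P' (tr v M)).filter (fun c => c i ≤ 0)).card := by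
    intro i hi
    refine le_trans ?_ (slice_le hpat hi)
    exact gen1 (by rw [card_erase_of_mem hi, hS]) (hpat.slice hi)
  obtain ⟨i, j, hij, hSij⟩ := Finset.card_eq_two.1 hS
  have hi : i ∈ S := by rw [hSij]; simp
  have hj : j ∈ S := by rw [hSij]; simp
  have hdisj : Disjoint ((cost S P' (tr v M)).filter (fun c => c i ≤ 0))
      ((cost S P' (tr v M)).filter (fun c => c j ≤ 0)) := by
    rw [Finset.disjoint_left]
    intro c h1 h2
    rw [mem_filter] at h1 h2
    obtain ⟨k, hk, hck⟩ := pos_cost hpat h1.1
    rw [hSij, mem_insert, mem_singleton] at hk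
    rcases hk with rfl | rfl
    · omega
    · omega
  have hsub : (cost S P' (tr v M)).filter (fun c => c i ≤ 0) ∪
      (cost S P' (tr v M)).filter (fun c => c j ≤ 0) ⊆ cost S P' (tr v M) :=
    union_subset (filter_subset _ _) (filter_subset _ _)
  have h1 := card_le_card hsub
  rw [card_union_of_disjoint hdisj] at h1
  have h2 := hs i hi
  have h3 := hs j hj
  omega

theorem gen3 (hS : S.card = 3) {t : ι → ℤ} (h : Gen S t d P M) : 5 ≤ g S P M := by
  obtain ⟨v, d', P', hpat, hP', hv, hg, hmin⟩ := h.exists_pat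
  have hcc := card_cost (S := S) hpat.degP hpat.degM
  rw [← hcc] at hg
  refine le_trans ?_ hg
  by_contra hcon
  push Not at hcon
  set M' := tr v M with hM'
  have hs : ∀ i ∈ S, 2 ≤ ((cost S P' M').filter (fun c => c i ≤ 0)).card := by
    intro i hi
    refine le_trans ?_ (slice_le hpat hi)
    exact gen2 (by rw [card_erase_of_mem hi, hS]) (hpat.slice hi)
  have hN : ∀ i ∈ S, ((cost S P' M').filter (fun c => 1 ≤ c i)).card ≤ 2 := by
    intro i hi
    have h1 := card_pos_part (cost S P' M') i
    have h2 := hs i hi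
    omega
  have hB := lemmaB (by omega) hpat (by intro i hi; have := hN i hi; omega) (by
    intro p hp s hsS hps i hi j hj hij hpi hpj
    have his : i ≠ s := by rintro rfl; omega
    have hjs : j ≠ s := by rintro rfl; omega
    have hS3 : ∀ k ∈ S, k = s ∨ k = i ∨ k = j := by
      intro k hk
      by_contra hne
      push Not at hne
      have hsub : ({k, s, i, j} : Finset ι) ⊆ S := by
        intro t ht
        simp only [mem_insert, mem_singleton] at ht
        rcases ht with rfl | rfl | rfl | rfl <;> assumption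
      have hc4 : ({k, s, i, j} : Finset ι).card = 4 := by
        rw [card_insert_of_notMem (by simp [hne.1, hne.2.1, hne.2.2]),
          card_insert_of_notMem (by simp [Ne.symm his, Ne.symm hjs]), Finset.card_pair hij]
      have := card_le_card hsub
      omega
    have hcost : ∀ k ∈ S, k ≠ s → p + E k ∈ cost S P' M' := by
      intro k hk hks
      refine mem_union_left _ (mem_sdiff.2 ⟨add_mem_up hp hk, ?_⟩)
      intro hM
      obtain ⟨l, hl, hlM⟩ := mem_up.1 hM
      have h1 := hpat.nonneg _ hlM s
      have h2 := E_nonneg l s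
      simp only [Pi.sub_apply, Pi.add_apply, E_ne (Ne.symm hks)] at h1
      omega
    have hci := hcost i hi his
    have hcj := hcost j hj hjs
    have hne : p + E i ≠ p + E j := fun e => hij (E_inj (add_left_cancel e))
    -- all cost elements with a positive i (or j) coordinate are these two
    have hall : ∀ k ∈ S, 1 ≤ p k → ∀ c ∈ cost S P' M', 1 ≤ c k → c = p + E i ∨ c = p + E j := by
      intro k hk hpk c hc hck
      have hsub : ({p + E i, p + E j} : Finset (ι → ℤ)) ⊆
          (cost S P' M').filter (fun c => 1 ≤ c k) := by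
        intro x hx
        simp only [mem_insert, mem_singleton] at hx
        rw [mem_filter]
        rcases hx with rfl | rfl
        · refine ⟨hci, ?_⟩
          have := E_nonneg i k
          simp only [Pi.add_apply]; omega
        · refine ⟨hcj, ?_⟩
          have := E_nonneg j k
          simp only [Pi.add_apply]; omega
      have heq := Finset.eq_of_subset_of_card_le hsub (by
        rw [Finset.card_pair hne]; exact hN k hk)
      have hc' : c ∈ (cost S P' M').filter (fun c => 1 ≤ c k) := mem_filter.2 ⟨hc, hck⟩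
      rw [← heq] at hc'
      simpa using hc'
    have hsi := hs i hi
    have hsub : (cost S P' M').filter (fun c => c i ≤ 0) ⊆
        (cost S P' M').filter (fun c => ∀ j ∈ S, j ≠ s → c j ≤ 0) := by
      intro c hc
      rw [mem_filter] at hc ⊢
      refine ⟨hc.1, ?_⟩
      intro k hk hks
      rcases hS3 k hk with rfl | rfl | rfl
      · exact absurd rfl hks
      · exact hc.2
      · by_contra hck
        push Not at hck
        rcases hall k hj hpj c hc.1 hck with rfl | rfl
        · have := hc.2
          simp only [Pi.add_apply, E_same] at this; omega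
        · have := hc.2
          simp only [Pi.add_apply, E_ne hij] at this; omega
    have h1 := card_le_card hsub
    have h2 := corner_unique hpat hsS
    omega)
  obtain ⟨hQ, hPnn, hd1⟩ := hB
  have hcs : cost S P' M' = sinks S P' M' := by
    unfold cost
    have : unc S P' M' = ∅ := by unfold unc; exact sdiff_eq_empty_iff_subset.2 hQ
    rw [this]
    simp [up]
  refine base3 hS hpat hd1 hPnn hQ ?_ ?_ ?_
  · intro i hi
    rw [← hcs]; exact hs i hi
  · intro i hi
    rw [← hcs]; exact corner_unique hpat hi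
  · rw [← hcs]; omega

theorem gen5 (hS : S.card = 5) {t : ι → ℤ} (h : Gen S t d P M) : 14 ≤ g S P M := by
  obtain ⟨v, d', P', hpat, hP', hv, hg, hmin⟩ := h.exists_pat
  have hcc := card_cost (S := S) hpat.degP hpat.degM
  rw [← hcc] at hg
  refine le_trans ?_ hg
  by_contra hcon
  push Not at hcon
  set M' := tr v M with hM'
  have H3 : ∀ (S' : Finset ι) (t' : ι → ℤ) (d' : ℤ) (P' M' : Finset (ι → ℤ)), S'.card = 3 →
      Gen S' t' d' P' M' → 5 ≤ g S' P' M' := by
    intro S' t' d' P' M' hS' h'
    exact gen3 hS' h'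
  have hs : ∀ i ∈ S, 8 ≤ ((cost S P' M').filter (fun c => c i ≤ 0)).card := by
    intro i hi
    refine le_trans ?_ (slice_le hpat hi)
    exact (gen4 (by rw [card_erase_of_mem hi, hS]) (hpat.slice hi) H3).1
  have hex : ∃ w ∈ S, ((cost S P' M').filter (fun c => c w ≤ 0)).card ≤ 8 := by
    by_contra hne
    push Not at hne
    have hav := average hpat
    have hC1 := card_C1_le hpat
    rw [hS] at hav hC1
    have hsum : 45 ≤ ∑ i ∈ S, ((cost S P' M').filter (fun c => c i ≤ 0)).card := by
      calc 45 = ∑ i ∈ S, 9 := by rw [Finset.sum_const, hS]; rfl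
        _ ≤ _ := Finset.sum_le_sum (fun i hi => hne i hi)
    omega
  obtain ⟨w, hw, hw8⟩ := hex
  have hgw : g (S.erase w) (P'.filter (fun p => p w = 0)) (M'.filter (fun m => m w = 0)) ≤ 8 :=
    (slice_le hpat hw).trans hw8
  obtain ⟨μ, hμ1, _, hK⟩ :=
    (gen4 (by rw [card_erase_of_mem hw, hS]) (hpat.slice hw) H3).2 hgw
  exact base5 hS hpat hw (by omega) hs hw8 hμ1 hK

theorem F_of_ge5 {n : ℕ} (hn : 5 ≤ n) : F n = (n + 1).choose 2 - 1 := by
  unfold F
  rw [if_neg (by omega), if_neg (by omega)]

/-- The lower bound. -/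
theorem main : ∀ (n : ℕ), 1 ≤ n → ∀ (S : Finset ι) (t : ι → ℤ) (d : ℤ) (P M : Finset (ι → ℤ)),
    S.card = n → Gen S t d P M → F n ≤ g S P M := by
  intro n
  induction n with
  | zero => intro h; omega
  | succ n ih =>
    intro _ S t d P M hS h
    by_cases h1 : n = 0
    · subst h1; exact gen1 hS h
    by_cases h2 : n = 1
    · subst h2; exact gen2 hS h
    by_cases h3 : n = 2
    · subst h3; exact gen3 hS h
    by_cases h4 : n = 3
    · subst h4
      refine (gen4 hS h ?_).1
      intro S' t' d' P' M' hS' h'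
      exact gen3 hS' h'
    by_cases h5 : n = 4
    · subst h5; exact gen5 hS h
    have hn : 5 ≤ n := by omega
    obtain ⟨v, d', P', hpat, hP', hv, hg, hmin⟩ := h.exists_pat
    have hcc := card_cost (S := S) hpat.degP hpat.degM
    rw [← hcc] at hg
    refine le_trans ?_ hg
    set M' := tr v M with hM'
    have hs : ∀ i ∈ S, F n ≤ ((cost S P' M').filter (fun c => c i ≤ 0)).card := by
      intro i hi
      refine le_trans ?_ (slice_le hpat hi)
      exact ih (by omega) _ _ _ _ _ (by rw [card_erase_of_mem hi, hS]; rfl) (hpat.slice hi)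
    have hav := average hpat
    have hC1 := card_C1_le hpat
    rw [hS] at hav hC1
    have hsum : (n + 1) * F n ≤ ∑ i ∈ S, ((cost S P' M').filter (fun c => c i ≤ 0)).card := by
      calc (n + 1) * F n = ∑ i ∈ S, F n := by rw [Finset.sum_const, hS]; rfl
        _ ≤ _ := Finset.sum_le_sum hs
    rw [F_of_ge5 hn] at hsum
    rw [F_of_ge5 (by omega)]
    -- arithmetic
    have hchoose : (n + 1).choose 2 * 2 = (n + 1) * n := by
      rw [Nat.choose_two_right, Nat.add_sub_cancel]
      exact Nat.div_mul_cancel (Nat.even_mul_pred_self (n + 1)).two_dvd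
    have hchoose2 : (n + 1 + 1).choose 2 * 2 = (n + 2) * (n + 1) := by
      rw [Nat.choose_two_right, Nat.add_sub_cancel]
      exact Nat.div_mul_cancel (Nat.even_mul_pred_self (n + 1 + 1)).two_dvd
    set N := (cost S P' M').card with hNdef
    set A := (n + 1).choose 2 with hA
    set B := (n + 1 + 1).choose 2 with hB
    have hA1 : 1 ≤ A := by
      rw [hA]; exact Nat.choose_pos (by omega)
    obtain ⟨A', hA'⟩ : ∃ A', A = A' + 1 := ⟨A - 1, by omega⟩
    rw [hA'] at hsum hchoose
    simp only [Nat.add_sub_cancel] at hsum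
    by_contra hcon
    push Not at hcon
    have hBv : B = A' + 1 + (n + 1) := by nlinarith
    rw [hBv] at hcon
    have hN : N ≤ A' + n := by omega
    have h6 : (n + 1) * A' + 2 * N ≤ (n + 1) * N + (n + 1) := by omega
    obtain ⟨n', hn'⟩ : ∃ n', n = n' + 5 := ⟨n - 5, by omega⟩
    subst hn'
    nlinarith

/-- The lower bound, in the form for all variables. -/
theorem main_univ (n : ℕ) (hn : 1 ≤ n) (d : ℤ) (P M : Finset (Fin n → ℤ))
    (hP : ∀ x ∈ P, ∑ i, x i = d) (hM : ∀ x ∈ M, ∑ i, x i = d) (hdis : Disjoint P M)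
    (hne : M.Nonempty) : F n ≤ g Finset.univ P M := by
  apply main n hn Finset.univ (fun _ => 0) d P M (by simp)
  exact ⟨fun x _ j hj => absurd (Finset.mem_univ j) hj, fun x _ j hj => absurd (Finset.mem_univ j) hj,
    hP, hM, hdis, hne⟩

end SignPat
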