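import Mathlib

/-! MP_39acf6_an: from the frozen form of the lower bound to a statement about pairs `(P, M)` of
finite sets of exponents (positive and negative support) in `ι → ℤ`. -/

set_option autoImplicit false
set_option linter.unusedSectionVars false

open Finset

namespace Pool.Agent.Work.MP_39acf6_an.Bridge

variable {ι : Type*} [Fintype ι] [DecidableEq ι]

/-- all `γ + e_i`, `γ ∈ A` -/
def up (A : Finset (ι → ℤ)) : Finset (ι → ℤ) :=
  A.biUnion (fun γ => univ.image (fun i => γ + Pi.single i 1))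

theorem mem_up {A : Finset (ι → ℤ)} {β : ι → ℤ} :
    β ∈ up A ↔ ∃ γ ∈ A, ∃ i, γ + Pi.single i 1 = β := by
  unfold up
  simp

/-- the cost of a pair -/
def cost (P M : Finset (ι → ℤ)) : ℕ := (up P \ up M).card + (up (up M \ up P)).card

/-- the embedding of exponents -/
def cast (γ : ι → ℕ) : ι → ℤ := fun i => (γ i : ℤ)

theorem cast_inj : Function.Injective (cast : (ι → ℕ) → ι → ℤ) := by
  intro a b h
  funext i
  have := congrFun h i
  simpa [cast] using this

theorem cast_add_single (γ : ι → ℕ) (i : ι) :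
    cast γ + Pi.single i 1 = cast (γ + Pi.single i 1) := by
  funext x
  simp only [cast, Pi.add_apply, Pi.single_apply]
  split_ifs <;> simp

theorem sub_add_single {β : ι → ℕ} {j : ι} (h : 1 ≤ β j) :
    β - Pi.single j 1 + Pi.single j 1 = β := by
  funext x
  simp only [Pi.add_apply, Pi.sub_apply, Pi.single_apply]
  split_ifs with hx
  · subst hx; omega
  · omega

theorem sum_cast (γ : ι → ℕ) : ∑ i, cast γ i = ((∑ i, γ i : ℕ) : ℤ) := by
  simp [cast]

/-- positive part -/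
noncomputable def pos (n d : ℕ) (c : (Fin n → ℕ) → ℝ) : Finset (Fin n → ℤ) :=
  by classical exact ((Finset.Nat.antidiagonalTuple n d).filter (fun γ => 0 < c γ)).image cast

/-- negative part -/
noncomputable def neg (n d : ℕ) (c : (Fin n → ℕ) → ℝ) : Finset (Fin n → ℤ) :=
  by classical exact ((Finset.Nat.antidiagonalTuple n d).filter (fun γ => c γ < 0)).image cast

theorem mem_pos {n d : ℕ} {c : (Fin n → ℕ) → ℝ} {γ : Fin n → ℤ} :
    γ ∈ pos n d c ↔ ∃ δ : Fin n → ℕ, ∑ i, δ i = d ∧ 0 < c δ ∧ cast δ = γ := by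
  unfold pos
  simp only [mem_image, mem_filter, Finset.Nat.mem_antidiagonalTuple]
  constructor
  · rintro ⟨δ, ⟨h1, h2⟩, h3⟩; exact ⟨δ, h1, h2, h3⟩
  · rintro ⟨δ, h1, h2, h3⟩; exact ⟨δ, ⟨h1, h2⟩, h3⟩

theorem mem_neg {n d : ℕ} {c : (Fin n → ℕ) → ℝ} {γ : Fin n → ℤ} :
    γ ∈ neg n d c ↔ ∃ δ : Fin n → ℕ, ∑ i, δ i = d ∧ c δ < 0 ∧ cast δ = γ := by
  unfold neg
  simp only [mem_image, mem_filter, Finset.Nat.mem_antidiagonalTuple]
  constructor
  · rintro ⟨δ, ⟨h1, h2⟩, h3⟩; exact ⟨δ, h1, h2, h3⟩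
  · rintro ⟨δ, h1, h2, h3⟩; exact ⟨δ, ⟨h1, h2⟩, h3⟩

theorem lower_of_cost (n d G : ℕ)
    (H : ∀ P M : Finset (Fin n → ℤ), (∀ γ ∈ P, ∑ i, γ i = (d : ℤ)) →
      (∀ γ ∈ M, ∑ i, γ i = (d : ℤ)) → Disjoint P M → M.Nonempty → G ≤ cost P M) :
    ∀ c : (Fin n → ℕ) → ℝ,
          (∃ α ∈ Finset.Nat.antidiagonalTuple n d, c α < 0) →
          (∀ β ∈ Finset.Nat.antidiagonalTuple n (d + 1),
            0 ≤ ∑ j ∈ Finset.univ.filter (fun j : Fin n => 1 ≤ β j), c (β - Pi.single j 1)) →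
          G ≤
            ((Finset.Nat.antidiagonalTuple n (d + 1)).filter
              (fun β => ∑ j ∈ Finset.univ.filter (fun j : Fin n => 1 ≤ β j),
                  c (β - Pi.single j 1) ≠ 0)).card := by
  classical
  intro c hneg hb
  have hP : ∀ γ ∈ pos n d c, ∑ i, γ i = (d : ℤ) := by
    intro γ hγ
    obtain ⟨δ, h1, -, rfl⟩ := mem_pos.1 hγ
    rw [sum_cast, h1]
  have hM : ∀ γ ∈ neg n d c, ∑ i, γ i = (d : ℤ) := by
    intro γ hγ
    obtain ⟨δ, h1, -, rfl⟩ := mem_neg.1 hγ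
    rw [sum_cast, h1]
  have hdis : Disjoint (pos n d c) (neg n d c) := by
    rw [Finset.disjoint_left]
    intro γ h1 h2
    obtain ⟨δ, -, h3, rfl⟩ := mem_pos.1 h1
    obtain ⟨δ', -, h4, h5⟩ := mem_neg.1 h2
    rw [cast_inj h5] at h4
    exact lt_asymm h3 h4
  have hMne : (neg n d c).Nonempty := by
    obtain ⟨α, h1, h2⟩ := hneg
    exact ⟨cast α, mem_neg.2 ⟨α, Finset.Nat.mem_antidiagonalTuple.1 h1, h2, rfl⟩⟩
  refine (H _ _ hP hM hdis hMne).trans ?_
  have hdeg : ∀ (γ : Fin n → ℕ) (i : Fin n), ∑ x, γ x = d →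
      γ + Pi.single i 1 ∈ Finset.Nat.antidiagonalTuple n (d + 1) := by
    intro γ i h
    rw [Finset.Nat.mem_antidiagonalTuple]
    simp only [Pi.add_apply, Finset.sum_add_distrib, h, Finset.sum_pi_single', mem_univ, if_true]
  have hdeg' : ∀ (β : Fin n → ℕ) (j : Fin n), ∑ x, β x = d + 1 → 1 ≤ β j →
      ∑ x, (β - Pi.single j 1 : Fin n → ℕ) x = d := by
    intro β j h hj
    have h2 : ∑ x, (β - Pi.single j 1 + Pi.single j 1 : Fin n → ℕ) x = d + 1 := by
      rw [sub_add_single hj]; exact h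
    simp only [Pi.add_apply, Finset.sum_add_distrib, Finset.sum_pi_single', mem_univ,
      if_true] at h2
    omega
  have hsub : up (neg n d c) ⊆ up (pos n d c) := by
    intro β hβ
    obtain ⟨γ', h1, i, rfl⟩ := mem_up.1 hβ
    obtain ⟨γ, h2, h3, rfl⟩ := mem_neg.1 h1
    have h4 := hb _ (hdeg γ i h2)
    by_contra hcon
    have h5 : ∀ j ∈ Finset.univ.filter (fun j : Fin n => 1 ≤ (γ + Pi.single i 1 : Fin n → ℕ) j),
        c ((γ + Pi.single i 1 : Fin n → ℕ) - Pi.single j 1) ≤ 0 := by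
      intro j hj
      by_contra hpos
      push Not at hpos
      apply hcon
      rw [mem_filter] at hj
      rw [mem_up]
      refine ⟨cast (γ + Pi.single i 1 - Pi.single j 1), mem_pos.2
        ⟨_, hdeg' _ j (Finset.Nat.mem_antidiagonalTuple.1 (hdeg γ i h2)) hj.2, hpos, rfl⟩, j, ?_⟩
      rw [cast_add_single, cast_add_single, sub_add_single hj.2]
    have h6 : i ∈ Finset.univ.filter
        (fun j : Fin n => 1 ≤ (γ + Pi.single i 1 : Fin n → ℕ) j) := by
      rw [mem_filter]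
      exact ⟨mem_univ _, by simp⟩
    have h7 : c ((γ + Pi.single i 1 : Fin n → ℕ) - Pi.single i 1) < 0 := by
      have : ((γ + Pi.single i 1 : Fin n → ℕ) - Pi.single i 1) = γ := by
        funext x; simp
      rw [this]; exact h3
    have h8 := Finset.sum_lt_sum h5 ⟨i, h6, h7⟩
    rw [Finset.sum_const_zero] at h8
    exact absurd h8 (not_lt.2 h4)
  have hcost : cost (pos n d c) (neg n d c) = (up (pos n d c) \ up (neg n d c)).card := by
    unfold cost
    rw [Finset.sdiff_eq_empty_iff_subset.2 hsub]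
    simp [up]
  rw [hcost]
  have hsub2 : up (pos n d c) \ up (neg n d c) ⊆
      ((Finset.Nat.antidiagonalTuple n (d + 1)).filter
              (fun β => ∑ j ∈ Finset.univ.filter (fun j : Fin n => 1 ≤ β j),
                  c (β - Pi.single j 1) ≠ 0)).image cast := by
    intro β hβ
    rw [mem_sdiff] at hβ
    obtain ⟨γ', h1, i, rfl⟩ := mem_up.1 hβ.1
    obtain ⟨γ, h2, h3, rfl⟩ := mem_pos.1 h1
    rw [mem_image]
    refine ⟨γ + Pi.single i 1, ?_, (cast_add_single γ i).symm⟩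
    rw [mem_filter]
    refine ⟨hdeg γ i h2, ne_of_gt ?_⟩
    have h5 : ∀ j ∈ Finset.univ.filter (fun j : Fin n => 1 ≤ (γ + Pi.single i 1 : Fin n → ℕ) j),
        0 ≤ c ((γ + Pi.single i 1 : Fin n → ℕ) - Pi.single j 1) := by
      intro j hj
      by_contra hneg'
      push Not at hneg'
      apply hβ.2
      rw [mem_filter] at hj
      rw [mem_up]
      refine ⟨cast (γ + Pi.single i 1 - Pi.single j 1), mem_neg.2
        ⟨_, hdeg' _ j (Finset.Nat.mem_antidiagonalTuple.1 (hdeg γ i h2)) hj.2, hneg', rfl⟩, j, ?_⟩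
      rw [cast_add_single, cast_add_single, sub_add_single hj.2]
    refine Finset.sum_pos' h5 ⟨i, ?_, ?_⟩
    · rw [mem_filter]
      exact ⟨mem_univ _, by simp⟩
    · have : ((γ + Pi.single i 1 : Fin n → ℕ) - Pi.single i 1) = γ := by
        funext x; simp
      rw [this]; exact h3
  exact (Finset.card_le_card hsub2).trans Finset.card_image_le

end Pool.Agent.Work.MP_39acf6_an.Bridge
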