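import Mathlib

/-! MP_39acf6_an: the upper bound. The polynomial
`q = x_a^(d-2) (x_a^2 - x_a x_b + x_b (sum of x_k, k ≠ a))` has a negative coefficient and
`(sum of all x_j) q` has nonnegative coefficients and at most `C(n+1,2) - 1` monomials. -/

set_option autoImplicit false
set_option linter.unusedSectionVars false

open Finset

namespace Pool.Agent.Work.MP_39acf6_an.Upper

variable {ι : Type*} [Fintype ι] [DecidableEq ι]

/-- the prolonged coefficient, as in the frozen statement -/
noncomputable def pro (c : (ι → ℕ) → ℝ) (β : ι → ℕ) : ℝ :=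
  ∑ j ∈ Finset.univ.filter (fun j : ι => 1 ≤ β j), c (β - Pi.single j 1)

/-- the indicator function of `μ` -/
noncomputable def ind (μ β : ι → ℕ) : ℝ := if β = μ then 1 else 0

theorem ind_nonneg (μ β : ι → ℕ) : 0 ≤ ind μ β := by unfold ind; split_ifs <;> norm_num

theorem ind_ne_zero {μ β : ι → ℕ} (h : ind μ β ≠ 0) : β = μ := by
  unfold ind at h
  by_contra hne
  simp [hne] at h

theorem pro_ind (μ β : ι → ℕ) : pro (ind μ) β = ∑ j, ind (μ + Pi.single j 1) β := by
  unfold pro
  rw [Finset.sum_filter]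
  refine Finset.sum_congr rfl fun j _ => ?_
  unfold ind
  by_cases h : β = μ + Pi.single j 1
  · subst h
    simp
  · rw [if_neg h]
    split_ifs with h1 h2
    · exfalso
      apply h
      rw [← h2]
      ext x
      by_cases hx : x = j
      · subst hx
        simp
        omega
      · simp [hx]
    · rfl
    · rfl

theorem pro_add (c c' : (ι → ℕ) → ℝ) (β : ι → ℕ) :
    pro (fun γ => c γ + c' γ) β = pro c β + pro c' β := by
  unfold pro
  rw [← Finset.sum_add_distrib]

theorem pro_sub (c c' : (ι → ℕ) → ℝ) (β : ι → ℕ) :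
    pro (fun γ => c γ - c' γ) β = pro c β - pro c' β := by
  unfold pro
  rw [← Finset.sum_sub_distrib]

theorem pro_sum {κ : Type*} (s : Finset κ) (c : κ → (ι → ℕ) → ℝ) (β : ι → ℕ) :
    pro (fun γ => ∑ k ∈ s, c k γ) β = ∑ k ∈ s, pro (c k) β := by
  unfold pro
  rw [Finset.sum_comm]

/-- the coefficients of the extremal example -/
noncomputable def cc (a b : ι) (d : ℕ) (γ : ι → ℕ) : ℝ :=
  ind (Pi.single a d) γ - ind (Pi.single a (d - 1) + Pi.single b 1) γ +
    ∑ k ∈ univ.erase a, ind (Pi.single a (d - 2) + Pi.single b 1 + Pi.single k 1) γ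

theorem pro_cc (a b : ι) (hab : a ≠ b) (d : ℕ) (hd : 2 ≤ d) (β : ι → ℕ) :
    pro (cc a b d) β = ∑ j ∈ univ.erase b, ind (Pi.single a d + Pi.single j 1) β +
      ∑ k ∈ univ.erase a, ∑ j ∈ univ.erase a,
        ind (Pi.single a (d - 2) + Pi.single b 1 + Pi.single k 1 + Pi.single j 1) β := by
  have e1 : pro (cc a b d) β = ∑ j, ind (Pi.single a d + Pi.single j 1) β -
      ∑ j, ind (Pi.single a (d - 1) + Pi.single b 1 + Pi.single j 1) β +
      ∑ k ∈ univ.erase a, ∑ j,
        ind (Pi.single a (d - 2) + Pi.single b 1 + Pi.single k 1 + Pi.single j 1) β := by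
    have : cc a b d = fun γ => (fun γ => ind (Pi.single a d) γ -
        ind (Pi.single a (d - 1) + Pi.single b 1) γ) γ +
        (fun γ => ∑ k ∈ univ.erase a,
          ind (Pi.single a (d - 2) + Pi.single b 1 + Pi.single k 1) γ) γ := by
      funext γ; rfl
    rw [this, pro_add, pro_sub, pro_sum, pro_ind, pro_ind]
    congr 1
    exact Finset.sum_congr rfl fun k _ => pro_ind _ _
  rw [e1]
  rw [← Finset.add_sum_erase univ _ (mem_univ b)]
  have e4 : ∑ j, ind (Pi.single a (d - 1) + Pi.single b 1 + Pi.single j 1) β =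
      ind (Pi.single a (d - 1) + Pi.single b 1 + Pi.single a 1) β +
      ∑ j ∈ univ.erase a, ind (Pi.single a (d - 1) + Pi.single b 1 + Pi.single j 1) β :=
    (Finset.add_sum_erase univ _ (mem_univ a)).symm
  have e2 : ∑ k ∈ univ.erase a, ∑ j,
        ind (Pi.single a (d - 2) + Pi.single b 1 + Pi.single k 1 + Pi.single j 1) β =
      ∑ k ∈ univ.erase a, ind (Pi.single a (d - 1) + Pi.single b 1 + Pi.single k 1) β +
      ∑ k ∈ univ.erase a, ∑ j ∈ univ.erase a,
        ind (Pi.single a (d - 2) + Pi.single b 1 + Pi.single k 1 + Pi.single j 1) β := by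
    rw [← Finset.sum_add_distrib]
    refine Finset.sum_congr rfl fun k hk => ?_
    rw [← Finset.add_sum_erase univ _ (mem_univ a)]
    congr 2
    ext x
    simp only [Pi.add_apply, Pi.single_apply]
    split_ifs <;> omega
  have e3 : (Pi.single a d + Pi.single b 1 : ι → ℕ) =
      Pi.single a (d - 1) + Pi.single b 1 + Pi.single a 1 := by
    ext x
    simp only [Pi.add_apply, Pi.single_apply]
    split_ifs <;> omega
  rw [e2, e3, e4]
  ring

/-- the support of the example -/
noncomputable def supp (a b : ι) (d : ℕ) : Finset (ι → ℕ) :=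
  (univ.erase b).image (fun j => Pi.single a d + Pi.single j 1) ∪
    ((univ.erase a).sym2).image (fun z => Sym2.lift ⟨fun k j =>
      (Pi.single a (d - 2) + Pi.single b 1 + Pi.single k 1 + Pi.single j 1 : ι → ℕ),
        fun k j => by
          change _ + _ + _ + _ = _ + _ + _ + _
          rw [add_right_comm]⟩ z)

theorem card_supp (a b : ι) (d : ℕ) :
    (supp a b d).card ≤ (Fintype.card ι + 1).choose 2 - 1 := by
  refine (Finset.card_union_le _ _).trans ?_
  refine (add_le_add Finset.card_image_le Finset.card_image_le).trans ?_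
  rw [Finset.card_sym2, Finset.card_erase_of_mem (mem_univ _),
    Finset.card_erase_of_mem (mem_univ _), Finset.card_univ]
  have hpos : 1 ≤ Fintype.card ι := Fintype.card_pos_iff.2 ⟨a⟩
  obtain ⟨m, hm⟩ := Nat.exists_eq_add_of_le hpos
  rw [hm]
  have h1 : (1 + m + 1).choose 2 = (1 + m).choose 1 + (1 + m).choose 2 := by
    rw [Nat.choose_succ_succ' (1 + m) 1]
  rw [h1, Nat.choose_one_right]
  have : 1 + m - 1 + 1 = 1 + m := by omega
  rw [this]
  omega

theorem pro_nonneg (a b : ι) (hab : a ≠ b) (d : ℕ) (hd : 2 ≤ d) (β : ι → ℕ) :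
    0 ≤ pro (cc a b d) β := by
  rw [pro_cc a b hab d hd]
  refine add_nonneg (Finset.sum_nonneg fun j _ => ind_nonneg _ _) ?_
  exact Finset.sum_nonneg fun j _ => Finset.sum_nonneg fun j _ => ind_nonneg _ _

theorem mem_supp (a b : ι) (hab : a ≠ b) (d : ℕ) (hd : 2 ≤ d) (β : ι → ℕ)
    (h : pro (cc a b d) β ≠ 0) : β ∈ supp a b d := by
  by_contra hn
  apply h
  rw [pro_cc a b hab d hd]
  have h1 : ∑ j ∈ univ.erase b, ind (Pi.single a d + Pi.single j 1) β = 0 := by
    refine Finset.sum_eq_zero fun j hj => ?_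
    by_contra h0
    apply hn
    unfold supp
    rw [mem_union]
    left
    rw [mem_image]
    exact ⟨j, hj, (ind_ne_zero h0).symm⟩
  have h2 : ∑ k ∈ univ.erase a, ∑ j ∈ univ.erase a,
      ind (Pi.single a (d - 2) + Pi.single b 1 + Pi.single k 1 + Pi.single j 1) β = 0 := by
    refine Finset.sum_eq_zero fun k hk => Finset.sum_eq_zero fun j hj => ?_
    by_contra h0
    apply hn
    unfold supp
    rw [mem_union]
    right
    rw [mem_image]
    refine ⟨s(k, j), ?_, ?_⟩
    · rw [Finset.mk_mem_sym2_iff]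
      exact ⟨hk, hj⟩
    · exact (ind_ne_zero h0).symm
  rw [h1, h2, add_zero]

theorem cc_neg (a b : ι) (hab : a ≠ b) (d : ℕ) (hd : 2 ≤ d) :
    cc a b d (Pi.single a (d - 1) + Pi.single b 1) = -1 := by
  unfold cc
  have h1 : ind (Pi.single a d) (Pi.single a (d - 1) + Pi.single b 1) = 0 := by
    unfold ind
    rw [if_neg]
    intro h
    have := congrFun h b
    simp [hab.symm] at this
  have h2 : ∑ k ∈ univ.erase a, ind (Pi.single a (d - 2) + Pi.single b 1 + Pi.single k 1)
      (Pi.single a (d - 1) + Pi.single b 1) = 0 := by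
    refine Finset.sum_eq_zero fun k hk => ?_
    unfold ind
    rw [if_neg]
    intro h
    have := congrFun h a
    have hka : a ≠ k := (ne_of_mem_erase hk).symm
    simp [hab, hka] at this
    omega
  rw [h1, h2]
  simp [ind]

theorem sum_single_add (a b : ι) (d : ℕ) (hd : 2 ≤ d) :
    ∑ i, (Pi.single a (d - 1) + Pi.single b 1 : ι → ℕ) i = d := by
  simp only [Pi.add_apply, Finset.sum_add_distrib, Finset.sum_pi_single', Finset.mem_univ,
    if_true]
  omega

/-- the upper bound -/
theorem upper (n d : ℕ) (hn : 2 ≤ n) (hd : 2 ≤ d) :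
    ∃ c : (Fin n → ℕ) → ℝ,
          (∃ α ∈ Finset.Nat.antidiagonalTuple n d, c α < 0) ∧
          (∀ β ∈ Finset.Nat.antidiagonalTuple n (d + 1),
            0 ≤ ∑ j ∈ Finset.univ.filter (fun j : Fin n => 1 ≤ β j), c (β - Pi.single j 1)) ∧
          ((Finset.Nat.antidiagonalTuple n (d + 1)).filter
              (fun β => ∑ j ∈ Finset.univ.filter (fun j : Fin n => 1 ≤ β j),
                  c (β - Pi.single j 1) ≠ 0)).card ≤ (n + 1).choose 2 - 1 := by
  have ha : 0 < n := by omega
  have hb : 1 < n := by omega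
  have hab : (⟨0, ha⟩ : Fin n) ≠ ⟨1, hb⟩ := by simp
  refine ⟨cc (⟨0, ha⟩ : Fin n) ⟨1, hb⟩ d, ?_, ?_, ?_⟩
  · refine ⟨Pi.single ⟨0, ha⟩ (d - 1) + Pi.single ⟨1, hb⟩ 1, ?_, ?_⟩
    · rw [Finset.Nat.mem_antidiagonalTuple]
      exact sum_single_add _ _ d hd
    · rw [cc_neg _ _ hab d hd]
      norm_num
  · intro β _
    exact pro_nonneg _ _ hab d hd β
  · refine (Finset.card_le_card ?_).trans ((card_supp (⟨0, ha⟩ : Fin n) ⟨1, hb⟩ d).trans ?_)
    · intro β hβ
      rw [mem_filter] at hβ
      exact mem_supp _ _ hab d hd β hβ.2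
    · rw [Fintype.card_fin]

end Pool.Agent.Work.MP_39acf6_an.Upper
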