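import Mathlib

/-!
Basic definitions for MP_39acf6_an.  Polynomials live in `MvPolynomial σ ℝ`; a finite set `A` of
variables is active.
-/

set_option autoImplicit false
set_option linter.unusedSectionVars false

open MvPolynomial Finsupp

namespace Pool.Agent.MP39

variable {σ : Type*} [LinearOrder σ]

/-- The linear form `∑_{a ∈ A} X a`. -/
noncomputable def E (A : Finset σ) : MvPolynomial σ ℝ := ∑ a ∈ A, X a

/-- `p` is homogeneous of degree `d` in the variables of `A`, and `E A * p` has nonnegative
coefficients. -/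
structure Pos (A : Finset σ) (d : ℕ) (p : MvPolynomial σ ℝ) : Prop where
  hom : ∀ m, coeff m p ≠ 0 → m.degree = d
  vars : ∀ m, coeff m p ≠ 0 → m.support ⊆ A
  nonneg : ∀ m, 0 ≤ coeff m (E A * p)

/-- The number of terms of `E A * p`. -/
noncomputable def N (A : Finset σ) (p : MvPolynomial σ ℝ) : ℕ := (E A * p).support.card

/-- Set the variable `a` to zero. -/
noncomputable def cut (a : σ) : MvPolynomial σ ℝ →ₐ[ℝ] MvPolynomial σ ℝ :=
  aeval (fun i => if i = a then 0 else X i)

/-- The part divisible by `X a`, divided by `X a`. -/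
noncomputable def quo (a : σ) (p : MvPolynomial σ ℝ) : MvPolynomial σ ℝ :=
  p.divMonomial (single a 1)

theorem coeff_quo (a : σ) (p : MvPolynomial σ ℝ) (m : σ →₀ ℕ) :
    coeff m (quo a p) = coeff (m + single a 1) p := by
  unfold quo
  rw [coeff_divMonomial, add_comm]

theorem coeff_E_mul (A : Finset σ) (p : MvPolynomial σ ℝ) (m : σ →₀ ℕ) :
    coeff m (E A * p) = ∑ a ∈ A, if m a ≠ 0 then coeff (m - single a 1) p else 0 := by
  unfold E
  rw [Finset.sum_mul, coeff_sum]
  refine Finset.sum_congr rfl fun a _ => ?_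
  rw [coeff_X_mul']
  simp only [Finsupp.mem_support_iff]

theorem cut_monomial (a : σ) (m : σ →₀ ℕ) (r : ℝ) :
    cut a (monomial m r) = if m a = 0 then monomial m r else 0 := by
  unfold cut
  rw [aeval_monomial]
  split_ifs with h
  · rw [monomial_eq, MvPolynomial.algebraMap_eq]
    congr 1
    refine Finsupp.prod_congr fun i hi => ?_
    have : i ≠ a := by rintro rfl; simp at hi; exact hi h
    simp [this]
  · have : m.prod (fun i k => (if i = a then (0 : MvPolynomial σ ℝ) else X i) ^ k) = 0 := by
      rw [Finsupp.prod]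
      apply Finset.prod_eq_zero (i := a) (by simpa using h)
      simp [h]
    rw [this, mul_zero]

theorem coeff_cut (a : σ) (p : MvPolynomial σ ℝ) (m : σ →₀ ℕ) :
    coeff m (cut a p) = if m a = 0 then coeff m p else 0 := by
  induction p using MvPolynomial.induction_on' with
  | monomial u r =>
    rw [cut_monomial]
    by_cases hu : u a = 0
    · rw [if_pos hu]
      by_cases hm : u = m
      · subst hm; simp [hu]
      · simp [coeff_monomial, hm]
    · rw [if_neg hu]
      by_cases hm : u = m
      · subst hm; simp [hu]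
      · simp [coeff_monomial, hm]
  | add p q hp hq =>
    rw [map_add, coeff_add, hp, hq, coeff_add]
    split_ifs <;> simp

theorem cut_X_self (a : σ) : cut a (X a : MvPolynomial σ ℝ) = 0 := by simp [cut]

theorem cut_X_ne {a i : σ} (h : i ≠ a) : cut a (X i : MvPolynomial σ ℝ) = X i := by simp [cut, h]

theorem cut_E (A : Finset σ) (a : σ) : cut a (E A) = E (A.erase a) := by
  unfold E
  rw [map_sum]
  by_cases ha : a ∈ A
  · rw [← Finset.add_sum_erase A _ ha, cut_X_self, zero_add]
    exact Finset.sum_congr rfl fun i hi => cut_X_ne (Finset.ne_of_mem_erase hi)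
  · rw [Finset.erase_eq_of_notMem ha]
    exact Finset.sum_congr rfl fun i hi => cut_X_ne (by rintro rfl; exact ha hi)

theorem cut_add_quo (a : σ) (p : MvPolynomial σ ℝ) : cut a p + X a * quo a p = p := by
  ext m
  rw [coeff_add, coeff_cut, coeff_X_mul']
  by_cases h : m a = 0
  · have : a ∉ m.support := by simpa using h
    rw [if_pos h, if_neg this, add_zero]
  · have h' : a ∈ m.support := by simpa using h
    rw [if_neg h, if_pos h', coeff_quo, zero_add]
    congr 1
    apply tsub_add_cancel_of_le
    rw [Finsupp.single_le_iff]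
    omega

/-- On the hyperplane `∑_{a ∈ A} v a = 0` the product `E A * p` vanishes. -/
theorem eval_E_mul (A : Finset σ) (p : MvPolynomial σ ℝ) (v : σ → ℝ) (hv : ∑ a ∈ A, v a = 0) :
    eval v (E A * p) = 0 := by
  rw [map_mul]
  have : eval v (E A) = ∑ a ∈ A, v a := by simp [E]
  rw [this, hv, zero_mul]

theorem E_ne_zero {A : Finset σ} (hA : A.Nonempty) : E A ≠ 0 := by
  intro h
  obtain ⟨a, ha⟩ := hA
  have h1 : coeff (single a 1) (E A * 1) = 1 := by
    rw [coeff_E_mul, Finset.sum_eq_single a]
    · simp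
    · intro b _ hb
      simp [hb.symm]
    · intro h; exact absurd ha h
  rw [h] at h1
  simp at h1

/-- The monomials of `E A * p` are homogeneous of degree `d + 1`. -/
theorem Pos.hom_E {A : Finset σ} {d : ℕ} {p : MvPolynomial σ ℝ} (h : Pos A d p) {m : σ →₀ ℕ}
    (hm : coeff m (E A * p) ≠ 0) : m.degree = d + 1 := by
  rw [coeff_E_mul] at hm
  obtain ⟨a, _, ha⟩ := Finset.exists_ne_zero_of_sum_ne_zero hm
  have hma : m a ≠ 0 := by
    intro h0; rw [if_neg (by simpa using h0)] at ha; exact ha rfl
  rw [if_pos hma] at ha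
  have := h.hom _ ha
  have hle : single a 1 ≤ m := by rw [Finsupp.single_le_iff]; omega
  have h2 : (m - single a 1) + single a 1 = m := tsub_add_cancel_of_le hle
  rw [← h2, map_add, this]
  simp

theorem Pos.vars_E {A : Finset σ} {d : ℕ} {p : MvPolynomial σ ℝ} (h : Pos A d p) {m : σ →₀ ℕ}
    (hm : coeff m (E A * p) ≠ 0) : m.support ⊆ A := by
  rw [coeff_E_mul] at hm
  obtain ⟨a, haA, ha⟩ := Finset.exists_ne_zero_of_sum_ne_zero hm
  have hma : m a ≠ 0 := by
    intro h0; rw [if_neg (by simpa using h0)] at ha; exact ha rfl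
  rw [if_pos hma] at ha
  have h1 := h.vars _ ha
  intro b hb
  by_cases hba : b = a
  · subst hba; exact haA
  · apply h1
    simp only [Finsupp.mem_support_iff, Finsupp.coe_tsub, Pi.sub_apply] at hb ⊢
    rw [Finsupp.single_eq_of_ne (fun h => hba h)]
    simpa using hb

/-- Facets: setting a variable to zero. -/
theorem Pos.cut {A : Finset σ} {d : ℕ} {p : MvPolynomial σ ℝ} (h : Pos A d p) (a : σ) :
    Pos (A.erase a) d (cut a p) := by
  refine ⟨fun m hm => ?_, fun m hm => ?_, fun m => ?_⟩
  · rw [coeff_cut] at hm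
    split_ifs at hm with h0
    · exact h.hom m hm
    · exact absurd rfl hm
  · rw [coeff_cut] at hm
    split_ifs at hm with h0
    · intro b hb
      refine Finset.mem_erase.2 ⟨?_, h.vars m hm hb⟩
      rintro rfl
      simp at hb
      exact hb h0
    · exact absurd rfl hm
  · rw [← cut_E, ← map_mul, coeff_cut]
    split_ifs
    · exact h.nonneg m
    · exact le_refl _

theorem support_cut (a : σ) (q : MvPolynomial σ ℝ) :
    (Pool.Agent.MP39.cut a q).support = q.support.filter (fun m => m a = 0) := by
  ext m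
  rw [MvPolynomial.mem_support_iff, coeff_cut, Finset.mem_filter, MvPolynomial.mem_support_iff]
  by_cases h : m a = 0 <;> simp [h]

theorem N_cut (A : Finset σ) (a : σ) (p : MvPolynomial σ ℝ) :
    N (A.erase a) (Pool.Agent.MP39.cut a p) = ((E A * p).support.filter (fun m => m a = 0)).card := by
  unfold N
  rw [← cut_E, ← map_mul, support_cut]

/-- `N = N(facet) + (number of terms divisible by X a)`. -/
theorem N_eq (A : Finset σ) (a : σ) (p : MvPolynomial σ ℝ) :
    N A p = N (A.erase a) (Pool.Agent.MP39.cut a p) +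
      ((E A * p).support.filter (fun m => m a ≠ 0)).card := by
  rw [N_cut, N, ← Finset.card_filter_add_card_filter_not (fun m : σ →₀ ℕ => m a = 0)]

/-- The exceptional polynomials in four variables. -/
def Form4 (A : Finset σ) (p : MvPolynomial σ ℝ) : Prop :=
  ∃ (c : ℝ) (μ : σ →₀ ℕ) (u v w z : σ), 0 < c ∧ [u, v, w, z].Nodup ∧ A = {u, v, w, z} ∧
    μ.support ⊆ A ∧
    p = monomial μ c * ((X u + X v) ^ 2 - (X u + X v) * (X w + X z) + (X w + X z) ^ 2)

end Pool.Agent.MP39
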