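import Mathlib

set_option autoImplicit false

namespace Pool.Agent.MP_39acf6_an

/-- The prolongation: `b_β = ∑_{j, β_j ≥ 1} c_{β - e_j}`. -/
def prol {n : ℕ} (c : (Fin n → ℕ) → ℝ) (β : Fin n → ℕ) : ℝ :=
  ∑ j ∈ Finset.univ.filter (fun j : Fin n => 1 ≤ β j), c (β - Pi.single j 1)

/-- Admissible coefficient vectors: some `c_α < 0` and all `b_β ≥ 0`. -/
def Adm (n d : ℕ) (c : (Fin n → ℕ) → ℝ) : Prop :=
  (∃ α ∈ Finset.Nat.antidiagonalTuple n d, c α < 0) ∧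
    ∀ β ∈ Finset.Nat.antidiagonalTuple n (d + 1), 0 ≤ prol c β

/-- The number of nonzero coefficients `b_β`, `|β| = d + 1`. -/
noncomputable def rk (n d : ℕ) (c : (Fin n → ℕ) → ℝ) : ℕ :=
  ((Finset.Nat.antidiagonalTuple n (d + 1)).filter (fun β => prol c β ≠ 0)).card

/-- The set of all ranks. -/
def rkSet (n d : ℕ) : Set ℕ := {r | ∃ c : (Fin n → ℕ) → ℝ, Adm n d c ∧ rk n d c = r}

/-- The minimal rank `R_{n,d}`. -/
noncomputable def R (n d : ℕ) : ℕ := sInf (rkSet n d)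

end Pool.Agent.MP_39acf6_an
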