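import Pool.Agent.Work.MP_39acf6_an.Shift
import Pool.Agent.Work.MP_39acf6_an.Upper
import Pool.Agent.Work.MP_39acf6_an.Bridge
import Pool.Agent.Work.MP_39acf6_an.H80Defs

/-!
# Q2: the minimal rank does not depend on the degree
-/

set_option autoImplicit false

namespace Pool.Agent.MP_39acf6_an

open Finset

/-- the lower bound for cost, in all cardinalities -/
def LowerCost : Prop :=
  ∀ n : ℕ, 2 ≤ n → ∀ (d : ℤ) (P M : Finset (Fin n → ℤ)),
    SignPat.Gen (Finset.univ : Finset (Fin n)) 0 d P M →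
      SignPat.F n ≤ SignPat.g (Finset.univ : Finset (Fin n)) P M

lemma up_eq {n : ℕ} (A : Finset (Fin n → ℤ)) :
    Pool.Agent.Work.MP_39acf6_an.Bridge.up A = SignPat.up (Finset.univ : Finset (Fin n)) A := by
  ext c
  rw [Pool.Agent.Work.MP_39acf6_an.Bridge.mem_up, SignPat.mem_up]
  constructor
  · rintro ⟨γ, hγ, i, rfl⟩
    refine ⟨i, mem_univ _, ?_⟩
    simpa using hγ
  · rintro ⟨i, _, h⟩
    refine ⟨c - SignPat.E i, h, i, ?_⟩
    simp

lemma cost_eq {n : ℕ} (P M : Finset (Fin n → ℤ)) :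
    Pool.Agent.Work.MP_39acf6_an.Bridge.cost P M =
      SignPat.g (Finset.univ : Finset (Fin n)) P M := by
  unfold Pool.Agent.Work.MP_39acf6_an.Bridge.cost SignPat.g SignPat.sinks SignPat.unc
  simp only [up_eq]

lemma lower_all (H : LowerCost) (n d : ℕ) (hn : 2 ≤ n) (c : (Fin n → ℕ) → ℝ) (hc : Adm n d c) :
    SignPat.F n ≤ rk n d c := by
  have h := Pool.Agent.Work.MP_39acf6_an.Bridge.lower_of_cost n d (SignPat.F n) (by
    intro P M hP hM hdis hne
    rw [cost_eq]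
    exact H n hn d P M ⟨fun x _ j hj => absurd (mem_univ j) hj,
      fun x _ j hj => absurd (mem_univ j) hj, hP, hM, hdis, hne⟩)
  exact h c hc.1 hc.2

/-- the value -/
def val (n : ℕ) : ℕ := if n = 4 then 8 else (n + 1).choose 2 - 1

lemma val_eq {n : ℕ} (hn : 2 ≤ n) : SignPat.F n = val n := by
  unfold SignPat.F val
  rw [if_neg (by omega)]

lemma val_mem (H : LowerCost) (n d : ℕ) (hn : 2 ≤ n) (hd : 2 ≤ d) : val n ∈ rkSet n d := by
  by_cases h4 : n = 4
  · subst h4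
    exact rkSet_of_two (by norm_num) ex4 d hd
  · obtain ⟨c, h1, h2, h3⟩ := Pool.Agent.Work.MP_39acf6_an.Upper.upper n d hn hd
    have hA : Adm n d c := ⟨h1, h2⟩
    refine ⟨c, hA, le_antisymm ?_ ?_⟩
    · unfold val
      rw [if_neg h4]
      exact h3
    · rw [← val_eq hn]
      exact lower_all H n d hn c hA

lemma isLeast_val (H : LowerCost) (n d : ℕ) (hn : 2 ≤ n) (hd : 2 ≤ d) :
    IsLeast (rkSet n d) (val n) := by
  refine ⟨val_mem H n d hn hd, ?_⟩
  rintro r ⟨c, hc, rfl⟩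
  rw [← val_eq hn]
  exact lower_all H n d hn c hc

lemma R_eq (H : LowerCost) (n d : ℕ) (hn : 2 ≤ n) (hd : 2 ≤ d) : R n d = val n :=
  (isLeast_val H n d hn hd).csInf_eq

theorem q2_main (H : LowerCost) :
    (∀ n d : ℕ, 2 ≤ n → 2 ≤ d → R n d = R n (d + 1)) ∧
      (∀ n d : ℕ, 2 ≤ n → 2 ≤ d →
        IsLeast (rkSet n d) (if n = 4 then 8 else (n + 1).choose 2 - 1)) := by
  refine ⟨?_, ?_⟩
  · intro n d hn hd
    rw [R_eq H n d hn hd, R_eq H n (d + 1) hn (by omega)]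
  · intro n d hn hd
    exact isLeast_val H n d hn hd

end Pool.Agent.MP_39acf6_an
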