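import Pool.Agent.Work.MP_39acf6_an.Q2Defs

set_option autoImplicit false

namespace Pool.Agent.MP_39acf6_an

open Finset

/-- Multiplication by the variable `i0`. -/
noncomputable def shiftC {n : ℕ} (i0 : Fin n) (c : (Fin n → ℕ) → ℝ) (α : Fin n → ℕ) : ℝ :=
  if 1 ≤ α i0 then c (α - Pi.single i0 1) else 0

lemma prol_shift_zero {n : ℕ} (i0 : Fin n) (c : (Fin n → ℕ) → ℝ) (β : Fin n → ℕ)
    (h : β i0 = 0) : prol (shiftC i0 c) β = 0 := by
  unfold prol
  apply Finset.sum_eq_zero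
  intro j hj
  unfold shiftC
  rw [if_neg]
  have : (β - Pi.single j 1 : Fin n → ℕ) i0 ≤ β i0 := by simp
  omega

lemma prol_shift_succ {n : ℕ} (i0 : Fin n) (c : (Fin n → ℕ) → ℝ) (β : Fin n → ℕ) :
    prol (shiftC i0 c) (β + Pi.single i0 1) = prol c β := by
  unfold prol
  rw [Finset.sum_filter, Finset.sum_filter]
  apply Finset.sum_congr rfl
  intro j _
  unfold shiftC
  by_cases hj : j = i0
  · subst hj
    have e1 : (β + Pi.single j 1 - Pi.single j 1 : Fin n → ℕ) = β := by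
      funext k; simp
    rw [if_pos (by simp), e1]
  · have e1 : (β + Pi.single i0 1 : Fin n → ℕ) j = β j := by
      simp [hj]
    rw [e1]
    by_cases hb : 1 ≤ β j
    · rw [if_pos hb, if_pos hb]
      have e2 : (β + Pi.single i0 1 - Pi.single j 1 - Pi.single i0 1 : Fin n → ℕ)
          = β - Pi.single j 1 := by
        funext k
        simp only [Pi.add_apply, Pi.sub_apply, Pi.single_apply]
        split_ifs <;> omega
      rw [if_pos, e2]
      simp only [Pi.add_apply, Pi.sub_apply, Pi.single_apply]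
      have : ¬ (i0 = j) := fun h => hj h.symm
      simp [this]
    · rw [if_neg hb, if_neg hb]

lemma mem_adt {n d : ℕ} (f : Fin n → ℕ) :
    f ∈ Finset.Nat.antidiagonalTuple n d ↔ ∑ i, f i = d :=
  Finset.Nat.mem_antidiagonalTuple

lemma sum_add_single {n : ℕ} (i0 : Fin n) (β : Fin n → ℕ) :
    ∑ i, (β + Pi.single i0 1 : Fin n → ℕ) i = ∑ i, β i + 1 := by
  simp only [Pi.add_apply, Finset.sum_add_distrib]
  simp

lemma exists_of_pos {n : ℕ} (i0 : Fin n) (β : Fin n → ℕ) (h : 1 ≤ β i0) :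
    (β - Pi.single i0 1) + Pi.single i0 1 = β := by
  funext k
  simp only [Pi.add_apply, Pi.sub_apply, Pi.single_apply]
  split_ifs with hk
  · subst hk; omega
  · omega

lemma adm_shift {n d : ℕ} (i0 : Fin n) (c : (Fin n → ℕ) → ℝ) (h : Adm n d c) :
    Adm n (d + 1) (shiftC i0 c) := by
  obtain ⟨⟨α, hα, hc⟩, hb⟩ := h
  refine ⟨⟨α + Pi.single i0 1, ?_, ?_⟩, ?_⟩
  · rw [mem_adt, sum_add_single, (mem_adt α).1 hα]
  · unfold shiftC
    rw [if_pos (by simp)]
    have e1 : (α + Pi.single i0 1 - Pi.single i0 1 : Fin n → ℕ) = α := by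
      funext k; simp
    rw [e1]; exact hc
  · intro β hβ
    by_cases h0 : 1 ≤ β i0
    · rw [← exists_of_pos i0 β h0, prol_shift_succ]
      apply hb
      rw [mem_adt] at hβ ⊢
      have := sum_add_single i0 (β - Pi.single i0 1)
      rw [exists_of_pos i0 β h0] at this
      omega
    · rw [prol_shift_zero i0 c β (by omega)]

lemma rk_shift {n d : ℕ} (i0 : Fin n) (c : (Fin n → ℕ) → ℝ) :
    rk n (d + 1) (shiftC i0 c) = rk n d c := by
  unfold rk
  symm
  apply Finset.card_bij (fun β _ => β + Pi.single i0 1)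
  · intro β hβ
    rw [Finset.mem_filter] at hβ ⊢
    refine ⟨?_, ?_⟩
    · rw [mem_adt, sum_add_single, (mem_adt β).1 hβ.1]
    · rw [prol_shift_succ]; exact hβ.2
  · intro a _ b _ hab
    exact add_right_cancel hab
  · intro β hβ
    rw [Finset.mem_filter] at hβ
    have h0 : 1 ≤ β i0 := by
      by_contra h
      exact hβ.2 (prol_shift_zero i0 c β (by omega))
    refine ⟨β - Pi.single i0 1, ?_, exists_of_pos i0 β h0⟩
    rw [Finset.mem_filter]
    refine ⟨?_, ?_⟩
    · have h1 := (mem_adt β).1 hβ.1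
      rw [mem_adt]
      have := sum_add_single i0 (β - Pi.single i0 1)
      rw [exists_of_pos i0 β h0] at this
      omega
    · rw [← prol_shift_succ i0 c, exists_of_pos i0 β h0]; exact hβ.2

lemma rkSet_shift {n d : ℕ} (hn : 1 ≤ n) {r : ℕ} (h : r ∈ rkSet n d) : r ∈ rkSet n (d + 1) := by
  obtain ⟨c, hc, hr⟩ := h
  refine ⟨shiftC ⟨0, hn⟩ c, adm_shift _ c hc, ?_⟩
  rw [rk_shift]; exact hr

/-- It is enough to give an example in degree `2`. -/
lemma rkSet_of_two {n : ℕ} (hn : 1 ≤ n) {r : ℕ} (h : r ∈ rkSet n 2) (d : ℕ) (hd : 2 ≤ d) :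
    r ∈ rkSet n d := by
  induction d, hd using Nat.le_induction with
  | base => exact h
  | succ d _ ih => exact rkSet_shift hn ih

/-- Integer version of the prolongation, for computations. -/
def prolZ {n : ℕ} (c : (Fin n → ℕ) → ℤ) (β : Fin n → ℕ) : ℤ :=
  ∑ j ∈ Finset.univ.filter (fun j : Fin n => 1 ≤ β j), c (β - Pi.single j 1)

lemma prol_cast {n : ℕ} (c : (Fin n → ℕ) → ℤ) (β : Fin n → ℕ) :
    prol (fun α => (c α : ℝ)) β = (prolZ c β : ℝ) := by
  unfold prol prolZ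
  push_cast
  rfl

lemma rkSet_of_int {n d r : ℕ} (c : (Fin n → ℕ) → ℤ)
    (h1 : ∃ α ∈ Finset.Nat.antidiagonalTuple n d, c α < 0)
    (h2 : ∀ β ∈ Finset.Nat.antidiagonalTuple n (d + 1), 0 ≤ prolZ c β)
    (h3 : ((Finset.Nat.antidiagonalTuple n (d + 1)).filter (fun β => prolZ c β ≠ 0)).card = r) :
    r ∈ rkSet n d := by
  refine ⟨fun α => (c α : ℝ), ⟨?_, ?_⟩, ?_⟩
  · obtain ⟨α, hα, hc⟩ := h1
    refine ⟨α, hα, ?_⟩
    show ((c α : ℤ) : ℝ) < 0
    exact_mod_cast hc
  · intro β hβ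
    rw [prol_cast]; exact_mod_cast h2 β hβ
  · unfold rk
    rw [← h3]
    congr 1
    apply Finset.filter_congr
    intro β _
    rw [prol_cast]
    constructor
    · intro h h'; exact h (by exact_mod_cast h')
    · intro h h'; exact h (by exact_mod_cast h')

/-- `x^2 - xy + y^2`. -/
def c2 (α : Fin 2 → ℕ) : ℤ := if α 0 = 1 then -1 else 1

lemma ex2 : 2 ∈ rkSet 2 2 := by
  apply rkSet_of_int c2
  · decide
  · decide
  · decide

/-- `(x+y)^2 - (x+y)z + z^2`. -/
def c3 (α : Fin 3 → ℕ) : ℤ :=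
  if α 2 = 1 then -1 else if α 0 = 1 then 2 else 1

lemma ex3 : 5 ∈ rkSet 3 2 := by
  apply rkSet_of_int c3
  · decide
  · decide
  · decide

/-- `(x+y)^2 - (x+y)(z+w) + (z+w)^2`. -/
def c4 (α : Fin 4 → ℕ) : ℤ :=
  if α 0 + α 1 = 1 then -1 else if α 0 = 1 ∨ α 2 = 1 then 2 else 1

lemma ex4 : 8 ∈ rkSet 4 2 := by
  apply rkSet_of_int c4
  · decide
  · decide
  · decide

end Pool.Agent.MP_39acf6_an
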